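import Pool.Agent.Lib.HCM.Alg

/-!
# Embeddings of `E = F(δ)`, sign vectors and reflex types (helper51)
-/

open scoped ComplexConjugate Matrix
open Complex

namespace Pool.Agent.HCM

noncomputable section

@[simp] theorem cj_apply {E : Type} [Field E] (τ : E →+* ℂ) (x : E) : cj τ x = conj (τ x) := rfl

@[simp] theorem cj_cj {E : Type} [Field E] (τ : E →+* ℂ) : cj (cj τ) = τ := by
  ext x
  simp

namespace CMData

variable {F E : Type} [Field F] [NumberField F] [Field E] [NumberField E] [Algebra F E]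
  {D : F} {δ : E} {v₁ : F →+* ℝ} {τ₀ : E →+* ℂ}

/-- every embedding is `τ₀ ∘ g` -/
theorem exists_gal (H : CMData F E D δ v₁ τ₀) (τ : E →+* ℂ) :
    ∃ g : E ≃+* E, τ = τ₀.comp (g : E →+* E) := by
  have := H.galois
  let _ : Algebra E ℂ := τ₀.toAlgebra
  have : IsScalarTower ℚ E ℂ := IsScalarTower.of_algebraMap_eq' (Subsingleton.elim _ _)
  let f : E →ₐ[ℚ] ℂ := τ.toRatAlgHom
  let g : Gal(E/ℚ) := Normal.algHomEquivAut ℚ ℂ E f
  refine ⟨(g : E ≃ₐ[ℚ] E).toRingEquiv, ?_⟩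
  have h1 : (Normal.algHomEquivAut ℚ ℂ E).symm g = f := Equiv.symm_apply_apply _ _
  ext x
  have h2 : τ₀ (g x) = τ x := congrArg (fun k : E →ₐ[ℚ] ℂ => k x) h1
  exact h2.symm

theorem real_on (H : CMData F E D δ v₁ τ₀) (τ : E →+* ℂ) :
    ∃ v : F →+* ℝ, ∀ a : F, τ (algebraMap F E a) = v a := by
  have := H.real
  have h := NumberField.IsTotallyReal.complexEmbedding_isReal (τ.comp (algebraMap F E))
  exact ⟨h.embedding, fun a => (h.coe_embedding_apply a).symm⟩

/-- `τ δ = ± i √(v D)` -/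
theorem delta_sq (H : CMData F E D δ v₁ τ₀) {τ : E →+* ℂ} {v : F →+* ℝ}
    (hv : ∀ a : F, τ (algebraMap F E a) = v a) : (τ δ).re = 0 ∧ (τ δ).im ^ 2 = v D := by
  have h1 : τ δ ^ 2 = -(v D : ℂ) := by rw [← map_pow, H.sq, map_neg, hv]
  have h2 := congrArg Complex.re h1
  have h3 := congrArg Complex.im h1
  have h4 := H.pos v
  simp only [pow_two, mul_re, mul_im, neg_re, neg_im, ofReal_re, ofReal_im, neg_zero] at h2 h3
  have h5 : (τ δ).re = 0 := by
    by_contra h6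
    have h7 : (τ δ).im = 0 := by
      have : (τ δ).re * (τ δ).im = 0 := by linarith
      exact (mul_eq_zero.1 this).resolve_left h6
    rw [h7] at h2
    nlinarith [mul_self_nonneg (τ δ).re]
  refine ⟨h5, ?_⟩
  rw [h5] at h2
  nlinarith

theorem im_ne (H : CMData F E D δ v₁ τ₀) (τ : E →+* ℂ) : (τ δ).im ≠ 0 := by
  obtain ⟨v, hv⟩ := H.real_on τ
  have h := (H.delta_sq hv).2
  have h4 := H.pos v
  intro h5
  rw [h5] at h
  norm_num at h
  linarith

/-- complex conjugation of `E` -/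
theorem exists_conj (H : CMData F E D δ v₁ τ₀) :
    ∃ c : E ≃+* E, (∀ τ : E →+* ℂ, cj τ = τ.comp (c : E →+* E)) ∧ (∀ x, c (c x) = x) := by
  obtain ⟨c, hc⟩ := H.exists_gal (cj τ₀)
  have hc' : ∀ x, conj (τ₀ x) = τ₀ (c x) := fun x => congrArg (fun k : E →+* ℂ => k x) hc
  have h1 : ∀ a : F, c (algebraMap F E a) = algebraMap F E a := by
    intro a
    apply τ₀.injective
    rw [← hc', H.above, conj_ofReal]
  have h2 : c δ = -δ := by
    apply τ₀.injective
    rw [← hc', map_neg]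
    apply Complex.ext
    · rw [conj_re, neg_re, (H.delta_sq H.above).1, neg_zero]
    · rw [conj_im, neg_im]
  have h3 : ∀ τ : E →+* ℂ, cj τ = τ.comp (c : E →+* E) := by
    intro τ
    ext x
    obtain ⟨a, b, rfl⟩ := H.gen x
    obtain ⟨v, hv⟩ := H.real_on τ
    have h4 : conj (τ δ) = -τ δ := by
      apply Complex.ext
      · rw [conj_re, neg_re, (H.delta_sq hv).1, neg_zero]
      · rw [conj_im, neg_im]
    simp only [cj_apply, map_add, map_mul, RingHom.comp_apply, RingHom.coe_coe, h1, h2, hv,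
      conj_ofReal, h4, map_neg]
  refine ⟨c, h3, fun x => ?_⟩
  apply τ₀.injective
  rw [← hc', ← hc', conj_conj]

/-- an embedding is determined by its restriction to `F` and the sign of `Im τ(δ)` -/
theorem ext_emb (H : CMData F E D δ v₁ τ₀) {τ τ' : E →+* ℂ} {v : F →+* ℝ}
    (hv : ∀ a : F, τ (algebraMap F E a) = v a) (hv' : ∀ a : F, τ' (algebraMap F E a) = v a)
    (h : 0 < (τ δ).im) (h' : 0 < (τ' δ).im) : τ = τ' := by
  have h1 := H.delta_sq hv
  have h2 := H.delta_sq hv'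
  have h3 : τ δ = τ' δ := by
    apply Complex.ext
    · rw [h1.1, h2.1]
    · exact (pow_left_inj₀ h.le h'.le two_ne_zero).1 (h1.2.trans h2.2.symm)
  ext x
  obtain ⟨a, b, rfl⟩ := H.gen x
  simp only [map_add, map_mul, hv, hv', h3]

/-- the embedding above `v` with `Im τ(δ) > 0` -/
theorem exists_emb (H : CMData F E D δ v₁ τ₀) (v : F →+* ℝ) :
    ∃ τ : E →+* ℂ, (∀ a : F, τ (algebraMap F E a) = v a) ∧ 0 < (τ δ).im := by
  let _ : Algebra F ℂ := (Complex.ofRealHom.comp v).toAlgebra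
  have : Algebra.IsAlgebraic F E := Algebra.IsAlgebraic.tower_top (K := ℚ) F
  let f : E →ₐ[F] ℂ := IsAlgClosed.lift
  have hf : ∀ a : F, f (algebraMap F E a) = v a := fun a => f.commutes a
  rcases lt_or_gt_of_ne (H.im_ne (f : E →+* ℂ)) with h | h
  · refine ⟨cj (f : E →+* ℂ), fun a => ?_, ?_⟩
    · rw [cj_apply]
      change conj (f (algebraMap F E a)) = v a
      rw [hf, conj_ofReal]
    · rw [cj_apply, conj_im]
      linarith
  · exact ⟨(f : E →+* ℂ), hf, h⟩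

end CMData


variable {F E : Type} [Field F] [NumberField F] [Field E] [NumberField E] [Algebra F E]
  {D : F} {δ : E} {v₁ : F →+* ℝ} {τ₀ : E →+* ℂ}

open Classical in
/-- The sign vector of the eigenline `(Φ, τ₀ ∘ σ)`. -/
def sv (F : Type) [Field F] [Algebra F E] (δ : E) (τ₀ : E →+* ℂ)
    (Φ : Set (E →+* ℂ)) (σ : E ≃+* E) : (F →+* ℝ) → Bool := fun v =>
  decide (∃ g : E ≃+* E, (∀ a : F, τ₀ (g.symm (algebraMap F E a)) = v a) ∧
    0 < (τ₀ (g.symm δ)).im ∧ gg τ₀ g σ ∈ Φ)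

theorem gg_cj {c : E ≃+* E}
    (hc : ∀ τ : E →+* ℂ, cj τ = τ.comp (c : E →+* E)) (g σ : E ≃+* E) :
    gg τ₀ g (σ.trans c) = cj (gg τ₀ g σ) := by
  ext x
  have h1 := congrArg (fun k : E →+* ℂ => k (σ x)) (hc (τ₀.comp (g : E →+* E)))
  simp only [cj_apply, RingHom.comp_apply, RingHom.coe_coe] at h1
  simp only [cj_apply, RingHom.comp_apply, RingHom.coe_coe, RingEquiv.coe_trans, Function.comp_apply]
  exact h1.symm

theorem gg_cj' {c : E ≃+* E}
    (hc : ∀ τ : E →+* ℂ, cj τ = τ.comp (c : E →+* E)) (g σ : E ≃+* E) :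
    gg τ₀ (g.trans c) σ = cj (gg τ₀ g σ) := by
  ext x
  have h1 := congrArg (fun k : E →+* ℂ => k (g (σ x))) (hc τ₀)
  simp only [cj_apply, RingHom.comp_apply, RingHom.coe_coe] at h1
  simp only [cj_apply, RingHom.comp_apply, RingHom.coe_coe, RingEquiv.coe_trans, Function.comp_apply]
  exact h1.symm

/-- the value of the sign vector at the place of `τ₀ ∘ g⁻¹`, `Im τ₀(g⁻¹ δ) > 0` -/
theorem sv_iff (H : CMData F E D δ v₁ τ₀) (Φ : Set (E →+* ℂ)) (σ g : E ≃+* E) {v : F →+* ℝ}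
    (hv : ∀ a : F, τ₀ (g.symm (algebraMap F E a)) = v a) (hδ : 0 < (τ₀ (g.symm δ)).im) :
    sv F δ τ₀ Φ σ v = true ↔ gg τ₀ g σ ∈ Φ := by
  simp only [sv, decide_eq_true_eq]
  constructor
  · rintro ⟨g', h1, h2, h3⟩
    have h4 : τ₀.comp (g'.symm : E →+* E) = τ₀.comp (g.symm : E →+* E) :=
      H.ext_emb (v := v) h1 hv h2 hδ
    have h5 : g'.symm = g.symm := by
      ext x
      exact τ₀.injective (congrArg (fun k : E →+* ℂ => k x) h4)
    have h6 : g' = g := by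
      rw [← g'.symm_symm, h5, g.symm_symm]
    rwa [← h6]
  · intro h
    exact ⟨g, hv, hδ, h⟩

theorem exists_place (H : CMData F E D δ v₁ τ₀) (v : F →+* ℝ) :
    ∃ g : E ≃+* E, (∀ a : F, τ₀ (g.symm (algebraMap F E a)) = v a) ∧ 0 < (τ₀ (g.symm δ)).im := by
  obtain ⟨τ, h1, h2⟩ := H.exists_emb v
  obtain ⟨g, hg⟩ := H.exists_gal τ
  refine ⟨g.symm, ?_, ?_⟩
  · intro a
    rw [← h1, hg]
    rfl
  · rw [hg] at h2
    exact h2

theorem bar_sv (H : CMData F E D δ v₁ τ₀) {c : E ≃+* E}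
    (hc : ∀ τ : E →+* ℂ, cj τ = τ.comp (c : E →+* E)) {Φ : Set (E →+* ℂ)} (hΦ : IsCMType Φ)
    (σ : E ≃+* E) : (fun v => !(sv F δ τ₀ Φ σ v)) = sv F δ τ₀ Φ (σ.trans c) := by
  funext v
  obtain ⟨g, h1, h2⟩ := exists_place H v
  have h3 := sv_iff H Φ σ g h1 h2
  have h4 := sv_iff H Φ (σ.trans c) g h1 h2
  rw [gg_cj hc, hΦ, ← h3] at h4
  cases h5 : sv F δ τ₀ Φ σ v <;> cases h6 : sv F δ τ₀ Φ (σ.trans c) v <;> simp_all

/-- the signs of `a` -/
theorem pos_iff (H : CMData F E D δ v₁ τ₀) {Φ : Set (E →+* ℂ)} (hΦ : IsCMType Φ) {σ : E ≃+* E}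
    {a : F} (ha0 : a ≠ 0) (ha : ∀ v : F →+* ℝ, sv F δ τ₀ Φ σ v = true ↔ 0 < v a) (g : E ≃+* E) :
    0 < (τ₀ (g.symm (δ * algebraMap F E a))).im ↔ gg τ₀ g σ ∈ Φ := by
  obtain ⟨c, hc, hcc⟩ := H.exists_conj
  set τ : E →+* ℂ := τ₀.comp (g.symm : E →+* E) with hτ
  obtain ⟨v, hv⟩ := H.real_on τ
  have hva : v a ≠ 0 := fun h => ha0 (v.injective (h.trans (map_zero v).symm))
  have e1 : (τ₀ (g.symm (δ * algebraMap F E a))).im = (τ δ).im * v a := by
    have : τ₀ (g.symm (δ * algebraMap F E a)) = τ δ * v a := by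
      rw [← hv, ← map_mul]; rfl
    rw [this, mul_im, ofReal_re, ofReal_im]
    ring
  rw [e1]
  rcases lt_or_gt_of_ne (H.im_ne τ) with h | h
  · -- the conjugate embedding
    have h1 : ∀ b : F, τ₀ ((g.trans c).symm (algebraMap F E b)) = v b := by
      intro b
      have h2 : τ₀ ((g.trans c).symm (algebraMap F E b)) = cj τ (algebraMap F E b) := by
        rw [hc τ]
        have h3 : c.symm (algebraMap F E b) = c (algebraMap F E b) := by
          rw [RingEquiv.symm_apply_eq, hcc]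
        change τ₀ (g.symm (c.symm _)) = τ₀ (g.symm (c _))
        rw [h3]
      rw [h2, cj_apply, hv, conj_ofReal]
    have h2 : 0 < (τ₀ ((g.trans c).symm δ)).im := by
      have h3 : τ₀ ((g.trans c).symm δ) = cj τ δ := by
        rw [hc τ]
        have h3 : c.symm δ = c δ := by rw [RingEquiv.symm_apply_eq, hcc]
        change τ₀ (g.symm (c.symm _)) = τ₀ (g.symm (c _))
        rw [h3]
      rw [h3, cj_apply, conj_im]
      linarith
    have h3 := sv_iff H Φ σ (g.trans c) h1 h2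
    rw [ha, gg_cj' hc, hΦ] at h3
    constructor
    · intro h4
      by_contra h5
      have h6 := h3.2 h5
      have := mul_neg_of_neg_of_pos h h6
      linarith
    · intro h4
      have h5 : ¬ 0 < v a := fun h6 => (h3.1 h6) h4
      have h6 : v a < 0 := lt_of_le_of_ne (not_lt.1 h5) hva
      exact mul_pos_of_neg_of_neg h h6
  · have h3 := sv_iff H Φ σ g (v := v) hv h
    rw [ha] at h3
    rw [← h3]
    constructor
    · intro h4
      exact (mul_pos_iff_of_pos_left h).1 h4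
    · exact fun h4 => mul_pos h h4


end

end Pool.Agent.HCM
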