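import Pool.Agent.Lib.CMN.Defs

/-!
# The Hodge conjecture for abelian varieties of CM type: statement (helper51)

For a finite family of CM fields `K i` and CM types `Φ i` (sets of embeddings `K i → ℂ`) we consider
the complex abelian variety `A = ∏ i, ℂ^(Φ i) / Φ i (𝓞 (K i))`.  Every complex abelian variety of CM
type is isogenous to such an `A`.

`H₁(A, ℚ) = ∏ i, K i`.  A constant one-form `dz_s` on `A` is given by `s = (i, τ)`: its period over
the loop `x : ∏ i, K i` is `τ (x i)`; it is of type `(1,0)` if `τ ∈ Φ i` and of type `(0,1)`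
otherwise.  A class in `H_{2n}(A, ℂ)` is given by its pairings with the forms `⋀ₐ dz_(t a)`, that is
by a function of the `2n`-tuple `t`.
-/

open scoped ComplexConjugate Matrix
open Complex MeasureTheory Pool.Agent.CMN

namespace Pool.Agent.HCM

noncomputable section

/-- `2n`-tuples are indexed by `Fin n ⊕ Fin n`. -/
abbrev Two (n : ℕ) : Type := Fin n ⊕ Fin n

/-- The complex conjugate of an embedding. -/
def cj {E : Type} [Field E] (τ : E →+* ℂ) : E →+* ℂ := (starRingEnd ℂ).comp τ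

/-- `Φ` is a CM type: it contains exactly one embedding out of each pair of conjugate ones. -/
def IsCMType {E : Type} [Field E] (Φ : Set (E →+* ℂ)) : Prop := ∀ τ, cj τ ∈ Φ ↔ τ ∉ Φ

section torus

variable {ι : Type} (K : ι → Type) [∀ i, Field (K i)]

/-- Indices `(i, τ)` of the constant one-forms `dz_(i, τ)` on `A`. -/
abbrev Idx : Type := Σ i, (K i →+* ℂ)

variable {K}

/-- The class in `H_{2n}(A, ℚ)` of the real `2n`-torus spanned by the loops `x b`. -/
def torusClass {n : ℕ} (x : Two n → ∀ i, K i) (t : Two n → Idx K) : ℂ :=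
  Matrix.det (Matrix.of fun a b => (t a).2 (x b (t a).1))

variable (K) in
/-- `H_{2n}(A, ℚ)`. -/
def HQ (n : ℕ) : Submodule ℚ ((Two n → Idx K) → ℂ) :=
  Submodule.span ℚ (Set.range torusClass)

/-- `u` is a Hodge class: its pairing with all constant `2n`-forms which are not of type `(n,n)`
vanishes. -/
def IsHodge {n : ℕ} (Φ : ∀ i, Set (K i →+* ℂ)) (u : (Two n → Idx K) → ℂ) : Prop :=
  ∀ t : Two n → Idx K, {a | (t a).2 ∈ Φ (t a).1}.ncard ≠ n → u t = 0

end torus

section maps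

variable {n : ℕ} {E : Type} [Field E]

/-- `(f, ℓ)` is a holomorphic map from `Γ\ball` to the complex torus `ℂ^Φ / Φ(𝓞 E)`: `f τ`, `τ ∈ Φ`,
are holomorphic functions on the ball with `f τ (γ y) = f τ y + τ (ℓ γ)`, where `ℓ γ` does not depend
on `τ` and lies in the ring of integers of `E`. -/
structure IsMap (k : Fin (n + 1) → ℝ) (Γ : Subgroup (SLn n)) (Φ : Set (E →+* ℂ))
    (f : (E →+* ℂ) → (Fin n → ℂ) → ℂ) (ℓ : SLn n → E) : Prop where
  int : ∀ γ ∈ Γ, IsIntegral ℤ (ℓ γ)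
  hol : ∀ τ ∈ Φ, DifferentiableOn ℂ (f τ) (ball k)
  per : ∀ τ ∈ Φ, ∀ γ ∈ Γ, ∀ y ∈ ball k, f τ (actC γ y) = f τ y + τ (ℓ γ)

open Classical in
/-- The pull back `f^* dz_τ` in the basis `dy_j, conj dy_j`: this is `d (f τ)` for `τ ∈ Φ`, and the
complex conjugate of `d (f (cj τ))` for `τ ∉ Φ`. -/
def pull (Φ : Set (E →+* ℂ)) (f : (E →+* ℂ) → (Fin n → ℂ) → ℂ) (τ : E →+* ℂ) (y : Fin n → ℂ) :
    Two n → ℂ :=
  if τ ∈ Φ then Sum.elim (fun j => fderiv ℂ (f τ) y (Pi.single j 1)) 0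
  else Sum.elim 0 (fun j => conj (fderiv ℂ (f (cj τ)) y (Pi.single j 1)))

variable {ι : Type} {K : ι → Type} [∀ i, Field (K i)]

/-- The class in `H_{2n}(A, ℂ)` of the map `f : Γ\ball → A`: the integrals over `Γ\ball` (over the
ball, against a weight `χ`) of the forms `f^* (⋀ₐ dz_(t a))`. -/
def cls (Φ : ∀ i, Set (K i →+* ℂ)) (χ : (Fin n → ℂ) → ℝ)
    (f : ∀ i, (K i →+* ℂ) → (Fin n → ℂ) → ℂ) (t : Two n → Idx K) : ℂ :=
  ∫ y : Fin n → ℂ, (χ y : ℂ) *
    Matrix.det (Matrix.of fun a => pull (Φ (t a).1) (f (t a).1) (t a).2 y)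

end maps

section arith

/-- `h` is of signature `(n,1)` at `v₁` and positive definite at all other places. -/
structure Sig {F : Type} [Field F] {n : ℕ} (v₁ : F →+* ℝ) (h : Fin (n + 1) → F) : Prop where
  pos : ∀ (v : F →+* ℝ) (j : Fin n), 0 < v (h j.castSucc)
  neg : v₁ (h (Fin.last n)) < 0
  last : ∀ v, v ≠ v₁ → 0 < v (h (Fin.last n))

variable {ι : Type} {K : ι → Type} [∀ i, Field (K i)]

/-- The classes of the holomorphic maps from compact arithmetic quotients `Γ\ball` of the `n`-ball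
to `A`: `Γ` is an arithmetic subgroup of `SU(h)`, `h` a hermitian form over a CM field `F(√-D)`, of
signature `(n,1)` at one place `v₁` of the totally real field `F` and definite at all others. -/
def BallCl {n : ℕ} (Φ : ∀ i, Set (K i →+* ℂ)) : Set ((Two n → Idx K) → ℂ) :=
  {u | ∃ (F : Type) (_ : Field F) (_ : NumberField F) (v₁ : F →+* ℝ) (D : F)
      (h : Fin (n + 1) → F) (Γ : Subgroup (SLn n)) (χ : (Fin n → ℂ) → ℝ)
      (f : ∀ i, (K i →+* ℂ) → (Fin n → ℂ) → ℂ) (ℓ : ∀ i, SLn n → K i),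
    NumberField.IsTotallyReal F ∧ IsIntegral ℤ D ∧ (∀ v : F →+* ℝ, 0 < v D) ∧ Sig v₁ h ∧
    IsArith v₁ D h Γ ∧ Cocompact (ev v₁ h) Γ ∧ IsWt (ev v₁ h) Γ χ ∧
    (∀ i, IsMap (ev v₁ h) Γ (Φ i) (f i) (ℓ i)) ∧ u = cls Φ χ f}

/-- The data `E = F(δ)`, `δ² = -D`, `E/ℚ` Galois, `F` totally real of degree at least two, `D`
integral and totally positive, `τ₀ : E → ℂ` above `v₁` with `τ₀ δ` in the upper half plane. -/
structure CMData (F E : Type) [Field F] [NumberField F] [Field E] [NumberField E] [Algebra F E]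
    (D : F) (δ : E) (v₁ : F →+* ℝ) (τ₀ : E →+* ℂ) : Prop where
  real : NumberField.IsTotallyReal F
  galois : IsGalois ℚ E
  int : IsIntegral ℤ D
  pos : ∀ v : F →+* ℝ, 0 < v D
  two : ∃ v : F →+* ℝ, v ≠ v₁
  sq : δ ^ 2 = -algebraMap F E D
  gen : ∀ x : E, ∃ a b : F, x = algebraMap F E a + algebraMap F E b * δ
  above : ∀ a : F, τ₀ (algebraMap F E a) = v₁ a
  upper : 0 < (τ₀ δ).im

/-- The reflex of the CM type `{τ | Im τ(δ a) > 0}` with respect to `τ₀`. -/
def reflex {F E : Type} [Field F] [Field E] [Algebra F E] (δ : E) (τ₀ : E →+* ℂ) (a : F) :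
    Set (E →+* ℂ) :=
  {τ | ∃ g : E ≃+* E, τ = τ₀.comp (g : E →+* E) ∧ 0 < (τ₀ (g.symm (δ * algebraMap F E a))).im}

/-- **The theorem of Kazhdan, Shimura and Murty-Ramakrishnan on the CM type of theta one-forms**
on quotients of the `n`-ball.  An invariant theta one-form `v_a(φ)` on `Γ\ball` is a linear
combination `∑ c_j p_j^* (dz_{τ₀})` of pull backs under holomorphic maps
`p_j : Γ\ball → ℂ^(Φ*) / Φ*(𝓞 E)`, where `Φ*` is the reflex of the CM type given by the signs of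
`a`. -/
def P2 : Prop :=
  ∀ (F E : Type) [Field F] [NumberField F] [Field E] [NumberField E] [Algebra F E]
    (D : F) (δ : E) (v₁ : F →+* ℝ) (τ₀ : E →+* ℂ), CMData F E D δ v₁ τ₀ →
    ∀ (n : ℕ) (h : Fin (n + 1) → F) (Γ : Subgroup (SLn n)) (a : F) (φ : (Fin (n + 1) → F) → ℂ),
    0 < n → Sig v₁ h → IsArith v₁ D h Γ → 0 < v₁ a → IsSB φ →
    InvOne (ev v₁ h) Γ (theta v₁ D h a φ) →
    ∃ (J : ℕ) (c : Fin J → ℂ) (p : Fin J → (E →+* ℂ) → (Fin n → ℂ) → ℂ) (ℓ : Fin J → SLn n → E),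
      (∀ j, IsMap (ev v₁ h) Γ (reflex δ τ₀ a) (p j) (ℓ j)) ∧
      ∀ y ∈ ball (ev v₁ h), ∀ i, theta v₁ D h a φ i y =
        ∑ j, c j * fderiv ℂ (p j τ₀) y (Pi.single i 1)

/-- **The Hodge conjecture for abelian varieties of CM type**: every Hodge class in `H_{2n}`,
`n ≥ 1`, is a linear combination of classes of holomorphic maps from compact arithmetic quotients of
the `n`-ball (smooth projective varieties, after passing to a subgroup of finite index). -/
def HODGE : Prop :=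
  ∀ (n : ℕ) (ι : Type) [Finite ι] (K : ι → Type) [∀ i, Field (K i)] [∀ i, NumberField (K i)]
    [∀ i, NumberField.IsCMField (K i)] (Φ : ∀ i, Set (K i →+* ℂ)), 0 < n →
    (∀ i, IsCMType (Φ i)) → ∀ u ∈ HQ K n, IsHodge Φ u → u ∈ Submodule.span ℂ (BallCl Φ)

end arith

end

end Pool.Agent.HCM
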