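import Pool.Agent.Lib.HCM.Down

/-!
# Dual bases and traces (helper60)
-/

set_option autoImplicit false

open scoped ComplexConjugate Matrix
open Complex

namespace Pool.Agent.HCM

noncomputable section

section dual

variable (E : Type) [Field E] [NumberField E]

/-- the trace is the sum of the embeddings -/
theorem trQ (x : E) : ((Algebra.trace ℚ E x : ℚ) : ℂ) = ∑ τ : E →+* ℂ, τ x := by
  have h1 := trace_eq_sum_embeddings (K := ℚ) (L := E) ℂ (x := x)
  have h2 : algebraMap ℚ ℂ (Algebra.trace ℚ E x) = ((Algebra.trace ℚ E x : ℚ) : ℂ) := rfl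
  rw [← h2, h1]
  exact (Fintype.sum_equiv (RingHom.equivRatAlgHom E ℂ) _ _ fun τ => rfl).symm

/-- dual bases for the trace form -/
theorem exists_dual : ∃ (d : ℕ) (e e' : Fin d → E), ∀ τ τ' : E →+* ℂ,
    ∑ i, τ (e i) * τ' (e' i) = open Classical in if τ = τ' then 1 else 0 := by
  classical
  let b := Module.finBasis ℚ E
  refine ⟨_, b, b.traceDual, fun τ τ' => ?_⟩
  let M : Matrix (Fin (Module.finrank ℚ E)) (E →+* ℂ) ℂ := Matrix.of fun i τ => τ (b.traceDual i)
  let N : Matrix (E →+* ℂ) (Fin (Module.finrank ℚ E)) ℂ := Matrix.of fun τ i => τ (b i)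
  have h1 : M * N = 1 := by
    ext i j
    rw [Matrix.mul_apply]
    have h2 : ∀ τ : E →+* ℂ, M i τ * N τ j = τ (b.traceDual i * b j) := fun τ => (map_mul τ _ _).symm
    simp only [h2]
    rw [← trQ]
    have h3 : Algebra.trace ℚ E (b.traceDual i * b j) = if j = i then 1 else 0 :=
      b.trace_traceDual_mul i j
    rw [h3, Matrix.one_apply]
    by_cases h : i = j
    · rw [if_pos h, if_pos h.symm]
      norm_num
    · rw [if_neg h, if_neg (Ne.symm h)]
      norm_num
  have e : Fin (Module.finrank ℚ E) ≃ (E →+* ℂ) :=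
    Fintype.equivOfCardEq (by rw [Fintype.card_fin, NumberField.Embeddings.card])
  have h2 : N * M = 1 := (Matrix.mul_eq_one_comm_of_equiv e).1 h1
  have h3 := congrFun (congrFun h2 τ) τ'
  rw [Matrix.mul_apply, Matrix.one_apply] at h3
  exact h3

end dual

end

end Pool.Agent.HCM
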