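import Pool.Agent.Lib.HCM.Stat

/-!
# Homology of products of CM tori; characters (helper51)
-/

open scoped ComplexConjugate Matrix
open Complex

namespace Pool.Agent.HCM

noncomputable section

section chars

/-- The component of a family of vectors along a character lies in the span of the family. -/
theorem char_span {T R M : Type} [Finite T] [Fintype R] [Monoid M] (ψ : R → T → M →* ℂ)
    (K : R → T → ℂ) (ψ₀ : M →* ℂ) :
    (fun t => ∑ r, open Classical in if ψ r t = ψ₀ then K r t else 0) ∈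
      Submodule.span ℂ (Set.range fun x : M => fun t => ∑ r, ψ r t x * K r t) := by
  classical
  have := Fintype.ofFinite T
  by_contra hcon
  obtain ⟨lam, hl1, hl2⟩ := Submodule.exists_le_ker_of_notMem hcon
  apply hl1
  have hlam : ∀ v : T → ℂ, lam v = ∑ t, v t * lam (Pi.single t 1) := by
    intro v
    conv_lhs => rw [← Finset.univ_sum_single v, map_sum]
    refine Finset.sum_congr rfl fun t _ => ?_
    have : (Pi.single t (v t) : T → ℂ) = v t • Pi.single t (1 : ℂ) := by
      rw [← Pi.single_smul, smul_eq_mul, mul_one]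
    rw [this, map_smul, smul_eq_mul]
  have hx : ∀ x : M, ∑ p : T × R, (K p.2 p.1 * lam (Pi.single p.1 1)) * ψ p.2 p.1 x = 0 := by
    intro x
    have h1 : lam (fun t => ∑ r, ψ r t x * K r t) = 0 :=
      hl2 (Submodule.subset_span ⟨x, rfl⟩)
    rw [hlam] at h1
    rw [← h1, Fintype.sum_prod_type]
    refine Finset.sum_congr rfl fun t _ => ?_
    rw [Finset.sum_mul]
    refine Finset.sum_congr rfl fun r _ => ?_
    ring
  have hind := linearIndependent_monoidHom M ℂ
  rw [linearIndependent_iff] at hind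
  have h2 := hind (∑ p : T × R, Finsupp.single (ψ p.2 p.1) (K p.2 p.1 * lam (Pi.single p.1 1))) (by
    rw [map_sum]
    simp only [Finsupp.linearCombination_single]
    funext x
    simp only [Finset.sum_apply, Pi.smul_apply, smul_eq_mul, Pi.zero_apply]
    exact hx x)
  have h3 := congrArg (fun l : (M →* ℂ) →₀ ℂ => l ψ₀) h2
  simp only [Finsupp.coe_finsetSum, Finset.sum_apply, Finsupp.single_apply, Finsupp.coe_zero,
    Pi.zero_apply] at h3
  rw [hlam]
  refine Eq.trans ?_ h3
  rw [Fintype.sum_prod_type]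
  refine Finset.sum_congr rfl fun t _ => ?_
  rw [Finset.sum_mul]
  refine Finset.sum_congr rfl fun r _ => ?_
  by_cases h : ψ r t = ψ₀
  · simp [h]
  · simp [h]

/-- expansion of a determinant with rows which are sums -/
theorem det_rows_sum {T : Type} [Fintype T] [DecidableEq T] {J : T → Type} [∀ a, Fintype (J a)]
    [∀ a, DecidableEq (J a)] (c : ∀ a, J a → ℂ) (v : ∀ a, J a → T → ℂ) :
    Matrix.det (Matrix.of fun a => ∑ s, c a s • v a s) =
      ∑ r : ∀ a, J a, (∏ a, c a (r a)) * Matrix.det (Matrix.of fun a => v a (r a)) := by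
  have h1 := (Matrix.detRowAlternating (n := T) (R := ℂ)).toMultilinearMap.map_sum
    (fun a s => c a s • v a s)
  refine h1.trans (Finset.sum_congr rfl fun r _ => ?_)
  have h2 := (Matrix.detRowAlternating (n := T) (R := ℂ)).toMultilinearMap.map_smul_univ
    (fun a => c a (r a)) (fun a => v a (r a))
  exact h2

/-- sorting -/
theorem exists_sort {n : ℕ} (b : Two n → Prop) (hb : {a | b a}.ncard = n) :
    ∃ π : Equiv.Perm (Two n), (∀ i, b (π (Sum.inl i))) ∧ ∀ i, ¬ b (π (Sum.inr i)) := by
  classical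
  have h1 : Fintype.card {a // b a} = n := by
    rw [Fintype.card_subtype]
    refine Eq.trans ?_ hb
    rw [Set.ncard_eq_toFinset_card']
    congr 1
    ext a
    simp
  have h2 : Fintype.card {a // ¬ b a} = n := by
    have := Fintype.card_subtype_compl b
    rw [this, h1]
    simp
  let e1 : Fin n ≃ {a // b a} := (Fintype.equivFinOfCardEq h1).symm
  let e2 : Fin n ≃ {a // ¬ b a} := (Fintype.equivFinOfCardEq h2).symm
  refine ⟨(Equiv.sumCongr e1 e2).trans (Equiv.sumCompl b), fun i => ?_, fun i => ?_⟩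
  · exact (e1 i).2
  · exact (e2 i).2

end chars

section alt

variable {ι : Type} {K : ι → Type} [∀ i, Field (K i)] {n : ℕ}

/-- The alternating function with support in the permutations of `t`. -/
def ee (t : Two n → Idx K) : (Two n → Idx K) → ℂ := fun t' =>
  ∑ π : Equiv.Perm (Two n), open Classical in
    if t' = t ∘ π then ((Equiv.Perm.sign π : ℤ) : ℂ) else 0

theorem ee_comp (t : Two n → Idx K) (π : Equiv.Perm (Two n)) :
    ee (t ∘ π) = ((Equiv.Perm.sign π : ℤ) : ℂ) • ee t := by
  classical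
  funext t'
  rw [Pi.smul_apply, smul_eq_mul, ee, ee, Finset.mul_sum]
  rw [← Equiv.sum_comp (Equiv.mulLeft π) (fun ρ : Equiv.Perm (Two n) =>
    ((Equiv.Perm.sign π : ℤ) : ℂ) * if t' = t ∘ ρ then ((Equiv.Perm.sign ρ : ℤ) : ℂ) else 0)]
  refine Finset.sum_congr rfl fun ρ _ => ?_
  simp only [Equiv.coe_mulLeft, Equiv.Perm.coe_mul, Equiv.Perm.sign_mul, Units.val_mul, Int.cast_mul]
  have h1 : (t' = (t ∘ π) ∘ ρ) = (t' = t ∘ (π ∘ ρ)) := rfl
  by_cases h : t' = t ∘ (π ∘ ρ)
  · rw [if_pos h, if_pos (h1 ▸ h)]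
    rcases Int.units_eq_one_or (Equiv.Perm.sign π) with h2 | h2 <;> simp [h2]
  · rw [if_neg h, if_neg (h1 ▸ h), mul_zero]

theorem alt_of_mem {u : (Two n → Idx K) → ℂ} (hu : u ∈ HQ K n) (t : Two n → Idx K)
    (π : Equiv.Perm (Two n)) : u (t ∘ π) = ((Equiv.Perm.sign π : ℤ) : ℂ) * u t := by
  induction hu using Submodule.span_induction with
  | mem u hu =>
    obtain ⟨x, rfl⟩ := hu
    have h := Matrix.det_permute π (Matrix.of fun a b => (t a).2 (x b (t a).1))
    exact h
  | zero => simp
  | add u v _ _ hu hv => simp only [Pi.add_apply, hu, hv]; ring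
  | smul q u _ hu => simp only [Pi.smul_apply, hu, Rat.smul_def]; ring

/-- an alternating function is a combination of the `ee t` with `u t ≠ 0` -/
theorem mem_of_alt [Finite (Idx K)] {u : (Two n → Idx K) → ℂ}
    (hu : ∀ (t : Two n → Idx K) (π : Equiv.Perm (Two n)),
      u (t ∘ π) = ((Equiv.Perm.sign π : ℤ) : ℂ) * u t)
    {S : Submodule ℂ ((Two n → Idx K) → ℂ)} (hS : ∀ t, u t ≠ 0 → ee t ∈ S) : u ∈ S := by
  classical
  have := Fintype.ofFinite (Idx K)
  have h1 : ∑ t, u t • ee t ∈ S := by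
    refine Submodule.sum_mem _ fun t _ => ?_
    by_cases h : u t = 0
    · rw [h, zero_smul]; exact Submodule.zero_mem _
    · exact Submodule.smul_mem _ _ (hS t h)
  have h2 : ∑ t, u t • ee t = (Fintype.card (Equiv.Perm (Two n)) : ℂ) • u := by
    funext t'
    simp only [Finset.sum_apply, Pi.smul_apply, smul_eq_mul, ee, Finset.mul_sum]
    rw [Finset.sum_comm]
    have h3 : ∀ π : Equiv.Perm (Two n), ∑ t : Two n → Idx K,
        u t * (if t' = t ∘ π then ((Equiv.Perm.sign π : ℤ) : ℂ) else 0) = u t' := by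
      intro π
      rw [Finset.sum_eq_single (t' ∘ π.symm)]
      · rw [if_pos (by funext a; simp)]
        rw [hu, mul_right_comm]
        have h4 : ((Equiv.Perm.sign π.symm : ℤ) : ℂ) * ((Equiv.Perm.sign π : ℤ) : ℂ) = 1 := by
          rw [Equiv.Perm.sign_symm]
          rcases Int.units_eq_one_or (Equiv.Perm.sign π) with h | h <;> simp [h]
        rw [h4, one_mul]
      · intro t _ ht
        rw [if_neg, mul_zero]
        intro h
        apply ht
        rw [h]
        funext a
        simp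
      · intro h
        exact absurd (Finset.mem_univ _) h
    rw [Finset.sum_congr rfl fun π _ => h3 π]
    rw [Finset.sum_const, nsmul_eq_mul, Finset.card_univ]
  have h0 : (Fintype.card (Equiv.Perm (Two n)) : ℂ) ≠ 0 := by
    exact_mod_cast Fintype.card_ne_zero
  have h3 : u = (Fintype.card (Equiv.Perm (Two n)) : ℂ)⁻¹ • ∑ t, u t • ee t := by
    rw [h2, smul_smul, inv_mul_cancel₀ h0, one_smul]
  rw [h3]
  exact Submodule.smul_mem _ _ h1

end alt

section const

variable {ι E : Type} [Field E] {n : ℕ}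

/-- `τ₀ ∘ g ∘ σ` -/
abbrev gg (τ₀ : E →+* ℂ) (g σ : E ≃+* E) : E →+* ℂ := τ₀.comp ((g : E →+* E).comp (σ : E →+* E))

theorem gal_of_mem [NumberField E] (τ₀ : E →+* ℂ) {u : (Two n → Idx fun _ : ι => E) → ℂ}
    (hu : u ∈ HQ (fun _ : ι => E) n) (i : Two n → ι) (σ : Two n → E ≃+* E) :
    ∃ U : E, ∀ g : E ≃+* E, u (fun a => ⟨i a, gg τ₀ g (σ a)⟩) = τ₀ (g U) := by
  induction hu using Submodule.span_induction with
  | mem u hu =>
    obtain ⟨x, rfl⟩ := hu
    refine ⟨Matrix.det (Matrix.of fun a b => σ a (x b (i a))), fun g => ?_⟩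
    have h := RingHom.map_det (τ₀.comp (g : E →+* E)) (Matrix.of fun a b => σ a (x b (i a)))
    exact h.symm
  | zero => exact ⟨0, fun g => by simp⟩
  | add u v _ _ hu hv =>
    obtain ⟨U, hU⟩ := hu
    obtain ⟨V, hV⟩ := hv
    exact ⟨U + V, fun g => by simp only [Pi.add_apply, hU, hV, map_add]⟩
  | smul q u _ hu =>
    obtain ⟨U, hU⟩ := hu
    exact ⟨(q : E) * U, fun g => by
      simp only [Pi.smul_apply, hU, Rat.smul_def, map_mul, map_ratCast]⟩

end const

end

end Pool.Agent.HCM
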