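import Pool.Agent.Lib.HCM.Mp

/-!
# The span of the classes of the sums of maps (helper51)
-/

open scoped ComplexConjugate Matrix
open Complex MeasureTheory Pool.Agent.CMN

namespace Pool.Agent.HCM

noncomputable section

variable {ι E : Type} [Field E] {n : ℕ}

/-- `∑ x_s f_s`, the sum over the `s` with `i s = j`, a map to the `j`-th torus -/
def fx (i : Two n → ι) (f : Two n → (E →+* ℂ) → (Fin n → ℂ) → ℂ) (x : Two n → E)
    (j : ι) (τ : E →+* ℂ) (y : Fin n → ℂ) : ℂ :=
  ∑ s, (open Classical in if i s = j then τ (x s) else 0) * f s τ y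

def lx (i : Two n → ι) (ℓ : Two n → SLn n → E) (x : Two n → E) (j : ι) (γ : SLn n) : E :=
  ∑ s, (open Classical in if i s = j then x s else 0) * ℓ s γ

section

variable {k : Fin (n + 1) → ℝ} {Γ : Subgroup (SLn n)} {Φ : ι → Set (E →+* ℂ)} {i : Two n → ι}
  {f : Two n → (E →+* ℂ) → (Fin n → ℂ) → ℂ} {ℓ : Two n → SLn n → E}

theorem isMap_fx (hf : ∀ s, IsMap k Γ (Φ (i s)) (f s) (ℓ s)) {x : Two n → E}
    (hx : ∀ s, IsIntegral ℤ (x s)) (j : ι) : IsMap k Γ (Φ j) (fx i f x j) (lx i ℓ x j) := by
  classical
  refine ⟨?_, ?_, ?_⟩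
  · intro γ hγ
    refine IsIntegral.sum _ fun s _ => IsIntegral.mul ?_ ((hf s).int γ hγ)
    by_cases h : i s = j
    · rw [if_pos h]; exact hx s
    · rw [if_neg h]; exact isIntegral_zero
  · intro τ hτ
    refine DifferentiableOn.fun_sum fun s _ => ?_
    by_cases h : i s = j
    · refine DifferentiableOn.const_mul ((hf s).hol τ ?_) _
      rw [h]; exact hτ
    · simp only [if_neg h, zero_mul]; exact differentiableOn_const _
  · intro τ hτ γ hγ y hy
    unfold fx lx
    rw [map_sum, ← Finset.sum_add_distrib]
    refine Finset.sum_congr rfl fun s _ => ?_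
    by_cases h : i s = j
    · subst h
      simp only [if_true]
      rw [(hf s).per τ hτ γ hγ y hy, map_mul]
      ring
    · simp only [if_neg h, zero_mul, map_zero, add_zero]

theorem pull_fx (hΦ : ∀ j, IsCMType (Φ j)) (hf : ∀ s, IsMap k Γ (Φ (i s)) (f s) (ℓ s))
    (x : Two n → E) (j : ι) (τ : E →+* ℂ) {y : Fin n → ℂ} (hy : y ∈ ball k) :
    pull (Φ j) (fx i f x j) τ y =
      ∑ s, (open Classical in if i s = j then τ (x s) else 0) • pull (Φ j) (f s) τ y := by
  classical
  refine pull_sum (S := Two n) (hΦ j) (fun τ' s => if i s = j then τ' (x s) else 0)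
    (fun τ' s => f s τ') τ (fun _ _ _ => rfl) ?_ (fun s => pull (Φ j) (f s) τ y) ?_ ?_
    (fun s => if i s = j then τ (x s) else 0) ?_ ?_
  · intro τ' hτ' s hs
    have h : i s = j := by
      by_contra h
      exact hs (if_neg h)
    subst h
    exact ((hf s).hol τ' hτ').differentiableAt ((isOpen_ball' k).mem_nhds hy)
  · intro hτ s _
    exact if_pos hτ
  · intro hτ s _
    exact if_neg hτ
  · intro _ s
    rfl
  · intro _ s
    by_cases h : i s = j
    · simp [h]
    · simp [h]

end

/-- the characters which occur -/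
def psi (r : Two n → Two n) (t : Two n → Idx fun _ : ι => E) :
    (Two n → NumberField.RingOfIntegers E) →* ℂ :=
  ∏ a, (((t a).2 : E →* ℂ).comp
    ((algebraMap (NumberField.RingOfIntegers E) E : NumberField.RingOfIntegers E →* E))).comp
      (Pi.evalMonoidHom _ (r a))

theorem psi_apply (r : Two n → Two n) (t : Two n → Idx fun _ : ι => E)
    (x : Two n → NumberField.RingOfIntegers E) :
    psi r t x = ∏ a, (t a).2 (x (r a) : E) := by
  unfold psi
  rw [MonoidHom.finsetProd_apply]
  rfl

theorem psi_eq_iff [NumberField E] (r : Two n → Two n) (t t' : Two n → Idx fun _ : ι => E) :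
    psi r t' = psi id t ↔ ∃ π : Equiv.Perm (Two n), r = π ∧ ∀ a, (t' a).2 = (t (π a)).2 := by
  classical
  constructor
  · intro h
    have h0 : ∀ x : Two n → NumberField.RingOfIntegers E,
        ∏ a, (t' a).2 (x (r a) : E) = ∏ a, (t a).2 (x a : E) := by
      intro x
      have := congrArg (fun k : _ →* ℂ => k x) h
      simp only [psi_apply, id] at this
      exact this
    have hsurj : Function.Surjective r := by
      intro s
      by_contra hs
      push Not at hs
      have h1 := h0 (Function.update 1 s 2)
      have h2 : ∏ a, (t' a).2 ((Function.update (1 : Two n → NumberField.RingOfIntegers E) s 2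
          (r a) : NumberField.RingOfIntegers E) : E) = 1 := by
        apply Finset.prod_eq_one
        intro a _
        rw [Function.update_of_ne (hs a)]
        simp
      have h3 : ∏ a, (t a).2 ((Function.update (1 : Two n → NumberField.RingOfIntegers E) s 2
          a : NumberField.RingOfIntegers E) : E) = 2 := by
        rw [Finset.prod_eq_single s]
        · rw [Function.update_self]
          have h4 : ((2 : NumberField.RingOfIntegers E) : E) = 2 :=
            map_ofNat (algebraMap (NumberField.RingOfIntegers E) E) 2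
          rw [h4, map_ofNat]
        · intro a _ ha
          rw [Function.update_of_ne ha]
          simp
        · intro h; exact absurd (Finset.mem_univ _) h
      rw [h2, h3] at h1
      norm_num at h1
    have hbij : Function.Bijective r := Finite.surjective_iff_bijective.1 hsurj
    refine ⟨Equiv.ofBijective r hbij, rfl, fun a => ?_⟩
    change (t' a).2 = (t (r a)).2
    have h4 : ∀ z : NumberField.RingOfIntegers E, (t' a).2 (z : E) = (t (r a)).2 (z : E) := by
      intro z
      have h1 := h0 (Function.update 1 (r a) z)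
      have h2 : ∏ b, (t' b).2 ((Function.update (1 : Two n → NumberField.RingOfIntegers E) (r a) z
          (r b) : NumberField.RingOfIntegers E) : E) = (t' a).2 (z : E) := by
        rw [Finset.prod_eq_single a]
        · rw [Function.update_self]
        · intro b _ hb
          rw [Function.update_of_ne (fun h => hb (hbij.1 h))]
          simp
        · intro h; exact absurd (Finset.mem_univ _) h
      have h3 : ∏ b, (t b).2 ((Function.update (1 : Two n → NumberField.RingOfIntegers E) (r a) z
          b : NumberField.RingOfIntegers E) : E) = (t (r a)).2 (z : E) := by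
        rw [Finset.prod_eq_single (r a)]
        · rw [Function.update_self]
        · intro b _ hb
          rw [Function.update_of_ne hb]
          simp
        · intro h; exact absurd (Finset.mem_univ _) h
      rw [h2, h3] at h1
      exact h1
    apply IsFractionRing.ringHom_ext (A := NumberField.RingOfIntegers E)
    exact h4
  · rintro ⟨π, rfl, h⟩
    refine MonoidHom.ext fun x => ?_
    rw [psi_apply, psi_apply]
    simp only [h, id]
    exact Equiv.prod_comp π (fun b => (t b).2 (x b : E))

section

variable {k : Fin (n + 1) → ℝ} {Γ : Subgroup (SLn n)} {Φ : ι → Set (E →+* ℂ)}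
  {χ : (Fin n → ℂ) → ℝ} {t : Two n → Idx fun _ : ι => E}
  {f : Two n → (E →+* ℂ) → (Fin n → ℂ) → ℂ} {ℓ : Two n → SLn n → E}

open Classical in
/-- the integrals which occur as coefficients -/
def KK (Φ : ι → Set (E →+* ℂ)) (χ : (Fin n → ℂ) → ℝ) (t : Two n → Idx fun _ : ι => E)
    (f : Two n → (E →+* ℂ) → (Fin n → ℂ) → ℂ) (r : Two n → Two n)
    (t' : Two n → Idx fun _ : ι => E) : ℂ :=
  if ∀ a, (t (r a)).1 = (t' a).1 then
    ∫ y : Fin n → ℂ, (χ y : ℂ) *
      Matrix.det (Matrix.of fun a => pull (Φ (t' a).1) (f (r a)) (t' a).2 y)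
  else 0

theorem cls_fx (hΦ : ∀ j, IsCMType (Φ j)) (hχ : IsWt k Γ χ)
    (hf : ∀ s, IsMap k Γ (Φ (t s).1) (f s) (ℓ s)) (x : Two n → NumberField.RingOfIntegers E)
    (t' : Two n → Idx fun _ : ι => E) :
    cls Φ χ (fx (fun s => (t s).1) f (fun s => (x s : E))) t' =
      ∑ r, psi r t' x * KK Φ χ t f r t' := by
  classical
  have h1 := int_det_sum hχ (J := fun _ => Two n)
    (fun a y => pull (Φ (t' a).1) (fx (fun s => (t s).1) f (fun s => (x s : E)) (t' a).1)
      (t' a).2 y)
    (fun a s => if (t s).1 = (t' a).1 then (t' a).2 (x s : E) else 0)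
    (fun a s y => pull (Φ (t' a).1) (f s) (t' a).2 y)
    (fun y hy a => pull_fx (i := fun s => (t s).1) hΦ hf _ _ _ hy) ?_
  · refine h1.trans (Finset.sum_congr rfl fun r _ => ?_)
    unfold KK
    by_cases h : ∀ a, (t (r a)).1 = (t' a).1
    · rw [if_pos h, psi_apply]
      congr 1
      exact Finset.prod_congr rfl fun a _ => if_pos (h a)
    · rw [if_neg h, mul_zero]
      push Not at h
      obtain ⟨a, ha⟩ := h
      rw [Finset.prod_eq_zero (Finset.mem_univ a) (if_neg ha), zero_mul]
  · intro a s hs
    have h : (t s).1 = (t' a).1 := by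
      by_contra h
      exact hs (if_neg h)
    have h2 := hf s
    rw [h] at h2
    exact pull_cont (hΦ _) h2 _

/-- If the integral of `f^* (⋀ₐ dz_(t a))` is not zero, then `ee t` is a combination of the classes
of the maps `∑ x_s f_s`. -/
theorem ee_mem [NumberField E] [Finite ι] (hΦ : ∀ j, IsCMType (Φ j)) (hχ : IsWt k Γ χ)
    (hf : ∀ s, IsMap k Γ (Φ (t s).1) (f s) (ℓ s))
    (hJ : ∫ y : Fin n → ℂ, (χ y : ℂ) *
      Matrix.det (Matrix.of fun a => pull (Φ (t a).1) (f a) (t a).2 y) ≠ 0) :
    ee t ∈ Submodule.span ℂ (Set.range fun x : Two n → NumberField.RingOfIntegers E =>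
      cls Φ χ (fx (fun s => (t s).1) f (fun s => (x s : E)))) := by
  classical
  set J := ∫ y : Fin n → ℂ, (χ y : ℂ) *
      Matrix.det (Matrix.of fun a => pull (Φ (t a).1) (f a) (t a).2 y) with hJdef
  have : Finite (E →+* ℂ) := inferInstance
  have h1 := char_span (psi (E := E) (ι := ι) (n := n)) (KK Φ χ t f) (psi id t)
  have h2 : (fun x : Two n → NumberField.RingOfIntegers E => fun t' =>
      ∑ r, psi r t' x * KK Φ χ t f r t') =
      fun x => cls Φ χ (fx (fun s => (t s).1) f (fun s => (x s : E))) := by
    funext x t'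
    exact (cls_fx hΦ hχ hf x t').symm
  rw [h2] at h1
  have h3 : (fun t' => ∑ r, if psi r t' = psi id t then KK Φ χ t f r t' else 0) = J • ee t := by
    funext t'
    have h4 := Fintype.sum_of_injective (fun π : Equiv.Perm (Two n) => (π : Two n → Two n))
      DFunLike.coe_injective
      (fun π : Equiv.Perm (Two n) =>
        if psi (π : Two n → Two n) t' = psi id t then KK Φ χ t f π t' else 0)
      (fun r => if psi r t' = psi id t then KK Φ χ t f r t' else 0) (by
        intro r hr
        rw [if_neg]
        intro h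
        obtain ⟨π, hπ, -⟩ := (psi_eq_iff r t t').1 h
        exact hr ⟨π, hπ.symm⟩) (fun π => rfl)
    rw [← h4, Pi.smul_apply, smul_eq_mul, ee, Finset.mul_sum]
    refine Finset.sum_congr rfl fun π _ => ?_
    by_cases h : t' = t ∘ π
    · subst h
      have hpsi : psi (π : Two n → Two n) (t ∘ π) = psi id t :=
        (psi_eq_iff _ _ _).2 ⟨π, rfl, fun a => rfl⟩
      rw [if_pos hpsi, if_pos rfl]
      unfold KK
      have hmt : ∀ a : Two n, (t (π a)).1 = ((t ∘ π) a).1 := fun a => rfl
      rw [if_pos hmt, hJdef, mul_comm, ← integral_const_mul]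
      congr 1
      funext y
      have h5 := Matrix.det_permute π (Matrix.of fun a => pull (Φ (t a).1) (f a) (t a).2 y)
      have h6 : (Matrix.of fun a => pull (Φ ((t ∘ π) a).1) (f (π a)) ((t ∘ π) a).2 y) =
          (Matrix.of fun a => pull (Φ (t a).1) (f a) (t a).2 y).submatrix π id := rfl
      rw [h6, h5]
      ring
    · rw [if_neg h, mul_zero]
      by_cases h7 : psi (π : Two n → Two n) t' = psi id t
      · rw [if_pos h7]
        obtain ⟨π', hπ', h8⟩ := (psi_eq_iff _ _ _).1 h7
        have h9 : π = π' := DFunLike.coe_injective hπ'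
        subst h9
        unfold KK
        rw [if_neg]
        intro h10
        apply h
        funext a
        exact Sigma.ext (h10 a).symm (heq_of_eq (h8 a))
      · rw [if_neg h7]
  have h4 : ee t = J⁻¹ • (J • ee t) := by rw [smul_smul, inv_mul_cancel₀ hJ, one_smul]
  rw [h4, ← h3]
  refine Submodule.smul_mem _ _ ?_
  convert h1

end

end

end Pool.Agent.HCM
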