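import Pool.Agent.Lib.HCM.Emb

/-!
# A Galois CM field containing given CM fields (helper51)
-/

open scoped ComplexConjugate Polynomial
open Complex Polynomial

namespace Pool.Agent.HCM

namespace Cmp

variable {p : ℚ[X]} {E : Type} [Field E] [NumberField E] [Normal ℚ E]

/-- the embeddings of the splitting field are conjugate -/
theorem exists_gal (φ₀ φ : E →+* ℂ) :
    ∃ g : E ≃ₐ[ℚ] E, ∀ x, φ x = φ₀ (g x) := by
  let _ : Algebra E ℂ := φ₀.toAlgebra
  have : IsScalarTower ℚ E ℂ := IsScalarTower.of_algebraMap_eq' (Subsingleton.elim _ _)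
  let f : E →ₐ[ℚ] ℂ := φ.toRatAlgHom
  let g : Gal(E/ℚ) := Normal.algHomEquivAut ℚ ℂ E f
  refine ⟨g, fun x => ?_⟩
  have h1 : (Normal.algHomEquivAut ℚ ℂ E).symm g = f := Equiv.symm_apply_apply _ _
  have h2 : φ₀ (g x) = φ x := congrArg (fun k : E →ₐ[ℚ] ℂ => k x) h1
  exact h2.symm

theorem exists_conj (hadj : Algebra.adjoin ℚ (p.rootSet E) = ⊤) (h : ∀ x ∈ p.rootSet E, ∃ q : ℚ[X],
      ∀ φ : E →+* ℂ, conj (φ x) = φ (aeval x q)) :
    ∃ c : E ≃ₐ[ℚ] E,
      ∀ φ : E →+* ℂ, ∀ x, conj (φ x) = φ (c x) := by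
  obtain ⟨φ₀⟩ : Nonempty (E →+* ℂ) := inferInstance
  obtain ⟨c, hc⟩ := exists_gal φ₀ (cj φ₀)
  refine ⟨c, fun φ x => ?_⟩
  obtain ⟨g, hg⟩ := exists_gal φ₀ φ
  have h1 : (c : E →ₐ[ℚ] E).comp
      (g : E →ₐ[ℚ] E) =
      (g : E →ₐ[ℚ] E).comp
      (c : E →ₐ[ℚ] E) := by
    apply AlgHom.ext_of_adjoin_eq_top hadj
    intro x hx
    obtain ⟨q, hq⟩ := h x hx
    have h2 : c x = aeval x q := by
      apply φ₀.injective
      rw [← hc, cj_apply, hq]
    have h3 : c (g x) = g (aeval x q) := by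
      apply φ₀.injective
      rw [← hc, cj_apply]
      have h4 := hq (φ₀.comp (g : E →+* E))
      exact h4
    change c (g x) = g (c x)
    rw [h2, h3]
  have h2 : c (g x) = g (c x) := congrArg (fun k => k x) h1
  rw [hg, hg, ← h2, ← hc, cj_apply]

theorem exists_data (hadj : Algebra.adjoin ℚ (p.rootSet E) = ⊤) (h : ∀ x ∈ p.rootSet E, ∃ q : ℚ[X],
      ∀ φ : E →+* ℂ, conj (φ x) = φ (aeval x q))
    {s r : E} (hs : s ^ 2 = -1) (hr : r ^ 2 = 2) :
    ∃ (F : Type) (_ : Field F) (_ : NumberField F) (_ : Algebra F E) (D : F)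
      (δ : E) (v₁ : F →+* ℝ) (τ₀ : E →+* ℂ),
      CMData F E D δ v₁ τ₀ := by
  obtain ⟨c, hc⟩ := exists_conj hadj h
  -- the values of `s` and `r`
  have hs2 : ∀ φ : E →+* ℂ, conj (φ s) = -φ s ∧ (φ s).im ≠ 0 := by
    intro φ
    have h1 : φ s ^ 2 = -1 := by rw [← map_pow, hs, map_neg, map_one]
    have h2 : φ s = I ∨ φ s = -I := by
      have : (φ s - I) * (φ s + I) = 0 := by linear_combination h1 + I_sq * (-1)
      rcases mul_eq_zero.1 this with h3 | h3
      · left; linear_combination h3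
      · right; linear_combination h3
    rcases h2 with h2 | h2 <;> rw [h2] <;> simp
  have hr2 : ∀ φ : E →+* ℂ, conj (φ r) = φ r := by
    intro φ
    have h1 : φ r ^ 2 = 2 := by rw [← map_pow, hr, map_ofNat]
    have h2 : φ r = (√2 : ℝ) ∨ φ r = -(√2 : ℝ) := by
      have h4 : ((√2 : ℝ) : ℂ) ^ 2 = 2 := by
        rw [← ofReal_pow, Real.sq_sqrt (by norm_num)]
        norm_num
      have : (φ r - (√2 : ℝ)) * (φ r + (√2 : ℝ)) = 0 := by linear_combination h1 - h4
      rcases mul_eq_zero.1 this with h3 | h3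
      · left; linear_combination h3
      · right; linear_combination h3
    rcases h2 with h2 | h2 <;> rw [h2]
    · exact conj_ofReal _
    · rw [map_neg, conj_ofReal]
  let F := NumberField.maximalRealSubfield E
  have hF : ∀ x : E, x ∈ F ↔ ∀ φ : E →+* ℂ, conj (φ x) = φ x :=
    fun x => Iff.rfl
  obtain ⟨φ₀⟩ : Nonempty (E →+* ℂ) := inferInstance
  obtain ⟨τ₀, hτ⟩ : ∃ τ₀ : E →+* ℂ, 0 < (τ₀ s).im := by
    rcases lt_or_gt_of_ne (hs2 φ₀).2 with h1 | h1
    · exact ⟨cj φ₀, by rw [cj_apply, conj_im]; linarith⟩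
    · exact ⟨φ₀, h1⟩
  have hreal : ∀ τ : E →+* ℂ, ∃ v : F →+* ℝ, ∀ a : F, τ (a : E) = v a := by
    intro τ
    have h1 := NumberField.IsTotallyReal.complexEmbedding_isReal
      (τ.comp (algebraMap F E))
    exact ⟨h1.embedding, fun a => (h1.coe_embedding_apply a).symm⟩
  obtain ⟨v₁, hv₁⟩ := hreal τ₀
  have hs0 : s ≠ 0 := by
    rintro rfl
    norm_num at hs
  refine ⟨F, inferInstance, inferInstance, inferInstance, 1, s, v₁, τ₀, ?_⟩
  refine ⟨inferInstance, ?_, isIntegral_one, ?_, ?_, ?_, ?_, hv₁, hτ⟩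
  · exact ⟨⟩
  · intro v; rw [map_one]; exact one_pos
  · -- a second real place
    by_contra hcon
    push Not at hcon
    have hall : ∀ φ ψ : F →+* ℂ, φ = ψ := by
      intro φ ψ
      have h1 := NumberField.IsTotallyReal.complexEmbedding_isReal φ
      have h2 := NumberField.IsTotallyReal.complexEmbedding_isReal ψ
      ext x
      rw [← h1.coe_embedding_apply, ← h2.coe_embedding_apply, hcon h1.embedding, hcon h2.embedding]
    have hsub : Subsingleton (F →+* ℂ) := ⟨hall⟩
    have hcard := NumberField.Embeddings.card F ℂ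
    have h1 : Fintype.card (F →+* ℂ) ≤ 1 := Fintype.card_le_one_iff_subsingleton.2 hsub
    rw [hcard] at h1
    have h2 : Module.finrank ℚ F = 1 := le_antisymm h1 Module.finrank_pos
    have hrF : r ∈ F := (hF r).2 hr2
    obtain ⟨q, hq⟩ := (finrank_eq_one_iff_of_nonzero' (1 : F) one_ne_zero).1 h2 ⟨r, hrF⟩
    have h3 : (q : E) = r := by
      have h4 := congrArg (fun z : F => (z : E)) hq
      have h5 : ((q • (1 : F) : F) : E) = (q : E) := by
        rw [Algebra.smul_def, mul_one]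
        rfl
      rw [← h5]
      exact h4
    have h4 : q ^ 2 = 2 := by
      have h5 : ((q ^ 2 : ℚ) : E) = ((2 : ℚ) : E) := by
        push_cast
        rw [h3, hr]
      exact_mod_cast h5
    have h5 : Irrational (√2) := irrational_sqrt_two
    have h7 : (q : ℝ) ^ 2 = 2 := by exact_mod_cast h4
    have h6 : √2 = |(q : ℝ)| := by rw [← Real.sqrt_sq_eq_abs, h7]
    exact h5 ⟨|q|, by push_cast; exact h6.symm⟩
  · rw [hs, map_one]
  · intro x
    have ha : (x + c x) / 2 ∈ F := by
      rw [hF]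
      intro φ
      have h1 : conj (φ (c x)) = φ x := by rw [← hc, conj_conj]
      rw [map_div₀, map_div₀, map_add, map_add, hc, h1, map_ofNat, map_ofNat, add_comm]
    have hb : (x - c x) / (2 * s) ∈ F := by
      rw [hF]
      intro φ
      have h1 : conj (φ (c x)) = φ x := by rw [← hc, conj_conj]
      have h2 : φ s ≠ 0 := fun h => hs0 (φ.injective (h.trans (map_zero φ).symm))
      rw [map_div₀, map_div₀, map_sub, map_sub, map_mul, map_mul, (hs2 φ).1, hc, h1, map_ofNat,
        map_ofNat]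
      field_simp
      ring
    refine ⟨⟨_, ha⟩, ⟨_, hb⟩, ?_⟩
    change x = (x + c x) / 2 + (x - c x) / (2 * s) * s
    field_simp
    ring

/-- a splitting field -/
theorem exists_split (p : ℚ[X]) : ∃ (E : Type) (_ : Field E) (_ : NumberField E), Normal ℚ E ∧
    Algebra.adjoin ℚ (p.rootSet E) = ⊤ ∧ (p.map (algebraMap ℚ E)).Splits := by
  have i1 : FiniteDimensional ℚ p.SplittingField := inferInstance
  have i2 : @FiniteDimensional ℚ p.SplittingField _ _
    (@Algebra.toModule _ _ _ _ DivisionRing.toRatAlgebra) := i1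
  have i3 : NumberField p.SplittingField := { to_charZero := inferInstance, to_finiteDimensional := i2 }
  have i4 : @IsSplittingField ℚ p.SplittingField _ _ (DivisionRing.toRatAlgebra) p :=
    IsSplittingField.splittingField p
  exact ⟨p.SplittingField, inferInstance, i3, Normal.of_isSplittingField p,
    IsSplittingField.adjoin_rootSet p.SplittingField p, IsSplittingField.splits p.SplittingField p⟩

end Cmp

/-- finitely many CM fields embed into a Galois CM field with maximal real subfield of degree at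
least two -/
theorem exists_cm {ι : Type} [Finite ι] (K : ι → Type) [∀ i, Field (K i)] [∀ i, NumberField (K i)]
    [∀ i, NumberField.IsCMField (K i)] :
    ∃ (F E : Type) (_ : Field F) (_ : NumberField F) (_ : Field E) (_ : NumberField E)
      (_ : Algebra F E) (D : F) (δ : E) (v₁ : F →+* ℝ) (τ₀ : E →+* ℂ),
      CMData F E D δ v₁ τ₀ ∧ ∀ i, Nonempty (K i →+* E) := by
  classical
  have := Fintype.ofFinite ι
  let pb : ∀ i, PowerBasis ℚ (K i) := fun i => Field.powerBasisOfFiniteOfSeparable ℚ (K i)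
  let m : ι → ℚ[X] := fun i => minpoly ℚ (pb i).gen
  have hm : ∀ i, m i ≠ 0 := fun i => minpoly.ne_zero (Algebra.IsIntegral.isIntegral _)
  have h1 : (X ^ 2 + 1 : ℚ[X]) ≠ 0 := (monic_X_pow_add_C (1 : ℚ) two_ne_zero).ne_zero
  have e2 : (X ^ 2 - 2 : ℚ[X]) = X ^ 2 - C 2 := by
    rw [show (C (2 : ℚ) : ℚ[X]) = 2 from map_ofNat C 2]
  have h2 : (X ^ 2 - 2 : ℚ[X]) ≠ 0 := by
    rw [e2]
    exact (monic_X_pow_sub_C (2 : ℚ) two_ne_zero).ne_zero
  let p : ℚ[X] := (∏ i, m i) * ((X ^ 2 + 1) * (X ^ 2 - 2))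
  have hp : p ≠ 0 := mul_ne_zero (Finset.prod_ne_zero_iff.2 fun i _ => hm i) (mul_ne_zero h1 h2)
  obtain ⟨E, _, _, hN, hadj, hspl⟩ := Cmp.exists_split p
  have hpE : p.map (algebraMap ℚ E) ≠ 0 := Polynomial.map_ne_zero hp
  have hroot : ∀ q : ℚ[X], q ∣ p → q.degree ≠ 0 → ∃ x : E, aeval x q = 0 := by
    intro q hq hd
    have h3 : (q.map (algebraMap ℚ E)).Splits :=
      hspl.of_dvd hpE (Polynomial.map_dvd _ hq)
    obtain ⟨x, hx⟩ := h3.exists_eval_eq_zero (by rwa [Polynomial.degree_map])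
    exact ⟨x, by rwa [Polynomial.aeval_def, ← Polynomial.eval_map]⟩
  have hmp : ∀ i, m i ∣ p := fun i =>
    (Finset.dvd_prod_of_mem _ (Finset.mem_univ i)).trans (dvd_mul_right _ _)
  have hemb : ∀ i, Nonempty (K i →+* E) := by
    intro i
    obtain ⟨x, hx⟩ := hroot (m i) (hmp i) (by
      have := minpoly.degree_pos (A := ℚ) (Algebra.IsIntegral.isIntegral (R := ℚ) (pb i).gen)
      exact this.ne')
    exact ⟨((pb i).lift x hx : K i →ₐ[ℚ] E)⟩
  obtain ⟨s, hs⟩ := hroot (X ^ 2 + 1) ((dvd_mul_right _ _).trans (dvd_mul_left _ _)) (by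
    have : (X ^ 2 + 1 : ℚ[X]) = X ^ 2 + C 1 := by simp
    rw [this, degree_X_pow_add_C two_pos]
    norm_num)
  obtain ⟨r, hr⟩ := hroot (X ^ 2 - 2) ((dvd_mul_left _ _).trans (dvd_mul_left _ _)) (by
    rw [e2, degree_X_pow_sub_C two_pos]
    norm_num)
  have hs' : s ^ 2 = -1 := by
    have : s ^ 2 + 1 = 0 := by simpa using hs
    linear_combination this
  have hr' : r ^ 2 = 2 := by
    have : r ^ 2 - 2 = 0 := by
      rw [map_sub, map_pow, aeval_X, map_ofNat] at hr
      exact hr
    linear_combination this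
  have hq : ∀ x ∈ p.rootSet E, ∃ q : ℚ[X], ∀ φ : E →+* ℂ, conj (φ x) = φ (aeval x q) := by
    intro x hx
    have hx0 : aeval x p = 0 := (Polynomial.mem_rootSet.1 hx).2
    have hx1 : (∏ i, aeval x (m i)) * ((x ^ 2 + 1) * (x ^ 2 - 2)) = 0 := by
      rw [← hx0]
      simp only [p, map_mul, map_prod, map_add, map_sub, map_pow, aeval_X, map_one, map_ofNat]
    rcases mul_eq_zero.1 hx1 with h3 | h3
    · obtain ⟨i, -, hi⟩ := Finset.prod_eq_zero_iff.1 h3
      let j : K i →ₐ[ℚ] E := (pb i).lift x hi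
      have hj : j (pb i).gen = x := (pb i).lift_gen x hi
      obtain ⟨q, hq⟩ := (pb i).exists_eq_aeval' (NumberField.IsCMField.complexConj (K i) (pb i).gen)
      refine ⟨q, fun φ => ?_⟩
      have h4 := NumberField.IsCMField.complexEmbedding_complexConj (K i)
        (φ.comp (j : K i →+* E)) (pb i).gen
      have h5 : (φ.comp (j : K i →+* E)) (pb i).gen = φ x := by
        change φ (j (pb i).gen) = φ x
        rw [hj]
      rw [h5] at h4
      rw [← h4]
      change φ (j _) = _
      rw [hq, ← Polynomial.aeval_algHom_apply, hj]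
    · rcases mul_eq_zero.1 h3 with h3 | h3
      · refine ⟨-X, fun φ => ?_⟩
        have h4 : φ x ^ 2 + 1 = 0 := by rw [← map_pow, ← map_one φ, ← map_add, h3, map_zero]
        have h5 : φ x = I ∨ φ x = -I := by
          have : (φ x - I) * (φ x + I) = 0 := by linear_combination h4 + I_sq * (-1)
          rcases mul_eq_zero.1 this with h3 | h3
          · left; linear_combination h3
          · right; linear_combination h3
        rw [map_neg, aeval_X, map_neg]
        rcases h5 with h5 | h5 <;> rw [h5] <;> simp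
      · refine ⟨X, fun φ => ?_⟩
        have h4 : φ x ^ 2 = 2 := by
          rw [← map_pow, ← map_ofNat φ 2]
          congr 1
          linear_combination h3
        have h5 : φ x = (√2 : ℝ) ∨ φ x = -(√2 : ℝ) := by
          have h6 : ((√2 : ℝ) : ℂ) ^ 2 = 2 := by
            rw [← ofReal_pow, Real.sq_sqrt (by norm_num)]
            norm_num
          have : (φ x - (√2 : ℝ)) * (φ x + (√2 : ℝ)) = 0 := by linear_combination h4 - h6
          rcases mul_eq_zero.1 this with h3 | h3
          · left; linear_combination h3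
          · right; linear_combination h3
        rw [aeval_X]
        rcases h5 with h5 | h5 <;> rw [h5]
        · exact conj_ofReal _
        · rw [map_neg, conj_ofReal]
  obtain ⟨F, i1, i2, i3, D, δ, v₁, τ₀, H⟩ := Cmp.exists_data hadj hq hs' hr'
  exact ⟨F, E, i1, i2, inferInstance, inferInstance, i3, D, δ, v₁, τ₀, H, hemb⟩

end Pool.Agent.HCM
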