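import Pool.Agent.Lib.HCM.Mp

/-!
# From `∏ i, K i` to `E`, and back by the trace (helper51)
-/

open scoped ComplexConjugate Matrix
open Complex MeasureTheory Pool.Agent.CMN

namespace Pool.Agent.HCM

noncomputable section

section lifts

variable {K E : Type} [Field K] [NumberField K] [Field E] [NumberField E] (j : K →+* E)

/-- the lifts of an embedding of `K` to `E` -/
abbrev Lift (τ : K →+* ℂ) : Type := {σ : E →+* ℂ // σ.comp j = τ}

instance (τ : K →+* ℂ) : Finite (Lift j τ) := inferInstance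

/-- `[E : K]` -/
def dg : ℕ := @Module.finrank K E _ _ j.toAlgebra.toModule

/-- the lifts are the `K`-embeddings -/
theorem exists_lift_equiv (τ : K →+* ℂ) :
    ∃ e : (@AlgHom K E ℂ _ _ _ j.toAlgebra τ.toAlgebra) ≃ Lift j τ, ∀ σ x, (e σ).1 x = σ x := by
  let _ : Algebra K E := j.toAlgebra
  let _ : Algebra K ℂ := τ.toAlgebra
  refine ⟨⟨fun σ => ⟨(σ : E →+* ℂ), ?_⟩, fun σ => ⟨σ.1, ?_⟩, ?_, ?_⟩, ?_⟩
  · ext x
    exact σ.commutes x
  · intro x
    exact congrArg (fun k : K →+* ℂ => k x) σ.2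
  · intro σ
    rfl
  · intro σ
    rfl
  · intro σ x
    rfl

theorem card_lift (τ : K →+* ℂ) : Nat.card (Lift j τ) = dg j := by
  let _ : Algebra K E := j.toAlgebra
  let _ : Algebra K ℂ := τ.toAlgebra
  have : IsScalarTower ℚ K E := IsScalarTower.of_algebraMap_eq' (Subsingleton.elim _ _)
  have : FiniteDimensional K E := FiniteDimensional.right ℚ K E
  have : Algebra.IsSeparable K E := Algebra.IsAlgebraic.isSeparable_of_perfectField
  obtain ⟨e, -⟩ := exists_lift_equiv j τ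
  rw [← Nat.card_congr e, Nat.card_eq_fintype_card, AlgHom.card]
  rfl

theorem dg_pos : 0 < dg j := by
  let _ : Algebra K E := j.toAlgebra
  have : IsScalarTower ℚ K E := IsScalarTower.of_algebraMap_eq' (Subsingleton.elim _ _)
  have : FiniteDimensional K E := FiniteDimensional.right ℚ K E
  exact Module.finrank_pos (R := K) (M := E)

/-- the trace `E → K` -/
def tr (x : E) : K := @Algebra.trace K E _ _ j.toAlgebra x

theorem tr_int {x : E} (hx : IsIntegral ℤ x) : IsIntegral ℤ (tr j x) := by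
  let _ : Algebra K E := j.toAlgebra
  have : IsScalarTower ℚ K E := IsScalarTower.of_algebraMap_eq' (Subsingleton.elim _ _)
  have : FiniteDimensional K E := FiniteDimensional.right ℚ K E
  exact Algebra.isIntegral_trace hx

theorem tr_sum (τ : K →+* ℂ) [Fintype (Lift j τ)] (x : E) :
    τ (tr j x) = ∑ σ : Lift j τ, σ.1 x := by
  let _ : Algebra K E := j.toAlgebra
  let _ : Algebra K ℂ := τ.toAlgebra
  have : IsScalarTower ℚ K E := IsScalarTower.of_algebraMap_eq' (Subsingleton.elim _ _)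
  have : FiniteDimensional K E := FiniteDimensional.right ℚ K E
  have : Algebra.IsSeparable K E := Algebra.IsAlgebraic.isSeparable_of_perfectField
  obtain ⟨e, he⟩ := exists_lift_equiv j τ
  have h1 := trace_eq_sum_embeddings (K := K) (L := E) ℂ (x := x)
  have h2 : τ (tr j x) = algebraMap K ℂ (Algebra.trace K E x) := rfl
  rw [h2, h1]
  exact Fintype.sum_equiv e _ _ fun σ => (he σ x).symm

end lifts

section main

variable {ι : Type} {K : ι → Type} [∀ i, Field (K i)] [∀ i, NumberField (K i)]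
  {E : Type} [Field E] [NumberField E] (j : ∀ i, K i →+* E) {n : ℕ}

instance liftFintype {K E : Type} [Field K] [NumberField K] [Field E] [NumberField E] (j : K →+* E)
    (τ : K →+* ℂ) : Fintype (Lift j τ) := Fintype.ofFinite _

/-- the CM type of `E` above `Φ i` -/
def up (Φ : ∀ i, Set (K i →+* ℂ)) (i : ι) : Set (E →+* ℂ) := {σ | σ.comp (j i) ∈ Φ i}

omit [∀ i, NumberField (K i)] [NumberField E] in
theorem up_cm {Φ : ∀ i, Set (K i →+* ℂ)} (hΦ : ∀ i, IsCMType (Φ i)) (i : ι) :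
    IsCMType (up j Φ i) := fun σ => hΦ i (σ.comp (j i))

/-- restriction of indices -/
def res (s : Two n → Idx fun _ : ι => E) : Two n → Idx K :=
  fun a => ⟨(s a).1, (s a).2.comp (j (s a).1)⟩

/-- a class on `∏ i, K i`, moved to `E` -/
def lft (u : (Two n → Idx K) → ℂ) (s : Two n → Idx fun _ : ι => E) : ℂ :=
  (∏ a, (dg (j (s a).1) : ℂ)⁻¹) * u (res j s)

theorem lft_mem {u : (Two n → Idx K) → ℂ} (hu : u ∈ HQ K n) :
    lft j u ∈ HQ (fun _ : ι => E) n := by
  induction hu using Submodule.span_induction with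
  | mem u hu =>
    obtain ⟨x, rfl⟩ := hu
    have e : lft j (torusClass x) =
        torusClass (fun b i => (dg (j i) : E)⁻¹ * j i (x b i)) := by
      funext s
      unfold lft torusClass
      rw [← Matrix.det_mul_column]
      congr 1
      ext a b
      change (dg (j (s a).1) : ℂ)⁻¹ * (s a).2 (j (s a).1 (x b (s a).1)) =
        (s a).2 ((dg (j (s a).1) : E)⁻¹ * j (s a).1 (x b (s a).1))
      rw [map_mul, map_inv₀, map_natCast]
    rw [e]
    exact Submodule.subset_span ⟨_, rfl⟩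
  | zero =>
    have e : lft j (0 : (Two n → Idx K) → ℂ) = 0 := by
      funext s
      simp [lft]
    rw [e]
    exact Submodule.zero_mem _
  | add u v _ _ hu hv =>
    have e : lft j (u + v) = lft j u + lft j v := by
      funext s
      simp only [lft, Pi.add_apply]
      ring
    rw [e]
    exact Submodule.add_mem _ hu hv
  | smul q u _ hu =>
    have e : lft j (q • u) = q • lft j u := by
      funext s
      simp only [lft, Pi.smul_apply, Rat.smul_def]
      ring
    rw [e]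
    exact Submodule.smul_mem _ _ hu

omit [∀ i, NumberField (K i)] [NumberField E] in
theorem lft_hodge {Φ : ∀ i, Set (K i →+* ℂ)} {u : (Two n → Idx K) → ℂ} (hu : IsHodge Φ u) :
    IsHodge (up j Φ) (lft j u) := by
  intro s hs
  have h : u (res j s) = 0 := hu _ hs
  rw [lft, h, mul_zero]

/-- push-forward under the trace map -/
def TT : ((Two n → Idx fun _ : ι => E) → ℂ) →ₗ[ℂ] ((Two n → Idx K) → ℂ) where
  toFun w t := ∑ r : ∀ a, Lift (j (t a).1) (t a).2, w (fun a => ⟨(t a).1, (r a).1⟩)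
  map_add' w w' := by
    funext t
    simp only [Pi.add_apply]
    exact Finset.sum_add_distrib
  map_smul' q w := by
    funext t
    simp only [Pi.smul_apply, RingHom.id_apply, smul_eq_mul]
    exact (Finset.mul_sum _ _ _).symm

theorem TT_lft (u : (Two n → Idx K) → ℂ) : TT j (lft j u) = u := by
  funext t
  have h1 : ∀ r : ∀ a, Lift (j (t a).1) (t a).2,
      lft j u (fun a => ⟨(t a).1, (r a).1⟩) = (∏ a, (dg (j (t a).1) : ℂ)⁻¹) * u t := by
    intro r
    unfold lft
    congr 2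
    funext a
    exact Sigma.ext rfl (heq_of_eq (r a).2)
  change ∑ r : ∀ a, Lift (j (t a).1) (t a).2, lft j u (fun a => ⟨(t a).1, (r a).1⟩) = u t
  simp only [h1]
  rw [Finset.sum_const, Finset.card_univ, Fintype.card_pi, nsmul_eq_mul, ← mul_assoc,
    Nat.cast_prod, ← Finset.prod_mul_distrib]
  have h2 : ∀ a, ((Fintype.card (Lift (j (t a).1) (t a).2) : ℕ) : ℂ) *
      (dg (j (t a).1) : ℂ)⁻¹ = 1 := by
    intro a
    rw [← Nat.card_eq_fintype_card, card_lift]
    exact mul_inv_cancel₀ (by exact_mod_cast (dg_pos _).ne')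
  simp only [h2, Finset.prod_const_one, one_mul]

section maps

variable {K E : Type} [Field K] [NumberField K] [Field E] [NumberField E] (j : K →+* E) {n : ℕ}
  {k : Fin (n + 1) → ℝ} {Γ : Subgroup (SLn n)} {Φ : Set (K →+* ℂ)}
  {f : (E →+* ℂ) → (Fin n → ℂ) → ℂ} {ℓ : SLn n → E}

/-- the sum over the lifts -/
def sumLift (f : (E →+* ℂ) → (Fin n → ℂ) → ℂ) (τ : K →+* ℂ) (y : Fin n → ℂ) : ℂ :=
  ∑ σ : Lift j τ, f σ.1 y

theorem isMap_sumLift (hf : IsMap k Γ {σ : E →+* ℂ | σ.comp j ∈ Φ} f ℓ) :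
    IsMap k Γ Φ (sumLift j f) (fun γ => tr j (ℓ γ)) := by
  have hmem : ∀ τ ∈ Φ, ∀ σ : Lift j τ, σ.1 ∈ {σ : E →+* ℂ | σ.comp j ∈ Φ} := by
    intro τ hτ σ
    change σ.1.comp j ∈ Φ
    rw [σ.2]
    exact hτ
  refine ⟨fun γ hγ => tr_int j (hf.int γ hγ), ?_, ?_⟩
  · intro τ hτ
    exact DifferentiableOn.fun_sum fun σ _ => hf.hol σ.1 (hmem τ hτ σ)
  · intro τ hτ γ hγ y hy
    unfold sumLift
    rw [tr_sum, ← Finset.sum_add_distrib]
    exact Finset.sum_congr rfl fun σ _ => hf.per σ.1 (hmem τ hτ σ) γ hγ y hy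

theorem pull_sumLift (hΦ : IsCMType Φ) (hf : IsMap k Γ {σ : E →+* ℂ | σ.comp j ∈ Φ} f ℓ)
    (τ : K →+* ℂ) {y : Fin n → ℂ} (hy : y ∈ ball k) :
    pull Φ (sumLift j f) τ y =
      ∑ σ : Lift j τ, (1 : ℂ) • pull {σ : E →+* ℂ | σ.comp j ∈ Φ} f σ.1 y := by
  have hmem : ∀ τ ∈ Φ, ∀ σ : Lift j τ, σ.1 ∈ {σ : E →+* ℂ | σ.comp j ∈ Φ} := by
    intro τ hτ σ
    change σ.1.comp j ∈ Φ
    rw [σ.2]
    exact hτ
  have hd : ∀ τ ∈ Φ, ∀ v : Fin n → ℂ, fderiv ℂ (sumLift j f τ) y v =
      ∑ σ : Lift j τ, fderiv ℂ (f σ.1) y v := by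
    intro τ hτ v
    have h1 : HasFDerivAt (sumLift j f τ) (∑ σ : Lift j τ, fderiv ℂ (f σ.1) y) y :=
      HasFDerivAt.fun_sum fun σ _ =>
        ((hf.hol σ.1 (hmem τ hτ σ)).differentiableAt ((isOpen_ball' k).mem_nhds hy)).hasFDerivAt
    rw [h1.fderiv, sum_apply]
  simp only [one_smul]
  by_cases hτ : τ ∈ Φ
  · have e : ∀ σ : Lift j τ, pull {σ : E →+* ℂ | σ.comp j ∈ Φ} f σ.1 y =
        Sum.elim (fun a => fderiv ℂ (f σ.1) y (Pi.single a 1)) (0 : Fin n → ℂ) :=
      fun σ => if_pos (hmem τ hτ σ)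
    simp only [e]
    simp only [pull, if_pos hτ]
    funext a
    rw [Finset.sum_apply]
    rcases a with a | a
    · exact hd τ hτ _
    · change (0 : ℂ) = ∑ σ : Lift j τ, 0
      simp
  · have hτ' : cj τ ∈ Φ := (hΦ τ).2 hτ
    have e : ∀ σ : Lift j τ, pull {σ : E →+* ℂ | σ.comp j ∈ Φ} f σ.1 y =
        Sum.elim (0 : Fin n → ℂ) (fun a => conj (fderiv ℂ (f (cj σ.1)) y (Pi.single a 1))) := by
      intro σ
      refine if_neg ?_
      change ¬ σ.1.comp j ∈ Φ
      rw [σ.2]
      exact hτ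
    simp only [e]
    simp only [pull, if_neg hτ]
    funext a
    rw [Finset.sum_apply]
    rcases a with a | a
    · change (0 : ℂ) = ∑ σ : Lift j τ, 0
      simp
    · change conj (fderiv ℂ (sumLift j f (cj τ)) y (Pi.single a 1)) =
        ∑ σ : Lift j τ, conj (fderiv ℂ (f (cj σ.1)) y (Pi.single a 1))
      rw [hd _ hτ', map_sum]
      refine (Fintype.sum_equiv (⟨fun σ => ⟨cj σ.1, ?_⟩, fun σ => ⟨cj σ.1, ?_⟩, ?_, ?_⟩ :
        Lift j τ ≃ Lift j (cj τ)) _ _ fun σ => rfl).symm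
      · have := congrArg (fun k : K →+* ℂ => cj k) σ.2
        exact this
      · have := congrArg (fun k : K →+* ℂ => cj k) σ.2
        rw [cj_cj] at this
        exact this
      · intro σ
        exact Subtype.ext (cj_cj σ.1)
      · intro σ
        exact Subtype.ext (cj_cj σ.1)

end maps

/-- DOWN: if all Hodge classes of the products of `E`-tori are classes of ball quotients, then so
are those of `A`. -/
theorem down {Φ : ∀ i, Set (K i →+* ℂ)} (hΦ : ∀ i, IsCMType (Φ i))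
    (hE : ∀ u ∈ HQ (fun _ : ι => E) n, IsHodge (up j Φ) u →
      u ∈ Submodule.span ℂ (BallCl (n := n) (K := fun _ : ι => E) (up j Φ)))
    {u : (Two n → Idx K) → ℂ} (hu : u ∈ HQ K n) (hH : IsHodge Φ u) :
    u ∈ Submodule.span ℂ (BallCl Φ) := by
  classical
  have h1 := hE _ (lft_mem j hu) (lft_hodge j hH)
  have h2 : Submodule.span ℂ (BallCl (n := n) (K := fun _ : ι => E) (up j Φ)) ≤
      (Submodule.span ℂ (BallCl Φ)).comap (TT j) := by
    rw [Submodule.span_le]
    rintro _ ⟨F, hF1, hF2, v₁, D, h, Γ, χ, f, ℓ, hR, hD, hD', hs, hA, hC, hχ, hf, rfl⟩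
    refine Submodule.subset_span ⟨F, hF1, hF2, v₁, D, h, Γ, χ, fun i => sumLift (j i) (f i),
      fun i γ => tr (j i) (ℓ i γ), hR, hD, hD', hs, hA, hC, hχ,
      fun i => isMap_sumLift (j i) (hf i), ?_⟩
    funext t
    refine Eq.symm ?_
    refine (int_det_sum hχ (J := fun a => Lift (j (t a).1) (t a).2)
      (fun a y => pull (Φ (t a).1) (sumLift (j (t a).1) (f (t a).1)) (t a).2 y)
      (fun a σ => 1) (fun a σ y => pull (up j Φ (t a).1) (f (t a).1) σ.1 y)
      (fun y hy a => pull_sumLift (j (t a).1) (hΦ _) (hf _) _ hy)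
      (fun a σ _ => pull_cont (up_cm j hΦ _) (hf _) _)).trans ?_
    refine Finset.sum_congr rfl fun r _ => ?_
    rw [Finset.prod_const_one, one_mul]
    rfl
  have h3 := h2 h1
  rw [Submodule.mem_comap, TT_lft] at h3
  exact h3

end main

end

end Pool.Agent.HCM
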