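import Pool.Agent.Lib.HCM.Hodge
import Pool.Agent.Lib.HCM.Down

/-!
# The Hodge conjecture for abelian varieties of CM type (helper51)
-/

open Pool.Agent.CMN

namespace Pool.Agent.HCM

/-- The Hodge conjecture for abelian varieties of CM type, from the integrals of products of theta
one-forms (`QUOT`) and the CM type of theta one-forms (`P2`). -/
theorem hodge (hS : QUOT) (p2 : P2) : HODGE := by
  intro n ι _ K _ _ _ Φ hn hΦ u hu hH
  obtain ⟨F, E, _, _, _, _, _, D, δ, v₁, τ₀, H, hj⟩ := exists_cm K
  let j : ∀ i, K i →+* E := fun i => (hj i).some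
  exact down j hΦ (fun w hw hw' => hodgeE hS p2 H (up_cm j hΦ) hn hw hw') hu hH

end Pool.Agent.HCM
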