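import Pool.Agent.Lib.HCM.Stat

/-!
# The generalized Hodge conjecture for abelian varieties of CM type: statement (helper60)

`A = ∏ i, ℂ^(Φ i) / Φ i (𝓞 (K i))` as in `Pool.Agent.Lib.HCM.Stat`.  A class in `H_m(A, ℂ)` is given
by its pairings with the forms `dz_(t 1) ∧ … ∧ dz_(t m)`, that is by a function of `t`.
-/

set_option autoImplicit false

open scoped ComplexConjugate Matrix
open Complex Pool.Agent.CMN

namespace Pool.Agent.HCM

noncomputable section

section gen

variable {ι : Type} {K : ι → Type} [∀ i, Field (K i)] {T : Type} [Fintype T] [DecidableEq T]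

/-- The homology class of the real torus spanned by the loops `x b`, `b : T`. -/
def torusT (x : T → ∀ i, K i) (t : T → Idx K) : ℂ :=
  Matrix.det (Matrix.of fun a b => (t a).2 (x b (t a).1))

variable (K T) in
/-- `H_m(A, ℚ)`, `m` the number of elements of `T`. -/
def HT : Submodule ℚ ((T → Idx K) → ℂ) := Submodule.span ℚ (Set.range torusT)

end gen

section prod

/-- The fields of `A × B`, where `B` is a product of tori of the same field `E`. -/
def KS {ι : Type} (K : ι → Type) (E ι' : Type) : ι ⊕ ι' → Type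
  | Sum.inl i => K i
  | Sum.inr _ => E

variable {ι : Type} {K : ι → Type} {E ι' : Type}

instance fieldKS [h : ∀ i, Field (K i)] [h' : Field E] : ∀ c, Field (KS K E ι' c)
  | Sum.inl i => h i
  | Sum.inr _ => h'

instance numKS [∀ i, Field (K i)] [Field E] [h : ∀ i, NumberField (K i)] [h' : NumberField E] :
    ∀ c, NumberField (KS K E ι' c)
  | Sum.inl i => h i
  | Sum.inr _ => h'

instance cmKS [∀ i, Field (K i)] [Field E] [∀ i, NumberField (K i)] [NumberField E]
    [h : ∀ i, NumberField.IsCMField (K i)] [h' : NumberField.IsCMField E] :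
    ∀ c, NumberField.IsCMField (KS K E ι' c)
  | Sum.inl i => h i
  | Sum.inr _ => h'

variable [∀ i, Field (K i)] [Field E]

/-- The CM types of `A × B`. -/
def PS (Φ : ∀ i, Set (K i →+* ℂ)) (Ψ : ι' → Set (E →+* ℂ)) : ∀ c, Set (KS K E ι' c →+* ℂ)
  | Sum.inl i => Φ i
  | Sum.inr b => Ψ b

/-- A constant form on `A`, as a form on `A × B`. -/
def onA (q : Idx K) : Idx (KS K E ι') := ⟨Sum.inl q.1, q.2⟩

/-- A constant form on `B`, as a form on `A × B`. -/
def onB (q : Idx fun _ : ι' => E) : Idx (KS K E ι') := ⟨Sum.inr q.1, q.2⟩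

/-- Forms on `A` and forms on `B`. -/
def glue {T L : Type} (t : T → Idx K) (s : L → Idx fun _ : ι' => E) :
    T ⊕ L → Idx (KS K E ι') := Sum.elim (fun a => onA (t a)) (fun b => onB (s b))

/-- The `l`-form `∑ β(s) dz_(s 1) ⊗ … ⊗ dz_(s l)` on `B` takes rational values on all families
`y 1, …, y l` of loops. -/
def IsRat [NumberField E] [Fintype ι'] {l : ℕ} (β : (Fin l → Idx fun _ : ι' => E) → ℂ) : Prop :=
  ∀ y : Fin l → ι' → E, ∃ q : ℚ, ∑ s, β s * ∏ b, (s b).2 (y b (s b).1) = q

end prod

/-- `u` is of coniveau `k` in degree `2k + l`: its pairing with all constant forms which are not of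
type `(p, q)` with `k ≤ p, q` vanishes. -/
def IsConiv {ι : Type} {K : ι → Type} [∀ i, Field (K i)] (Φ : ∀ i, Set (K i →+* ℂ)) (k l : ℕ)
    (u : (Fin (2 * k + l) → Idx K) → ℂ) : Prop :=
  ∀ t, ¬ (k ≤ {a | (t a).2 ∈ Φ (t a).1}.ncard ∧ {a | (t a).2 ∈ Φ (t a).1}.ncard ≤ k + l) → u t = 0

/-- **The generalized Hodge conjecture for abelian varieties of CM type**: let `u` be a rational
homology class of degree `2k + l` and of coniveau `k` on `A`, `k + l ≥ 1`. There are an abelian
variety `B` of CM type, a rational class `γ` of degree `2 (k + l)` on `A × B`, which is a linear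
combination of classes of holomorphic maps from compact arithmetic quotients of the `(k + l)`-ball,
and a rational `l`-form `β` on `B`, such that `u` is the contraction of `γ` with `β`. So `u` comes
from an algebraic subset of `A` of dimension `k + l`. -/
def GHODGE : Prop :=
  ∀ (k l : ℕ) (ι : Type) [Finite ι] (K : ι → Type) [∀ i, Field (K i)] [∀ i, NumberField (K i)]
    [∀ i, NumberField.IsCMField (K i)] (Φ : ∀ i, Set (K i →+* ℂ)), 0 < k + l →
    (∀ i, IsCMType (Φ i)) → ∀ u ∈ HT K (Fin (2 * k + l)), IsConiv Φ k l u →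
    ∃ (E : Type) (_ : Field E) (_ : NumberField E) (_ : NumberField.IsCMField E) (ι' : Type)
      (_ : Fintype ι') (Ψ : ι' → Set (E →+* ℂ)) (e : Two (k + l) ≃ Fin (2 * k + l) ⊕ Fin l)
      (γ : (Two (k + l) → Idx (KS K E ι')) → ℂ) (β : (Fin l → Idx fun _ : ι' => E) → ℂ),
      (∀ b, IsCMType (Ψ b)) ∧ γ ∈ HQ (KS K E ι') (k + l) ∧
      γ ∈ Submodule.span ℂ (BallCl (PS Φ Ψ)) ∧ IsRat β ∧
      ∀ t, u t = ∑ s, β s * γ (glue t s ∘ e)

end

end Pool.Agent.HCM
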