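import Pool.Agent.Lib.HCM.GDual
import Pool.Agent.Lib.HCM.GStat

/-!
# Homology of products of CM tori in all degrees; diagonal classes (helper60)
-/

set_option autoImplicit false

open scoped ComplexConjugate Matrix
open Complex

namespace Pool.Agent.HCM

noncomputable section

section gen

variable {ι : Type} {K : ι → Type} [∀ i, Field (K i)] {T : Type} [Fintype T] [DecidableEq T]

theorem HT_alt {u : (T → Idx K) → ℂ} (hu : u ∈ HT K T) (t : T → Idx K) (π : Equiv.Perm T) :
    u (t ∘ π) = ((Equiv.Perm.sign π : ℤ) : ℂ) * u t := by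
  induction hu using Submodule.span_induction with
  | mem u hu =>
    obtain ⟨x, rfl⟩ := hu
    exact Matrix.det_permute π (Matrix.of fun a b => (t a).2 (x b (t a).1))
  | zero => simp
  | add u v _ _ hu hv => simp only [Pi.add_apply, hu, hv]; ring
  | smul q u _ hu => simp only [Pi.smul_apply, hu, Rat.smul_def]; ring

/-- reindexing -/
theorem HT_reindex {T' : Type} [Fintype T'] [DecidableEq T'] (e : T ≃ T')
    {u : (T → Idx K) → ℂ} (hu : u ∈ HT K T) : (fun t : T' → Idx K => u (t ∘ e)) ∈ HT K T' := by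
  induction hu using Submodule.span_induction with
  | mem u hu =>
    obtain ⟨x, rfl⟩ := hu
    refine Submodule.subset_span ⟨x ∘ e.symm, ?_⟩
    funext t
    unfold torusT
    rw [← Matrix.det_submatrix_equiv_self e]
    congr 1
    ext a b
    simp
  | zero => exact Submodule.zero_mem _
  | add u v _ _ hu hv => exact Submodule.add_mem _ hu hv
  | smul q u _ hu => exact Submodule.smul_mem _ q hu

end gen

section diag

variable {ι : Type} {K : ι → Type} [∀ i, Field (K i)]
  {E : Type} [Field E] [NumberField E] (j : ∀ i, K i →+* E)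
  {T : Type} [Fintype T] [DecidableEq T]

/-- restriction of the character `(c, τ)` to `K c` -/
def rs (c : ι) (τ : E →+* ℂ) : Idx K := ⟨c, τ.comp (j c)⟩

open Classical in
/-- the matrix which compares `t` with the restrictions of the characters `(c b, τ ∘ σ b)` -/
def cmpM (c : T → ι) (σ : T → E ≃+* E) (τ : E →+* ℂ) (t : T → Idx K) : Matrix T T ℂ :=
  Matrix.of fun a b => if t a = rs j (c b) (τ.comp (σ b : E →+* E)) then 1 else 0

/-- the diagonal class -/
def Dg (c : T → ι) (σ : T → E ≃+* E) (lam : E) (t : T → Idx K) : ℂ :=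
  ∑ τ : E →+* ℂ, τ lam * (cmpM j c σ τ t).det

theorem single_entry [∀ i, NumberField (K i)] {d : ℕ} {e e' : Fin d → E}
    (he : ∀ τ τ' : E →+* ℂ,
      ∑ i, τ (e i) * τ' (e' i) = open Classical in if τ = τ' then 1 else 0)
    [DecidableEq ι] (c : ι) (τ' : E →+* ℂ) (q : Idx K) :
    ∑ i, τ' (e' i) * q.2 ((Pi.single c (tr (j c) (e i)) : ∀ c, K c) q.1) =
      open Classical in if q = rs j c τ' then 1 else 0 := by
  classical
  obtain ⟨c', ρ⟩ := q
  by_cases h : c' = c
  · subst h
    simp only [Pi.single_eq_same]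
    have h1 : ∀ i, τ' (e' i) * ρ (tr (j c') (e i)) =
        ∑ σ : Lift (j c') ρ, σ.1 (e i) * τ' (e' i) := by
      intro i
      rw [tr_sum, Finset.mul_sum]
      exact Finset.sum_congr rfl fun _ _ => mul_comm _ _
    simp only [h1]
    rw [Finset.sum_comm]
    simp only [he]
    by_cases h2 : τ'.comp (j c') = ρ
    · rw [if_pos (by rw [rs, h2])]
      rw [Finset.sum_eq_single (⟨τ', h2⟩ : Lift (j c') ρ)]
      · rw [if_pos rfl]
      · intro σ _ hσ
        rw [if_neg]
        intro h3
        exact hσ (Subtype.ext h3)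
      · intro h3
        exact absurd (Finset.mem_univ _) h3
    · rw [if_neg]
      · refine Finset.sum_eq_zero fun σ _ => ?_
        rw [if_neg]
        intro h3
        exact h2 (by rw [← h3]; exact σ.2)
      · intro h3
        apply h2
        have := (Sigma.mk.inj h3).2
        exact (eq_of_heq this).symm
  · have h3 : ∀ i, ρ ((Pi.single c (tr (j c) (e i)) : ∀ c, K c) c') = 0 := by
      intro i
      rw [Pi.single_eq_of_ne h, map_zero]
    simp only [h3, mul_zero, Finset.sum_const_zero]
    rw [if_neg]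
    intro h4
    exact h (Sigma.mk.inj h4).1

theorem Dg_mem [∀ i, NumberField (K i)] (c : T → ι) (σ : T → E ≃+* E) (lam : E) :
    Dg j c σ lam ∈ HT K T := by
  classical
  obtain ⟨d, e, e', he⟩ := exists_dual E
  have h1 : ∀ (τ : E →+* ℂ) (t : T → Idx K), (cmpM j c σ τ t).det =
      ∑ r : T → Fin d, (∏ b, τ (σ b (e' (r b)))) *
        torusT (fun b => (Pi.single (c b) (tr (j (c b)) (e (r b))) : ∀ c, K c)) t := by
    intro τ t
    rw [← Matrix.det_transpose]
    have h2 : (cmpM j c σ τ t)ᵀ = Matrix.of fun b => ∑ i : Fin d, τ (σ b (e' i)) •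
        fun a => (t a).2 ((Pi.single (c b) (tr (j (c b)) (e i)) : ∀ c, K c) (t a).1) := by
      ext b a
      rw [Matrix.transpose_apply, Matrix.of_apply, Finset.sum_apply]
      simp only [Pi.smul_apply, smul_eq_mul]
      rw [cmpM, Matrix.of_apply]
      exact (single_entry j he (c b) (τ.comp (σ b : E →+* E)) (t a)).symm
    rw [h2, det_rows_sum]
    refine Finset.sum_congr rfl fun r _ => ?_
    congr 1
    rw [torusT, ← Matrix.det_transpose]
    rfl
  have key : Dg j c σ lam = ∑ r : T → Fin d,
      (Algebra.trace ℚ E (lam * ∏ b, σ b (e' (r b)))) •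
      torusT (fun b => (Pi.single (c b) (tr (j (c b)) (e (r b))) : ∀ c, K c)) := by
    funext t
    rw [Dg, Finset.sum_apply]
    simp only [h1, Pi.smul_apply, Rat.smul_def]
    simp only [trQ, Finset.mul_sum, Finset.sum_mul]
    rw [Finset.sum_comm]
    refine Finset.sum_congr rfl fun r _ => Finset.sum_congr rfl fun τ _ => ?_
    rw [map_mul, map_prod]
    ring
  rw [key]
  exact Submodule.sum_mem _ fun r _ => Submodule.smul_mem _ _ (Submodule.subset_span ⟨_, rfl⟩)

omit [NumberField E] in
/-- the determinant of the comparison matrix -/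
theorem cmpM_det (c : T → ι) (σ : T → E ≃+* E) (τ : E →+* ℂ) (t : T → Idx K) :
    (cmpM j c σ τ t).det = ∑ π : Equiv.Perm T, open Classical in
      if (t ∘ π) = (fun b => rs j (c b) (τ.comp (σ b : E →+* E)))
      then ((Equiv.Perm.sign π : ℤ) : ℂ) else 0 := by
  classical
  rw [Matrix.det_apply]
  refine Finset.sum_congr rfl fun π _ => ?_
  simp only [cmpM, Matrix.of_apply, Finset.prod_ite_zero, Finset.prod_const_one]
  have h1 : (∀ i ∈ (Finset.univ : Finset T), t (π i) = rs j (c i) (τ.comp (σ i : E →+* E))) ↔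
      (t ∘ π) = (fun b => rs j (c b) (τ.comp (σ b : E →+* E))) := by
    constructor
    · intro h
      funext b
      exact h b (Finset.mem_univ b)
    · intro h b _
      exact congrFun h b
  by_cases h : (t ∘ π) = (fun b => rs j (c b) (τ.comp (σ b : E →+* E)))
  · rw [if_pos h, if_pos (h1.2 h)]
    simp [Units.smul_def]
  · rw [if_neg h, if_neg (fun h' => h (h1.1 h'))]
    simp

end diag

section sum

variable {ι : Type} {K : ι → Type} [∀ i, Field (K i)] [∀ i, NumberField (K i)]
  {E : Type} [Field E] [NumberField E] (j : ∀ i, K i →+* E)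
  {T : Type} [Fintype T] [DecidableEq T]

omit [∀ i, NumberField (K i)] [NumberField E] in
/-- the values of a rational class along a Galois orbit -/
theorem exists_val {u : (T → Idx K) → ℂ} (hu : u ∈ HT K T) (i : T → ι) (σ : T → E ≃+* E) :
    ∃ U : E, ∀ τ : E →+* ℂ, u (fun a => rs j (i a) (τ.comp (σ a : E →+* E))) = τ U := by
  induction hu using Submodule.span_induction with
  | mem u hu =>
    obtain ⟨x, rfl⟩ := hu
    refine ⟨Matrix.det (Matrix.of fun a b => σ a (j (i a) (x b (i a)))), fun τ => ?_⟩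
    have h := RingHom.map_det τ (Matrix.of fun a b => σ a (j (i a) (x b (i a))))
    exact h.symm
  | zero => exact ⟨0, fun g => by simp⟩
  | add u v _ _ hu hv =>
    obtain ⟨U, hU⟩ := hu
    obtain ⟨V, hV⟩ := hv
    exact ⟨U + V, fun g => by simp only [Pi.add_apply, hU, hV, map_add]⟩
  | smul q u _ hu =>
    obtain ⟨U, hU⟩ := hu
    exact ⟨(q : E) * U, fun g => by
      simp only [Pi.smul_apply, hU, Rat.smul_def, map_mul, map_ratCast]⟩

/-- the number of `g` with `(τ ∘ g)|K = ρ` is `[E : K]` -/
theorem count_gal [Fintype (E ≃+* E)] (hgal : ∀ τ τ' : E →+* ℂ, ∃ g : E ≃+* E,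
    τ' = τ.comp (g : E →+* E)) (c : ι) (ρ : K c →+* ℂ) (τ : E →+* ℂ) :
    ∑ g : E ≃+* E, (open Classical in if rs j c (τ.comp (g : E →+* E)) = (⟨c, ρ⟩ : Idx K)
      then (1 : ℂ) else 0) = (dg (j c) : ℂ) := by
  classical
  rw [← card_lift (j c) ρ, Nat.card_eq_fintype_card, Finset.sum_boole]
  congr 1
  rw [← Finset.card_univ]
  refine Finset.card_bij (fun g hg => (⟨τ.comp (g : E →+* E), ?_⟩ : Lift (j c) ρ)) ?_ ?_ ?_
  · have h1 := (Finset.mem_filter.1 hg).2
    exact eq_of_heq (Sigma.mk.inj h1).2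
  · intro g hg
    exact Finset.mem_univ _
  · intro g hg g' hg' h
    have h1 := congrArg Subtype.val h
    ext x
    apply τ.injective
    exact congrArg (fun k : E →+* ℂ => k x) h1
  · rintro ⟨σ, hσ⟩ _
    obtain ⟨g, hg⟩ := hgal τ σ
    refine ⟨g, Finset.mem_filter.2 ⟨Finset.mem_univ _, ?_⟩, Subtype.ext hg.symm⟩
    rw [rs, ← hg, hσ]

end sum

end

end Pool.Agent.HCM
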