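import Pool.Agent.Lib.HCM.GSum
import Pool.Agent.Lib.HCM.Fin

set_option autoImplicit false

open scoped ComplexConjugate Matrix
open Complex

namespace Pool.Agent.HCM

noncomputable section

theorem ite_cg {p q : Prop} {hp : Decidable p} {hq : Decidable q} (h : p ↔ q) :
    (if p then (1 : ℂ) else 0) = if q then 1 else 0 := by
  by_cases h1 : p
  · rw [if_pos h1, if_pos (h.1 h1)]
  · rw [if_neg h1, if_neg fun h2 => h1 (h.2 h2)]

theorem ite_ng {p : Prop} {hp : Decidable p} (h : ¬ p) : (if p then (1 : ℂ) else 0) = 0 :=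
  if_neg h

theorem ncard_lt {l c : ℕ} (h : c ≤ l) : {b : Fin l | (b : ℕ) < c}.ncard = c := by
  have h1 : {b : Fin l | (b : ℕ) < c} = Set.range (Fin.castLE h) := by
    ext b
    constructor
    · intro hb
      exact ⟨⟨b, hb⟩, rfl⟩
    · rintro ⟨x, rfl⟩
      exact x.2
  rw [h1, ← Set.image_univ, Set.ncard_image_of_injective _ (Fin.castLE_injective h),
    Set.ncard_univ, Nat.card_eq_fintype_card, Fintype.card_fin]

theorem ncard_ge {l c : ℕ} (h : c ≤ l) : {b : Fin l | ¬ (b : ℕ) < c}.ncard = l - c := by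
  have h1 := Set.ncard_add_ncard_compl {b : Fin l | (b : ℕ) < c}
  rw [ncard_lt h, Nat.card_eq_fintype_card, Fintype.card_fin] at h1
  have h2 : {b : Fin l | ¬ (b : ℕ) < c} = {b : Fin l | (b : ℕ) < c}ᶜ := rfl
  rw [h2]
  omega

/-- CM types with prescribed multiplicities -/
theorem exists_types {E : Type} [Field E] {Θ : Set (E →+* ℂ)} (hΘ : IsCMType Θ) {l : ℕ}
    (f : (E →+* ℂ) → ℕ) (hf : ∀ τ, f τ + f (cj τ) = l) :
    ∃ Ψ : Fin l → Set (E →+* ℂ), (∀ b, IsCMType (Ψ b)) ∧ ∀ τ, {b | τ ∈ Ψ b}.ncard = f τ := by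
  classical
  refine ⟨fun b => {τ | if τ ∈ Θ then (b : ℕ) < f τ else ¬ (b : ℕ) < f (cj τ)}, ?_, ?_⟩
  · intro b τ
    simp only [Set.mem_ofPred_eq, cj_cj]
    by_cases h : τ ∈ Θ
    · have h' : cj τ ∉ Θ := fun h2 => (hΘ τ).1 h2 h
      rw [if_pos h, if_neg h']
    · have h' : cj τ ∈ Θ := (hΘ τ).2 h
      rw [if_neg h, if_pos h', not_not]
  · intro τ
    simp only [Set.mem_ofPred_eq]
    have h1 := hf τ
    by_cases h : τ ∈ Θ
    · simp only [if_pos h]
      exact ncard_lt (by omega)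
    · simp only [if_neg h]
      rw [ncard_ge (by omega)]
      omega

section slant

variable {ι : Type} {K : ι → Type} [∀ i, Field (K i)] {E : Type} [Field E]
  (j : ∀ i, K i →+* E) {T L : Type} [Fintype T] [DecidableEq T] [Fintype L] [DecidableEq L]

/-- the embeddings into `E` of the fields of `A × B` -/
def jS (ι' : Type) : ∀ c, KS K E ι' c →+* E
  | Sum.inl i => j i
  | Sum.inr _ => RingHom.id E

/-- the parameters of the diagonal classes -/
abbrev PP (ι E T : Type) [Field E] : Type := T → ι × (E ≃+* E)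

/-- the factors of `A × B` which belong to `p` -/
def cS (L : Type) (p : PP ι E T) : T ⊕ L → ι ⊕ (PP ι E T × L) :=
  Sum.elim (fun a => Sum.inl (p a).1) (fun b => Sum.inr (p, b))

/-- the automorphisms which belong to `p` -/
def sS (L : Type) (p : PP ι E T) : T ⊕ L → (E ≃+* E) :=
  Sum.elim (fun a => (p a).2) (fun _ => RingEquiv.refl E)

theorem onA_inj {ι' : Type} {q q' : Idx K} : (onA q : Idx (KS K E ι')) = onA q' ↔ q = q' := by
  obtain ⟨i, x⟩ := q
  obtain ⟨i', x'⟩ := q'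
  constructor
  · intro h
    have h1 : i = i' := Sum.inl.inj (Sigma.mk.inj h).1
    subst h1
    have h2 : x = x' := eq_of_heq (Sigma.mk.inj h).2
    rw [h2]
  · rintro h
    rw [h]

theorem onB_inj {ι' : Type} {q q' : Idx fun _ : ι' => E} :
    (onB q : Idx (KS K E ι')) = onB q' ↔ q = q' := by
  obtain ⟨i, x⟩ := q
  obtain ⟨i', x'⟩ := q'
  constructor
  · intro h
    have h1 : i = i' := Sum.inr.inj (Sigma.mk.inj h).1
    subst h1
    have h2 : x = x' := eq_of_heq (Sigma.mk.inj h).2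
    rw [h2]
  · rintro h
    rw [h]

theorem onA_ne_onB {ι' : Type} {q : Idx K} {q' : Idx fun _ : ι' => E} :
    (onA q : Idx (KS K E ι')) ≠ onB q' := by
  intro h
  have h1 := (Sigma.mk.inj h).1
  cases h1

omit [Fintype T] [DecidableEq T] [Fintype L] [DecidableEq L] in
/-- the characters of `p` -/
theorem rs_inl (p : PP ι E T) (τ : E →+* ℂ) (a : T) :
    rs (jS j (PP ι E T × L)) (cS L p (Sum.inl a)) (τ.comp (sS L p (Sum.inl a) : E →+* E)) =
      onA (rs j (p a).1 (τ.comp ((p a).2 : E →+* E))) := rfl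

omit [Fintype T] [DecidableEq T] [Fintype L] [DecidableEq L] in
theorem rs_inr (p : PP ι E T) (τ : E →+* ℂ) (b : L) :
    rs (jS j (PP ι E T × L)) (cS L p (Sum.inr b)) (τ.comp (sS L p (Sum.inr b) : E →+* E)) =
      onB ⟨(p, b), τ⟩ := rfl

open Classical in
theorem cmpM_glue (p : PP ι E T) (τ : E →+* ℂ) (t : T → Idx K)
    (s : L → Idx fun _ : PP ι E T × L => E) :
    (cmpM (jS j (PP ι E T × L)) (cS L p) (sS L p) τ (glue t s)).det =
      (cmpM j (fun a => (p a).1) (fun a => (p a).2) τ t).det *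
        (Matrix.of fun b b' : L => if s b = ⟨(p, b'), τ⟩ then (1:ℂ) else 0).det := by
  have h1 : cmpM (jS j (PP ι E T × L)) (cS L p) (sS L p) τ (glue t s) =
      Matrix.fromBlocks (cmpM j (fun a => (p a).1) (fun a => (p a).2) τ t) 0 0
        (Matrix.of fun b b' : L => if s b = ⟨(p, b'), τ⟩ then (1:ℂ) else 0) := by
    ext x y
    rcases x with a | b <;> rcases y with a' | b'
    · rw [Matrix.fromBlocks_apply₁₁]
      exact ite_cg (onA_inj (q := t a) (q' := rs j (p a').1 (τ.comp ((p a').2 : E →+* E))))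
    · rw [Matrix.fromBlocks_apply₁₂]
      exact ite_ng (onA_ne_onB (q := t a) (q' := ⟨(p, b'), τ⟩))
    · rw [Matrix.fromBlocks_apply₂₁]
      exact ite_ng (onA_ne_onB (q := rs j (p a').1 (τ.comp ((p a').2 : E →+* E)))
        (q' := s b)).symm
    · rw [Matrix.fromBlocks_apply₂₂]
      exact ite_cg (onB_inj (q := s b) (q' := ⟨(p, b'), τ⟩))
  rw [h1, Matrix.det_fromBlocks_zero₂₁]

omit [DecidableEq T] in
open Classical in
/-- the second block at the special arguments -/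
theorem det_special (p p' : PP ι E T) (τ τ' : E →+* ℂ) :
    (Matrix.of fun b b' : L => if (⟨(p', b), τ'⟩ : Idx fun _ : PP ι E T × L => E) = ⟨(p, b'), τ⟩
      then (1:ℂ) else 0).det = if IsEmpty L ∨ (p', τ') = (p, τ) then 1 else 0 := by
  by_cases hL : IsEmpty L
  · rw [if_pos (Or.inl hL)]
    exact Matrix.det_isEmpty
  · by_cases h : (p', τ') = (p, τ)
    · rw [if_pos (Or.inr h)]
      have h1 := (Prod.mk.inj h).1
      have h2 := (Prod.mk.inj h).2
      subst h1
      subst h2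
      have h3 : (Matrix.of fun b b' : L => if (⟨(p', b), τ'⟩ : Idx fun _ : PP ι E T × L => E) =
          ⟨(p', b'), τ'⟩ then (1:ℂ) else 0) = 1 := by
        ext b b'
        rw [Matrix.of_apply, Matrix.one_apply]
        refine ite_cg ⟨fun h4 => ?_, fun h4 => by rw [h4]⟩
        exact (Prod.mk.inj (Sigma.mk.inj h4).1).2
      rw [h3, Matrix.det_one]
    · rw [if_neg (not_or.2 ⟨hL, h⟩)]
      rw [not_isEmpty_iff] at hL
      obtain ⟨b₀⟩ := hL
      refine Matrix.det_eq_zero_of_row_eq_zero b₀ fun b' => ?_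
      rw [Matrix.of_apply]
      refine if_neg fun h4 => h ?_
      have h5 := (Prod.mk.inj (Sigma.mk.inj h4).1).1
      have h6 : τ' = τ := eq_of_heq (Sigma.mk.inj h4).2
      rw [h5, h6]

variable [NumberField E] [Fintype ι] [Fintype (E ≃+* E)]

open Classical in
/-- the `l`-form on `B` -/
def bet (s : L → Idx fun _ : PP ι E T × L => E) : ℂ :=
  ∑ x : PP ι E T × (E →+* ℂ), if s = (fun b => ⟨(x.1, b), x.2⟩) then 1 else 0

theorem sum_bet (F : (L → Idx fun _ : PP ι E T × L => E) → ℂ) :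
    ∑ s, bet s * F s = ∑ x : PP ι E T × (E →+* ℂ), F (fun b => ⟨(x.1, b), x.2⟩) := by
  classical
  simp only [bet, Finset.sum_mul]
  rw [Finset.sum_comm]
  refine Finset.sum_congr rfl fun x _ => ?_
  simp only [ite_mul, one_mul, zero_mul]
  rw [Finset.sum_ite_eq']
  exact if_pos (Finset.mem_univ _)

/-- the class on `A × B` -/
def gam (L : Type) [Fintype L] [DecidableEq L] (U : PP ι E T → E)
    (t : T ⊕ L → Idx (KS K E (PP ι E T × L))) : ℂ :=
  ∑ p : PP ι E T, (wt j p : ℂ) * Dg (jS j (PP ι E T × L)) (cS L p) (sS L p) (U p) t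

/-- the multiplicity -/
def mul (ι E T L : Type) [Field E] [NumberField E] [Fintype ι] [Fintype (E ≃+* E)] [Fintype T]
    [DecidableEq T] : ℕ :=
  open Classical in if IsEmpty L then Fintype.card (PP ι E T × (E →+* ℂ)) else 1

theorem slant (U : PP ι E T → E) (t : T → Idx K) :
    ∑ s, bet s * gam j L U (glue t s) =
      (mul ι E T L : ℂ) * ∑ p : PP ι E T, (wt j p : ℂ) * Dp j p (U p) t := by
  classical
  rw [sum_bet]
  simp only [gam, Dg, cmpM_glue, det_special]
  rw [Finset.sum_comm, Finset.mul_sum]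
  refine Finset.sum_congr rfl fun p _ => ?_
  rw [← Finset.mul_sum, Finset.sum_comm, Dp, Dg, mul_left_comm]
  congr 1
  rw [Finset.mul_sum]
  refine Finset.sum_congr rfl fun τ _ => ?_
  rw [← Finset.mul_sum, ← Finset.mul_sum, Finset.sum_boole, ← mul_assoc,
    mul_comm (mul ι E T L : ℂ)]
  congr 1
  unfold mul
  by_cases hL : IsEmpty L
  · rw [if_pos hL]
    congr 1
    simp [hL]
  · rw [if_neg hL]
    congr 1
    simp only [hL, false_or]
    rw [Finset.card_eq_one]
    refine ⟨(p, τ), ?_⟩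
    ext x
    simp

end slant

section types

theorem ncard_sum {T L : Type} [Finite T] [Finite L] (p : T ⊕ L → Prop) :
    {x | p x}.ncard = {a | p (Sum.inl a)}.ncard + {b | p (Sum.inr b)}.ncard := by
  have h1 : {x | p x} = Sum.inl '' {a | p (Sum.inl a)} ∪ Sum.inr '' {b | p (Sum.inr b)} := by
    ext x
    rcases x with a | b <;> simp
  rw [h1, Set.ncard_union_eq, Set.ncard_image_of_injective _ Sum.inl_injective,
    Set.ncard_image_of_injective _ Sum.inr_injective]
  rw [Set.disjoint_left]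
  rintro x ⟨a, _, rfl⟩ ⟨b, _, h⟩
  cases h

variable {ι : Type} {K : ι → Type} [∀ i, Field (K i)] {E : Type} [Field E]
  (j : ∀ i, K i →+* E) {T : Type} [Fintype T]

/-- the number of characters of `p` in `Φ` -/
def nn (Φ : ∀ i, Set (K i →+* ℂ)) (p : PP ι E T) (τ : E →+* ℂ) : ℕ :=
  {a | (tg j p τ a).2 ∈ Φ (tg j p τ a).1}.ncard

theorem nn_cj {Φ : ∀ i, Set (K i →+* ℂ)} (hΦ : ∀ i, IsCMType (Φ i)) (p : PP ι E T)
    (τ : E →+* ℂ) : nn j Φ p τ + nn j Φ p (cj τ) = Fintype.card T := by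
  have h1 := Set.ncard_add_ncard_compl {a | (tg j p τ a).2 ∈ Φ (tg j p τ a).1}
  rw [Nat.card_eq_fintype_card] at h1
  rw [← h1, nn, nn]
  congr 2
  ext a
  exact hΦ (p a).1 ((τ.comp ((p a).2 : E →+* E)).comp (j (p a).1))

theorem exists_Psi {Φ : ∀ i, Set (K i →+* ℂ)} (hΦ : ∀ i, IsCMType (Φ i)) {Θ : Set (E →+* ℂ)}
    (hΘ : IsCMType Θ) {k l : ℕ} (hT : Fintype.card T = 2 * k + l) (U : PP ι E T → E)
    (hc : ∀ p, U p ≠ 0 → ∀ τ, k ≤ nn j Φ p τ ∧ nn j Φ p τ ≤ k + l) :
    ∃ Ψ : PP ι E T × Fin l → Set (E →+* ℂ), (∀ b, IsCMType (Ψ b)) ∧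
      ∀ p, U p ≠ 0 → ∀ τ, nn j Φ p τ + {b : Fin l | τ ∈ Ψ (p, b)}.ncard = k + l := by
  have h : ∀ p : PP ι E T, ∃ Ψ : Fin l → Set (E →+* ℂ), (∀ b, IsCMType (Ψ b)) ∧
      (U p ≠ 0 → ∀ τ, nn j Φ p τ + {b : Fin l | τ ∈ Ψ b}.ncard = k + l) := by
    intro p
    by_cases hp : U p = 0
    · exact ⟨fun _ => Θ, fun _ => hΘ, fun h => absurd hp h⟩
    · obtain ⟨Ψ, h1, h2⟩ := exists_types hΘ (l := l) (fun τ => k + l - nn j Φ p τ) (by
        intro τ
        have h3 := nn_cj j hΦ p τ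
        have h4 := hc p hp τ
        have h5 := hc p hp (cj τ)
        omega)
      refine ⟨Ψ, h1, fun _ τ => ?_⟩
      rw [h2]
      have h4 := hc p hp τ
      omega
  choose Ψ h1 h2 using h
  exact ⟨fun x => Ψ x.1 x.2, fun x => h1 x.1 x.2, fun p hp τ => h2 p hp τ⟩

variable [DecidableEq T] [NumberField E] [Fintype ι] [Fintype (E ≃+* E)]

theorem gam_hodge {Φ : ∀ i, Set (K i →+* ℂ)} {k l : ℕ} {U : PP ι E T → E}
    {Ψ : PP ι E T × Fin l → Set (E →+* ℂ)}
    (h : ∀ p, U p ≠ 0 → ∀ τ, nn j Φ p τ + {b : Fin l | τ ∈ Ψ (p, b)}.ncard = k + l)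
    (t : T ⊕ Fin l → Idx (KS K E (PP ι E T × Fin l))) (ht : gam j (Fin l) U t ≠ 0) :
    {a | (t a).2 ∈ PS Φ Ψ (t a).1}.ncard = k + l := by
  classical
  obtain ⟨p, -, hp⟩ := Finset.exists_ne_zero_of_sum_ne_zero ht
  have hp1 := right_ne_zero_of_mul hp
  obtain ⟨τ, -, hτ⟩ := Finset.exists_ne_zero_of_sum_ne_zero hp1
  have hU : U p ≠ 0 := by
    intro h0
    rw [h0, map_zero, zero_mul] at hτ
    exact hτ rfl
  have hd := right_ne_zero_of_mul hτ
  rw [cmpM_det] at hd
  obtain ⟨π, -, hπ⟩ := Finset.exists_ne_zero_of_sum_ne_zero hd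
  have hr : (t ∘ π) = (fun b => rs (jS j (PP ι E T × Fin l)) (cS (Fin l) p b)
      (τ.comp (sS (Fin l) p b : E →+* E))) := by
    by_contra h0
    rw [if_neg h0] at hπ
    exact hπ rfl
  have h1 : {a | (t a).2 ∈ PS Φ Ψ (t a).1} = π '' {a | ((t ∘ π) a).2 ∈ PS Φ Ψ ((t ∘ π) a).1} := by
    ext x
    constructor
    · intro hx
      refine ⟨π.symm x, ?_, π.apply_symm_apply x⟩
      change (t (π (π.symm x))).2 ∈ PS Φ Ψ (t (π (π.symm x))).1
      rw [π.apply_symm_apply]
      exact hx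
    · rintro ⟨y, hy, rfl⟩
      exact hy
  rw [h1, Set.ncard_image_of_injective _ π.injective, hr, ncard_sum]
  exact h p hU τ

end types

section main

variable {ι : Type} {K : ι → Type} [∀ i, Field (K i)] {E : Type} [Field E] [NumberField E]
  (j : ∀ i, K i →+* E) {T L : Type} [Fintype T] [DecidableEq T] [Fintype L] [DecidableEq L]
  [Fintype ι] [Fintype (E ≃+* E)]

theorem gam_mem [∀ i, NumberField (K i)] (U : PP ι E T → E) :
    gam j L U ∈ HT (KS K E (PP ι E T × L)) (T ⊕ L) := by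
  have h : gam j L U = ∑ p : PP ι E T, wt j p •
      Dg (jS j (PP ι E T × L)) (cS L p) (sS L p) (U p) := by
    funext t
    rw [Finset.sum_apply]
    refine Finset.sum_congr rfl fun p _ => ?_
    rw [Pi.smul_apply, Rat.smul_def]
  rw [h]
  exact Submodule.sum_mem _ fun p _ => Submodule.smul_mem _ _ (Dg_mem _ _ _ _)

theorem isRat_bet (ι : Type) [Fintype ι] (T : Type) [Fintype T] [DecidableEq T] (l : ℕ) :
    IsRat (bet (ι := ι) (T := T) (L := Fin l) (E := E)) := by
  classical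
  intro y
  refine ⟨∑ p : PP ι E T, Algebra.trace ℚ E (∏ b, y b (p, b)), ?_⟩
  have h := sum_bet (ι := ι) (T := T) (L := Fin l) (E := E)
    (fun s => ∏ b, (s b).2 (y b (s b).1))
  rw [h, Fintype.sum_prod_type]
  push_cast
  refine Finset.sum_congr rfl fun p _ => ?_
  rw [trQ]
  refine Finset.sum_congr rfl fun τ _ => ?_
  rw [map_prod]

end main

/-- The reduction of the generalized Hodge conjecture to the Hodge conjecture: `u` is the
contraction of a Hodge class `γ` on `A × B` with a rational `l`-form on `B`. -/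
def GRED : Prop :=
  ∀ (k l : ℕ) (ι : Type) [Finite ι] (K : ι → Type) [∀ i, Field (K i)] [∀ i, NumberField (K i)]
    [∀ i, NumberField.IsCMField (K i)] (Φ : ∀ i, Set (K i →+* ℂ)),
    (∀ i, IsCMType (Φ i)) → ∀ u ∈ HT K (Fin (2 * k + l)), IsConiv Φ k l u →
    ∃ (E : Type) (_ : Field E) (_ : NumberField E) (_ : NumberField.IsCMField E) (ι' : Type)
      (_ : Fintype ι') (Ψ : ι' → Set (E →+* ℂ)) (e : Two (k + l) ≃ Fin (2 * k + l) ⊕ Fin l)
      (γ : (Two (k + l) → Idx (KS K E ι')) → ℂ) (β : (Fin l → Idx fun _ : ι' => E) → ℂ),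
      (∀ b, IsCMType (Ψ b)) ∧ γ ∈ HQ (KS K E ι') (k + l) ∧
      IsHodge (PS Φ Ψ) γ ∧ IsRat β ∧
      ∀ t, u t = ∑ s, β s * γ (glue t s ∘ e)

/-- the generalized Hodge conjecture for abelian varieties of CM type, from the Hodge conjecture -/
theorem gred : GRED := by
  classical
  intro k l ι _ K _ _ _ Φ hΦ u hu hc
  obtain ⟨F, E, _, _, _, _, _, D, δ, v₁, τ₀, H, hj⟩ := exists_cm K
  let j : ∀ i, K i →+* E := fun i => (hj i).some
  have := Fintype.ofFinite ι
  have hinj : Function.Injective (fun g : E ≃+* E => τ₀.comp (g : E →+* E)) := by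
    intro g g' h
    ext x
    apply τ₀.injective
    exact congrArg (fun k : E →+* ℂ => k x) h
  have := Finite.of_injective _ hinj
  have := Fintype.ofFinite (E ≃+* E)
  have hgal : ∀ τ τ' : E →+* ℂ, ∃ g : E ≃+* E, τ' = τ.comp (g : E →+* E) := by
    intro τ τ'
    obtain ⟨g, hg⟩ := H.exists_gal τ
    obtain ⟨g', hg'⟩ := H.exists_gal τ'
    refine ⟨g'.trans g.symm, ?_⟩
    rw [hg, hg']
    ext x
    simp
  have hΘ : IsCMType {τ : E →+* ℂ | 0 < (τ δ).im} := by
    intro τ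
    have h1 := H.im_ne τ
    simp only [Set.mem_ofPred_eq, cj_apply, conj_im]
    constructor
    · intro h2
      linarith
    · intro h2
      have h3 := lt_of_le_of_ne (not_lt.1 h2) h1
      linarith
  have hcpx : NumberField.IsTotallyComplex E := by
    refine ⟨fun w => ?_⟩
    rw [← NumberField.InfinitePlace.not_isReal_iff_isComplex]
    intro hw
    have h1 := H.im_ne w.embedding
    have h2 := NumberField.InfinitePlace.isReal_iff.1 hw
    have h3 : conj (w.embedding δ) = w.embedding δ := congrArg (fun k : E →+* ℂ => k δ) h2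
    rw [conj_eq_iff_im] at h3
    exact h1 h3
  have hCM : NumberField.IsCMField E := by
    have := H.galois
    obtain ⟨c, hc, -⟩ := H.exists_conj
    let c' : E ≃ₐ[ℚ] E := { c with commutes' := fun q => by simp }
    refine NumberField.IsCMField.of_forall_isConj E (σ := c') fun φ => ?_
    ext x
    exact congrArg (fun k : E →+* ℂ => k x) (hc φ)
  choose U hU using fun p : PP ι E (Fin (2 * k + l)) =>
    exists_val j hu (fun a => (p a).1) (fun a => (p a).2)
  have hcv : ∀ p, U p ≠ 0 → ∀ τ, k ≤ nn j Φ p τ ∧ nn j Φ p τ ≤ k + l := by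
    intro p hp τ
    by_contra h1
    have h2 := hc (tg j p τ) h1
    rw [show u (tg j p τ) = τ (U p) from hU p τ] at h2
    exact hp ((map_eq_zero τ).1 h2)
  obtain ⟨Ψ, hΨ, hn⟩ := exists_Psi j hΦ hΘ (l := l) (Fintype.card_fin (2 * k + l)) U hcv
  let e : Two (k + l) ≃ Fin (2 * k + l) ⊕ Fin l := Fintype.equivOfCardEq (by
    simp only [Fintype.card_sum, Fintype.card_fin]
    omega)
  let M : ℚ := mul ι E (Fin (2 * k + l)) (Fin l) *
    (Fintype.card (E →+* ℂ) * (Fintype.card (Fin (2 * k + l))).factorial)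
  let γ : (Two (k + l) → Idx (KS K E (PP ι E (Fin (2 * k + l)) × Fin l))) → ℂ :=
    M⁻¹ • fun t => gam j (Fin l) U (t ∘ e.symm)
  have hγ : γ ∈ HQ (KS K E (PP ι E (Fin (2 * k + l)) × Fin l)) (k + l) :=
    Submodule.smul_mem _ _ (HT_reindex e.symm (gam_mem j U))
  have hγH : IsHodge (PS Φ Ψ) γ := by
    intro t ht
    by_contra h0
    have h1 : gam j (Fin l) U (t ∘ e.symm) ≠ 0 := by
      intro h2
      apply h0
      change (M⁻¹ • fun t => gam j (Fin l) U (t ∘ e.symm)) t = 0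
      rw [Pi.smul_apply, h2, smul_zero]
    have h2 := gam_hodge j hn (t ∘ e.symm) h1
    apply ht
    refine Eq.trans ?_ h2
    have h3 : {a | (t a).2 ∈ PS Φ Ψ (t a).1} =
        e.symm '' {a | ((t ∘ e.symm) a).2 ∈ PS Φ Ψ ((t ∘ e.symm) a).1} := by
      ext x
      constructor
      · intro hx
        refine ⟨e x, ?_, e.symm_apply_apply x⟩
        change (t (e.symm (e x))).2 ∈ PS Φ Ψ (t (e.symm (e x))).1
        rw [e.symm_apply_apply]
        exact hx
      · rintro ⟨y, hy, rfl⟩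
        exact hy
    rw [h3, Set.ncard_image_of_injective _ e.symm.injective]
  refine ⟨E, inferInstance, inferInstance, hCM, PP ι E (Fin (2 * k + l)) × Fin l, inferInstance,
    Ψ, e, γ, bet, hΨ, hγ, hγH, isRat_bet ι (Fin (2 * k + l)) l, ?_⟩
  · intro t
    have h1 := slant (L := Fin l) j U t
    rw [sum_Dp j hgal hu U hU t] at h1
    have h2 : ∀ s : Fin l → Idx fun _ : PP ι E (Fin (2 * k + l)) × Fin l => E,
        γ (glue t s ∘ e) = ((M⁻¹ : ℚ) : ℂ) * gam j (Fin l) U (glue t s) := by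
      intro s
      change (M⁻¹ • fun t => gam j (Fin l) U (t ∘ e.symm)) (glue t s ∘ e) = _
      rw [Pi.smul_apply, Rat.smul_def, Function.comp_assoc, e.self_comp_symm, Function.comp_id]
    simp only [h2, mul_left_comm _ ((M⁻¹ : ℚ) : ℂ)]
    rw [← Finset.mul_sum, h1, ← mul_assoc]
    have h3 : ((M⁻¹ : ℚ) : ℂ) * (mul ι E (Fin (2 * k + l)) (Fin l) : ℂ) *
        (Fintype.card (E →+* ℂ) * (Fintype.card (Fin (2 * k + l))).factorial : ℂ) = 1 := by
      have h4 : M ≠ 0 := by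
        refine mul_ne_zero ?_ (mul_ne_zero ?_ ?_)
        · unfold mul
          by_cases hL : IsEmpty (Fin l)
          · rw [if_pos hL]
            have : Nonempty (PP ι E (Fin (2 * k + l)) × (E →+* ℂ)) :=
              ⟨(fun a => ((t a).1, RingEquiv.refl E), τ₀)⟩
            exact_mod_cast Fintype.card_ne_zero
          · rw [if_neg hL]
            norm_num
        · have : Nonempty (E →+* ℂ) := ⟨τ₀⟩
          exact_mod_cast Fintype.card_ne_zero
        · exact_mod_cast Nat.factorial_ne_zero _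
      have h5 : (M : ℂ) = (mul ι E (Fin (2 * k + l)) (Fin l) : ℂ) *
        (Fintype.card (E →+* ℂ) * (Fintype.card (Fin (2 * k + l))).factorial : ℂ) := by
        push_cast [M]
        ring
      rw [mul_assoc, ← h5, ← Rat.cast_mul, inv_mul_cancel₀ h4, Rat.cast_one]
    rw [← mul_assoc, h3, one_mul]

theorem PS_cm {ι : Type} {K : ι → Type} [∀ i, Field (K i)] {E ι' : Type} [Field E]
    {Φ : ∀ i, Set (K i →+* ℂ)} (hΦ : ∀ i, IsCMType (Φ i)) {Ψ : ι' → Set (E →+* ℂ)}
    (hΨ : ∀ b, IsCMType (Ψ b)) : ∀ c, IsCMType (PS (K := K) (E := E) Φ Ψ c) := by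
  rintro (i | b)
  · exact hΦ i
  · exact hΨ b

/-- the generalized Hodge conjecture for abelian varieties of CM type, from the Hodge conjecture -/
theorem ghodge (hH : HODGE) : GHODGE := by
  intro k l ι _ K _ _ _ Φ hkl hΦ u hu hc
  obtain ⟨E, i1, i2, i3, ι', i4, Ψ, e, γ, β, hΨ, hγ, hH', hβ, h⟩ := gred k l ι K Φ hΦ u hu hc
  exact ⟨E, i1, i2, i3, ι', i4, Ψ, e, γ, β, hΨ, hγ,
    hH (k + l) (ι ⊕ ι') (KS K E ι') (PS Φ Ψ) hkl (PS_cm hΦ hΨ) γ hγ hH', hβ, h⟩

end

end Pool.Agent.HCM
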