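import Pool.Agent.Lib.HCM.GDiag

/-!
# A rational class as a sum of diagonal classes (helper60)
-/

set_option autoImplicit false

open scoped ComplexConjugate Matrix
open Complex

namespace Pool.Agent.HCM

noncomputable section

section sum

variable {ι : Type} [Fintype ι] {K : ι → Type} [∀ i, Field (K i)] [∀ i, NumberField (K i)]
  {E : Type} [Field E] [NumberField E] [Fintype (E ≃+* E)] (j : ∀ i, K i →+* E)
  {T : Type} [Fintype T] [DecidableEq T]

theorem sum_one (hgal : ∀ τ τ' : E →+* ℂ, ∃ g : E ≃+* E, τ' = τ.comp (g : E →+* E))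
    (τ : E →+* ℂ) (q : Idx K) :
    ∑ x : ι × (E ≃+* E), (dg (j x.1) : ℂ)⁻¹ * (open Classical in
      if rs j x.1 (τ.comp (x.2 : E →+* E)) = q then (1 : ℂ) else 0) = 1 := by
  classical
  obtain ⟨c, ρ⟩ := q
  rw [Fintype.sum_prod_type, Finset.sum_eq_single c]
  · refine (Finset.mul_sum Finset.univ (fun g : E ≃+* E =>
      if rs j c (τ.comp (g : E →+* E)) = (⟨c, ρ⟩ : Idx K) then (1 : ℂ) else 0)
      ((dg (j c) : ℂ)⁻¹)).symm.trans ?_
    rw [count_gal j hgal c ρ τ]
    exact inv_mul_cancel₀ (by exact_mod_cast (dg_pos (j c)).ne')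
  · intro c' _ hc'
    refine Finset.sum_eq_zero fun g _ => ?_
    rw [if_neg, mul_zero]
    intro h
    exact hc' (Sigma.mk.inj h).1
  · intro h
    exact absurd (Finset.mem_univ _) h

/-- the target characters of `p` -/
def tg (p : T → ι × (E ≃+* E)) (τ : E →+* ℂ) : T → Idx K :=
  fun a => rs j (p a).1 (τ.comp ((p a).2 : E →+* E))

/-- the diagonal class of `p` -/
def Dp (p : T → ι × (E ≃+* E)) (lam : E) : (T → Idx K) → ℂ :=
  Dg j (fun a => (p a).1) (fun a => (p a).2) lam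

/-- the weights -/
def wt (p : T → ι × (E ≃+* E)) : ℚ := ∏ a, (dg (j (p a).1) : ℚ)⁻¹

theorem sum_Dp (hgal : ∀ τ τ' : E →+* ℂ, ∃ g : E ≃+* E, τ' = τ.comp (g : E →+* E))
    {u : (T → Idx K) → ℂ} (hu : u ∈ HT K T) (U : (T → ι × (E ≃+* E)) → E)
    (hU : ∀ p τ, u (tg j p τ) = τ (U p)) (t : T → Idx K) :
    ∑ p : T → ι × (E ≃+* E), (wt j p : ℂ) * Dp j p (U p) t =
      (Fintype.card (E →+* ℂ) * (Fintype.card T).factorial : ℂ) * u t := by
  classical
  have h1 : ∀ p : T → ι × (E ≃+* E), (wt j p : ℂ) * Dp j p (U p) t =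
      ∑ τ : E →+* ℂ, ∑ π : Equiv.Perm T, ((Equiv.Perm.sign π : ℤ) : ℂ) *
        ((∏ a, ((dg (j (p a).1) : ℂ)⁻¹ *
          if rs j (p a).1 (τ.comp ((p a).2 : E →+* E)) = (t ∘ π) a then (1 : ℂ) else 0)) *
          u (t ∘ π)) := by
    intro p
    rw [Dp, Dg, Finset.mul_sum]
    refine Finset.sum_congr rfl fun τ _ => ?_
    rw [cmpM_det, Finset.mul_sum, Finset.mul_sum]
    refine Finset.sum_congr rfl fun π _ => ?_
    rw [← hU, Finset.prod_mul_distrib, Finset.prod_ite_zero, Finset.prod_const_one, wt]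
    push_cast
    by_cases h : (t ∘ π) = tg j p τ
    · rw [if_pos (show (t ∘ π) = (fun b => rs j (p b).1 (τ.comp ((p b).2 : E →+* E))) from h),
        if_pos, h]
      · ring
      · intro a _
        rw [h]
        rfl
    · rw [if_neg (show ¬ (t ∘ π) = (fun b => rs j (p b).1 (τ.comp ((p b).2 : E →+* E))) from h),
        if_neg]
      · ring
      · intro h2
        apply h
        funext a
        exact (h2 a (Finset.mem_univ a)).symm
  simp only [h1]
  rw [Finset.sum_comm]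
  have h2 : ∀ τ : E →+* ℂ, ∑ p : T → ι × (E ≃+* E), ∑ π : Equiv.Perm T,
      ((Equiv.Perm.sign π : ℤ) : ℂ) * ((∏ a, ((dg (j (p a).1) : ℂ)⁻¹ *
          if rs j (p a).1 (τ.comp ((p a).2 : E →+* E)) = (t ∘ π) a then (1 : ℂ) else 0)) *
          u (t ∘ π)) = ((Fintype.card T).factorial : ℂ) * u t := by
    intro τ
    rw [Finset.sum_comm]
    have h3 : ∀ π : Equiv.Perm T, ∑ p : T → ι × (E ≃+* E),
      ((Equiv.Perm.sign π : ℤ) : ℂ) * ((∏ a, ((dg (j (p a).1) : ℂ)⁻¹ *
          if rs j (p a).1 (τ.comp ((p a).2 : E →+* E)) = (t ∘ π) a then (1 : ℂ) else 0)) *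
          u (t ∘ π)) = u t := by
      intro π
      rw [← Finset.mul_sum, ← Finset.sum_mul]
      have h4 := Finset.prod_univ_sum (fun _ : T => (Finset.univ : Finset (ι × (E ≃+* E))))
        (fun a x => (dg (j x.1) : ℂ)⁻¹ *
          if rs j x.1 (τ.comp (x.2 : E →+* E)) = (t ∘ π) a then (1 : ℂ) else 0)
      rw [Fintype.piFinset_univ] at h4
      rw [← h4]
      simp only [sum_one j hgal τ, Finset.prod_const_one, one_mul]
      rw [HT_alt hu, ← mul_assoc]
      have h5 : ((Equiv.Perm.sign π : ℤ) : ℂ) * ((Equiv.Perm.sign π : ℤ) : ℂ) = 1 := by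
        rcases Int.units_eq_one_or (Equiv.Perm.sign π) with h | h <;> simp [h]
      rw [h5, one_mul]
    simp only [h3]
    rw [Finset.sum_const, Finset.card_univ, Fintype.card_perm, nsmul_eq_mul]
  simp only [h2]
  rw [Finset.sum_const, Finset.card_univ, nsmul_eq_mul, mul_assoc]

end sum

end

end Pool.Agent.HCM
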