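import Pool.Agent.Lib.HCM.Cl

/-!
# Hodge classes on products of CM tori with the same Galois CM field `E` (helper51)
-/

open scoped ComplexConjugate Matrix
open Complex MeasureTheory Pool.Agent.CMN

namespace Pool.Agent.HCM

section split

theorem ncard_two {n : ℕ} (p : Two n → Prop) (q r : Fin n → Prop) [DecidablePred q]
    [DecidablePred r] (hq : ∀ i, q i ↔ p (Sum.inl i)) (hr : ∀ i, r i ↔ p (Sum.inr i)) :
    {a | p a}.ncard = (Finset.univ.filter q).card + (Finset.univ.filter r).card := by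
  classical
  have h1 : {a | p a} = ((Finset.univ.filter p : Finset (Two n)) : Set (Two n)) := by
    ext a; simp
  rw [h1, Set.ncard_coe_finset, Finset.card_filter, Fintype.sum_sum_type, Finset.card_filter,
    Finset.card_filter]
  congr 1
  · exact Finset.sum_congr rfl fun i _ => by simp only [hq]
  · exact Finset.sum_congr rfl fun i _ => by simp only [hr]

/-- the rows of the block matrix -/
theorem det_rows {n : ℕ} (A B : Fin n → Fin n → ℂ) :
    Matrix.det (Matrix.of (Sum.elim (fun i => Sum.elim (A i) (0 : Fin n → ℂ))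
      (fun i => Sum.elim (0 : Fin n → ℂ) (B i)) : Two n → Two n → ℂ)) =
      Matrix.det (Matrix.of A) * Matrix.det (Matrix.of B) := by
  rw [← Matrix.det_fromBlocks_zero₁₂ (Matrix.of A) 0 (Matrix.of B)]
  congr 1

end split

variable {F E : Type} [Field F] [NumberField F] [Field E] [NumberField E] [Algebra F E]
  {D : F} {δ : E} {v₁ : F →+* ℝ} {τ₀ : E →+* ℂ}

/-- transfer of a map to the torus of the reflex type -/
theorem map_transfer (H : CMData F E D δ v₁ τ₀) {Φ : Set (E →+* ℂ)} (hΦ : IsCMType Φ)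
    {σ : E ≃+* E} {a : F} (ha0 : a ≠ 0) (ha : ∀ v : F →+* ℝ, sv F δ τ₀ Φ σ v = true ↔ 0 < v a)
    {n : ℕ} {k : Fin (n + 1) → ℝ}
    {Γ : Subgroup (SLn n)} {p : (E →+* ℂ) → (Fin n → ℂ) → ℂ} {ℓ : SLn n → E}
    (hp : IsMap k Γ (reflex δ τ₀ a) p ℓ) :
    IsMap k Γ Φ (fun τ => p (τ.comp (σ.symm : E →+* E))) (fun γ => σ.symm (ℓ γ)) := by
  have hmem : ∀ τ ∈ Φ, τ.comp (σ.symm : E →+* E) ∈ reflex δ τ₀ a := by
    intro τ hτ
    obtain ⟨g', hg'⟩ := H.exists_gal τ
    refine ⟨σ.symm.trans g', ?_, ?_⟩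
    · rw [hg']; rfl
    · rw [pos_iff H hΦ ha0 ha]
      have : gg τ₀ (σ.symm.trans g') σ = τ := by
        rw [hg']
        ext x
        simp
      rwa [this]
  refine ⟨?_, ?_, ?_⟩
  · intro γ hγ
    exact map_isIntegral_int (σ.symm : E →+* E) (hp.int γ hγ)
  · intro τ hτ
    exact hp.hol _ (hmem τ hτ)
  · intro τ hτ γ hγ y hy
    exact hp.per _ (hmem τ hτ) γ hγ y hy

/-- a theta form as a combination of pulled back forms, at a given eigenline -/
theorem theta_pull (H : CMData F E D δ v₁ τ₀) (p2 : P2) {Φ : Set (E →+* ℂ)} (hΦ : IsCMType Φ)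
    {σ : E ≃+* E} {n : ℕ} (hn : 0 < n) {h : Fin (n + 1) → F} {Γ : Subgroup (SLn n)} {a : F}
    {φ : (Fin (n + 1) → F) → ℂ} (hh : Sig v₁ h) (hA : IsArith v₁ D h Γ) (ha : 0 < v₁ a)
    (hφ : IsSB φ) (hI : InvOne (ev v₁ h) Γ (theta v₁ D h a φ)) (hs : sgn a = sv F δ τ₀ Φ σ) :
    ∃ (J : ℕ) (c : Fin J → ℂ) (f : Fin J → (E →+* ℂ) → (Fin n → ℂ) → ℂ)
      (ℓ : Fin J → SLn n → E), (∀ j, IsMap (ev v₁ h) Γ Φ (f j) (ℓ j)) ∧
      ∀ y ∈ ball (ev v₁ h), ∀ i, theta v₁ D h a φ i y =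
        ∑ j, c j * fderiv ℂ (f j (τ₀.comp (σ : E →+* E))) y (Pi.single i 1) := by
  have ha0 : a ≠ 0 := by
    rintro rfl
    rw [map_zero] at ha
    exact lt_irrefl _ ha
  have hs' : ∀ v : F →+* ℝ, sv F δ τ₀ Φ σ v = true ↔ 0 < v a := by
    intro v
    rw [← hs]
    simp [sgn]
  obtain ⟨J, c, p, ℓ, hp, hθ⟩ := p2 F E D δ v₁ τ₀ H n h Γ a φ hn hh hA ha hφ hI
  refine ⟨J, c, fun j τ => p j (τ.comp (σ.symm : E →+* E)), fun j γ => σ.symm (ℓ j γ),
    fun j => map_transfer H hΦ ha0 hs' (hp j), ?_⟩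
  have e : (τ₀.comp (σ : E →+* E)).comp (σ.symm : E →+* E) = τ₀ := by
    ext x
    simp
  simp only [e]
  exact hθ

/-- the case of sorted indices -/
theorem ee_mem_sorted (hS : QUOT) (p2 : P2) (H : CMData F E D δ v₁ τ₀) {ι : Type} [Finite ι]
    {Φ : ι → Set (E →+* ℂ)} (hΦ : ∀ i, IsCMType (Φ i)) {n : ℕ} (hn : 0 < n)
    {t : Two n → Idx fun _ : ι => E}
    {σ : Two n → E ≃+* E} (hσ : ∀ a, (t a).2 = τ₀.comp (σ a : E →+* E))
    (hb : ∀ g : E ≃+* E, {a | gg τ₀ g (σ a) ∈ Φ (t a).1}.ncard = n)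
    (h0 : ∀ i, (t (Sum.inl i)).2 ∈ Φ (t (Sum.inl i)).1)
    (h1 : ∀ i, (t (Sum.inr i)).2 ∉ Φ (t (Sum.inr i)).1) :
    ee t ∈ Submodule.span ℂ (BallCl (n := n) (K := fun _ : ι => E) Φ) := by
  classical
  obtain ⟨c, hc, hcc⟩ := H.exists_conj
  have := H.real
  -- values at `v₁`
  have hv1 : ∀ a, sv F δ τ₀ (Φ (t a).1) (σ a) v₁ = true ↔ (t a).2 ∈ Φ (t a).1 := by
    intro a
    have := sv_iff H (Φ (t a).1) (σ a) (RingEquiv.refl E) (v := v₁) H.above H.upper
    rw [this, hσ a]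
    have e : gg τ₀ (RingEquiv.refl E) (σ a) = τ₀.comp (σ a : E →+* E) := by
      ext x; rfl
    rw [e]
  have hfalse : ∀ a, (t a).2 ∉ Φ (t a).1 → sv F δ τ₀ (Φ (t a).1) (σ a) v₁ = false := by
    intro a ha
    rw [← hv1] at ha
    exact Bool.eq_false_iff.2 ha
  obtain ⟨h, Γ, a, b, φ, ψ, hs1, hs2, hs3, hab, hsg, hSB, hAr, hCo, hcl, ⟨χ, hχ⟩,
    hint⟩ := hS F v₁ D n (fun i => sv F δ τ₀ (Φ (t (Sum.inl i)).1) (σ (Sum.inl i)))
      (fun i => sv F δ τ₀ (Φ (t (Sum.inr i)).1) (σ (Sum.inr i))) H.int H.pos H.two hn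
      (fun i => (hv1 _).2 (h0 i)) (fun i => hfalse _ (h1 i)) (by
        intro v
        obtain ⟨g, hg1, hg2⟩ := exists_place H v
        refine Eq.trans ?_ (hb g)
        refine (ncard_two _ _ _ ?_ ?_).symm
        · intro i
          exact sv_iff H (Φ (t (Sum.inl i)).1) (σ (Sum.inl i)) g hg1 hg2
        · intro i
          exact sv_iff H (Φ (t (Sum.inr i)).1) (σ (Sum.inr i)) g hg1 hg2)
  have hh : Sig v₁ h := ⟨hs1, hs2, hs3⟩
  -- the rows
  let row : Two n → (Fin n → ℂ) → Two n → ℂ := fun s y =>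
    (Sum.elim (fun i => Sum.elim (fun j => theta v₁ D h (a i) (φ i) j y) (0 : Fin n → ℂ))
      (fun i => Sum.elim (0 : Fin n → ℂ) (fun j => conj (theta v₁ D h (b i) (ψ i) j y))) :
      Two n → Two n → ℂ) s
  have hrow : ∀ s, ∃ (J : ℕ) (c : Fin J → ℂ) (f : Fin J → (E →+* ℂ) → (Fin n → ℂ) → ℂ)
      (ℓ : Fin J → SLn n → E), (∀ j, IsMap (ev v₁ h) Γ (Φ (t s).1) (f j) (ℓ j)) ∧
      ∀ y ∈ ball (ev v₁ h), row s y = ∑ j, c j • pull (Φ (t s).1) (f j) (t s).2 y := by
    rintro (i | i)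
    · obtain ⟨J, c', f, l, hm, ht⟩ := theta_pull H p2 (hΦ (t (Sum.inl i)).1) hn hh hAr (hab i).1
        (hSB i).1 (hcl i).2.2.1 (hsg i).1
      refine ⟨J, c', f, l, hm, fun y hy => ?_⟩
      rw [← hσ] at ht
      funext j
      rw [Finset.sum_apply]
      have e : ∀ s, pull (Φ (t (Sum.inl i)).1) (f s) (t (Sum.inl i)).2 y =
          Sum.elim (fun j => fderiv ℂ (f s (t (Sum.inl i)).2) y (Pi.single j 1))
            (0 : Fin n → ℂ) := fun s => if_pos (h0 i)
      simp only [e, Pi.smul_apply, smul_eq_mul]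
      rcases j with j | j
      · exact ht y hy j
      · change (0 : ℂ) = ∑ s, c' s * 0
        simp
    · obtain ⟨J, c', f, l, hm, ht⟩ := theta_pull H p2 (hΦ (t (Sum.inr i)).1) hn hh hAr (hab i).2
        (hSB i).2 (hcl i).2.2.2 ((hsg i).2.trans (bar_sv H hc (hΦ _) _))
      refine ⟨J, fun s => conj (c' s), f, l, hm, fun y hy => ?_⟩
      have hcj : τ₀.comp ((σ (Sum.inr i)).trans c : E →+* E) = cj (t (Sum.inr i)).2 := by
        rw [hσ (Sum.inr i)]
        ext x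
        have h4 := congrArg (fun k : E →+* ℂ => k (σ (Sum.inr i) x)) (hc τ₀)
        simp only [cj_apply, RingHom.comp_apply, RingHom.coe_coe] at h4
        simp only [cj_apply, RingHom.comp_apply, RingHom.coe_coe, RingEquiv.coe_trans,
          Function.comp_apply]
        exact h4.symm
      rw [hcj] at ht
      funext j
      rw [Finset.sum_apply]
      have e : ∀ s, pull (Φ (t (Sum.inr i)).1) (f s) (t (Sum.inr i)).2 y =
          Sum.elim (0 : Fin n → ℂ)
            (fun j => conj (fderiv ℂ (f s (cj (t (Sum.inr i)).2)) y (Pi.single j 1))) :=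
        fun s => if_neg (h1 i)
      simp only [e, Pi.smul_apply, smul_eq_mul]
      rcases j with j | j
      · change (0 : ℂ) = ∑ s, conj (c' s) * 0
        simp
      · change conj (theta v₁ D h (b i) (ψ i) j y) = ∑ s, conj (c' s) *
          conj (fderiv ℂ (f s (cj (t (Sum.inr i)).2)) y (Pi.single j 1))
        rw [ht y hy j, map_sum]
        simp only [map_mul]
  choose J cc f l hm hr using hrow
  have hdet : ∀ y, Matrix.det (Matrix.of fun s => row s y) =
      wedge (fun i => theta v₁ D h (a i) (φ i)) y *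
        conj (wedge (fun i => theta v₁ D h (b i) (ψ i)) y) := by
    intro y
    refine (det_rows _ _).trans ?_
    congr 1
    unfold wedge
    rw [RingHom.map_det]
    rfl
  have h3 := hint χ hχ
  have h4 : ∫ y : Fin n → ℂ, (χ y : ℂ) * Matrix.det (Matrix.of fun s => row s y) ≠ 0 := by
    simp only [hdet]
    exact h3
  rw [int_det_sum hχ (J := fun s => Fin (J s)) row cc
    (fun s j y => pull (Φ (t s).1) (f s j) (t s).2 y) (fun y hy s => hr s y hy)
    (fun s j _ => pull_cont (hΦ _) (hm s j) _)] at h4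
  obtain ⟨r, -, hr'⟩ := Finset.exists_ne_zero_of_sum_ne_zero h4
  have h5 := right_ne_zero_of_mul hr'
  refine Submodule.span_mono ?_ (ee_mem hΦ hχ (fun s => hm s (r s)) h5)
  rintro _ ⟨x, rfl⟩
  exact ⟨F, inferInstance, inferInstance, v₁, D, h, Γ, χ, _, _, H.real, H.int, H.pos, hh, hAr,
    hCo, hχ, fun j => isMap_fx (i := fun s => (t s).1) (fun s => hm s (r s)) (fun s => (x s).2) j,
    rfl⟩

/-- all Hodge classes, in the case of one Galois CM field -/
theorem hodgeE (hS : QUOT) (p2 : P2) (H : CMData F E D δ v₁ τ₀) {ι : Type} [Finite ι]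
    {Φ : ι → Set (E →+* ℂ)} (hΦ : ∀ i, IsCMType (Φ i)) {n : ℕ} (hn : 0 < n)
    {u : (Two n → Idx fun _ : ι => E) → ℂ} (hu : u ∈ HQ (fun _ : ι => E) n)
    (hH : IsHodge Φ u) : u ∈ Submodule.span ℂ (BallCl (n := n) (K := fun _ : ι => E) Φ) := by
  classical
  refine mem_of_alt (alt_of_mem hu) fun t ht => ?_
  choose σ hσ using fun a => H.exists_gal (t a).2
  have e0 : ∀ a, gg τ₀ (RingEquiv.refl E) (σ a) = (t a).2 := by
    intro a
    rw [hσ a]
    ext x; rfl
  -- all conjugates are of type `(n,n)`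
  have hb : ∀ g : E ≃+* E, {a | gg τ₀ g (σ a) ∈ Φ (t a).1}.ncard = n := by
    intro g
    obtain ⟨U, hU⟩ := gal_of_mem τ₀ hu (fun a => (t a).1) σ
    have h1 : u t = τ₀ U := by
      have := hU (RingEquiv.refl E)
      simp only [e0] at this
      exact this
    have h2 : U ≠ 0 := by
      rintro rfl
      exact ht (by rw [h1, map_zero])
    have h3 : u (fun a => ⟨(t a).1, gg τ₀ g (σ a)⟩) ≠ 0 := by
      rw [hU g]
      intro h
      exact h2 (g.injective (τ₀.injective (by rw [h, map_zero, map_zero])))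
    by_contra h4
    exact h3 (hH _ h4)
  -- sort
  have hcard : {a | (t a).2 ∈ Φ (t a).1}.ncard = n := by
    have h1 := hb (RingEquiv.refl E)
    simp only [e0] at h1
    exact h1
  obtain ⟨π, q0, q1⟩ := exists_sort _ hcard
  have h5 : ee (t ∘ π) ∈ Submodule.span ℂ (BallCl (n := n) (K := fun _ : ι => E) Φ) := by
    refine ee_mem_sorted hS p2 H hΦ hn (σ := σ ∘ π) (fun a => hσ (π a)) ?_ q0 q1
    intro g
    have h6 := hb g
    have h7 : {a | gg τ₀ g ((σ ∘ π) a) ∈ Φ ((t ∘ π) a).1} =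
        π ⁻¹' {a | gg τ₀ g (σ a) ∈ Φ (t a).1} := rfl
    rw [h7, Set.ncard_preimage_of_injective_subset_range π.injective]
    · exact h6
    · intro a _
      exact ⟨π.symm a, by simp⟩
  rw [ee_comp] at h5
  have h6 : ((Equiv.Perm.sign π : ℤ) : ℂ) * ((Equiv.Perm.sign π : ℤ) : ℂ) = 1 := by
    rcases Int.units_eq_one_or (Equiv.Perm.sign π) with h | h <;> simp [h]
  have h7 : ee t = ((Equiv.Perm.sign π : ℤ) : ℂ) • (((Equiv.Perm.sign π : ℤ) : ℂ) • ee t) := by
    rw [smul_smul, h6, one_smul]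
  rw [h7]
  exact Submodule.smul_mem _ _ h5

end Pool.Agent.HCM
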