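import Mathlib

/-!
# Holomorphic functions of several variables: the derivatives are holomorphic (helper51)
-/

open Complex Metric Set Filter Topology MeasureTheory

namespace Pool.Agent.HCM

noncomputable section

variable {n : ℕ}

/-- Cauchy's formula for directional derivatives -/
theorem cauchy_dir {U : Set (Fin n → ℂ)} (hU : IsOpen U) {f : (Fin n → ℂ) → ℂ}
    (hf : DifferentiableOn ℂ f U) {y v : Fin n → ℂ} {r : ℝ} (hr : 0 < r)
    (h : ∀ ζ : ℂ, ‖ζ‖ ≤ r → y + ζ • v ∈ U) :
    fderiv ℂ f y v = ∫ θ in (0 : ℝ)..2 * Real.pi,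
      ((2 * Real.pi * I : ℂ)⁻¹ * (deriv (circleMap 0 r) θ * ((circleMap 0 r θ) ^ 2)⁻¹)) *
        f (y + circleMap 0 r θ • v) := by
  have hy : y ∈ U := by simpa using h 0 (by simp [hr.le])
  let g : ℂ → ℂ := fun ζ => f (y + ζ • v)
  have hl : ∀ ζ : ℂ, HasDerivAt (fun ζ : ℂ => y + ζ • v) v ζ := by
    intro ζ
    have := ((hasDerivAt_id ζ).smul_const v).const_add y
    simpa using this
  let W : Set ℂ := (fun ζ : ℂ => y + ζ • v) ⁻¹' U
  have hW : IsOpen W := hU.preimage (by fun_prop)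
  have hgd : DifferentiableOn ℂ g W := by
    intro ζ hζ
    have h1 := (hf.differentiableAt (hU.mem_nhds hζ)).hasFDerivAt
    exact (h1.comp_hasDerivAt ζ (hl ζ)).differentiableAt.differentiableWithinAt
  have hsub : closedBall (0 : ℂ) r ⊆ W := by
    intro ζ hζ
    exact h ζ (by simpa using hζ)
  have h1 := two_pi_I_inv_smul_circleIntegral_sub_sq_inv_smul_of_differentiable hW hsub hgd
    (mem_ball_self hr)
  have h2 : deriv g 0 = fderiv ℂ f y v := by
    have h3 : HasFDerivAt f (fderiv ℂ f y) (y + (0 : ℂ) • v) := by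
      rw [zero_smul, add_zero]
      exact (hf.differentiableAt (hU.mem_nhds hy)).hasFDerivAt
    exact (h3.comp_hasDerivAt (0 : ℂ) (hl 0)).deriv
  rw [← h2, ← h1, circleIntegral]
  rw [← intervalIntegral.integral_smul]
  refine intervalIntegral.integral_congr fun θ _ => ?_
  simp only [smul_eq_mul, sub_zero, g]
  ring

theorem exists_radius {U : Set (Fin n → ℂ)} (hU : IsOpen U) {y₀ : Fin n → ℂ} (hy : y₀ ∈ U)
    (v : Fin n → ℂ) : ∃ R : ℝ, 0 < R ∧ closedBall y₀ (2 * R) ⊆ U ∧ ∃ r : ℝ, 0 < r ∧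
      ∀ y ∈ ball y₀ R, ∀ ζ : ℂ, ‖ζ‖ ≤ r → y + ζ • v ∈ closedBall y₀ (2 * R) := by
  obtain ⟨ε, hε, hεU⟩ := Metric.isOpen_iff.1 hU y₀ hy
  refine ⟨ε / 4, by positivity, ?_, ε / 4 / (1 + ‖v‖), by positivity, ?_⟩
  · intro z hz
    apply hεU
    rw [mem_closedBall] at hz
    rw [mem_ball]
    linarith
  · intro y hy' ζ hζ
    rw [mem_ball, dist_eq_norm] at hy'
    rw [mem_closedBall, dist_eq_norm]
    have h1 : ‖ζ • v‖ ≤ ε / 4 := by
      rw [norm_smul]
      have h2 : ‖ζ‖ * ‖v‖ ≤ ε / 4 / (1 + ‖v‖) * (1 + ‖v‖) := by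
        apply mul_le_mul hζ (by linarith [norm_nonneg v]) (norm_nonneg _) (by positivity)
      rwa [div_mul_cancel₀ _ (by positivity)] at h2
    calc ‖y + ζ • v - y₀‖ = ‖(y - y₀) + ζ • v‖ := by congr 1; abel
      _ ≤ ‖y - y₀‖ + ‖ζ • v‖ := norm_add_le _ _
      _ ≤ 2 * (ε / 4) := by linarith

/-- the coefficient in Cauchy's formula -/
def cc (r : ℝ) (θ : ℝ) : ℂ :=
  (2 * Real.pi * I : ℂ)⁻¹ * (deriv (circleMap 0 r) θ * ((circleMap 0 r θ) ^ 2)⁻¹)

theorem cc_cont {r : ℝ} (hr : 0 < r) : Continuous (cc r) := by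
  unfold cc
  have h1 : ∀ θ, circleMap (0 : ℂ) r θ ≠ 0 := by
    intro θ
    exact circleMap_ne_center hr.ne'
  simp only [deriv_circleMap]
  exact continuous_const.mul (((continuous_circleMap 0 r).mul continuous_const).mul
    (((continuous_circleMap 0 r).pow 2).inv₀ fun θ => pow_ne_zero _ (h1 θ)))

theorem circ_le {r : ℝ} (hr : 0 < r) (θ : ℝ) : ‖circleMap (0 : ℂ) r θ‖ ≤ r := by
  rw [norm_circleMap_zero, abs_of_pos hr]

/-- directional derivatives are continuous -/
theorem continuousOn_dir {U : Set (Fin n → ℂ)} (hU : IsOpen U) {f : (Fin n → ℂ) → ℂ}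
    (hf : DifferentiableOn ℂ f U) (v : Fin n → ℂ) :
    ContinuousOn (fun y => fderiv ℂ f y v) U := by
  intro y₀ hy₀
  apply ContinuousAt.continuousWithinAt
  obtain ⟨R, hR, hRU, r, hr, hyr⟩ := exists_radius hU hy₀ v
  have hcpt : IsCompact (closedBall y₀ (2 * R)) := isCompact_closedBall _ _
  obtain ⟨C, hC⟩ := hcpt.exists_bound_of_continuousOn (hf.continuousOn.mono hRU)
  obtain ⟨C', hC'⟩ := isCompact_uIcc.exists_bound_of_continuousOn
    (f := cc r) (s := uIcc (0 : ℝ) (2 * Real.pi)) (cc_cont hr).continuousOn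
  have hC0 : 0 ≤ C := (norm_nonneg _).trans (hC y₀ (mem_closedBall_self (by positivity)))
  have hin : ∀ y ∈ ball y₀ R, ∀ θ : ℝ, y + circleMap 0 r θ • v ∈ closedBall y₀ (2 * R) :=
    fun y hy θ => hyr y hy _ (circ_le hr θ)
  have hcn : ∀ y ∈ ball y₀ R, Continuous fun θ : ℝ => f (y + circleMap 0 r θ • v) := by
    intro y hy
    rw [continuous_iff_continuousAt]
    intro θ
    have h1 : ContinuousAt f (y + circleMap 0 r θ • v) :=
      hf.continuousOn.continuousAt (hU.mem_nhds (hRU (hin y hy θ)))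
    exact ContinuousAt.comp (f := fun θ : ℝ => y + circleMap 0 r θ • v) h1
      (continuous_const.add ((continuous_circleMap 0 r).smul continuous_const)).continuousAt
  have key : ContinuousAt (fun y => ∫ θ in (0 : ℝ)..2 * Real.pi,
      cc r θ * f (y + circleMap 0 r θ • v)) y₀ := by
    refine intervalIntegral.continuousAt_of_dominated_interval (bound := fun _ => C' * C) ?_ ?_ ?_ ?_
    · filter_upwards [ball_mem_nhds y₀ hR] with y hy
      exact (((cc_cont hr).mul (hcn y hy)).aestronglyMeasurable)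
    · filter_upwards [ball_mem_nhds y₀ hR] with y hy
      filter_upwards with θ hθ
      rw [norm_mul]
      exact mul_le_mul (hC' θ (uIoc_subset_uIcc hθ)) (hC _ (hin y hy θ)) (norm_nonneg _)
        ((norm_nonneg _).trans (hC' θ (uIoc_subset_uIcc hθ)))
    · exact intervalIntegrable_const
    · filter_upwards with θ hθ
      have h1 : ContinuousAt f (y₀ + circleMap 0 r θ • v) :=
        hf.continuousOn.continuousAt (hU.mem_nhds (hRU (hin y₀ (mem_ball_self hR) θ)))
      exact continuousAt_const.mul (ContinuousAt.comp (f := fun y => y + circleMap 0 r θ • v) h1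
        (by fun_prop))
  refine key.congr ?_
  filter_upwards [ball_mem_nhds y₀ hR] with y hy
  exact (cauchy_dir hU hf hr fun ζ hζ => hRU (hyr y hy ζ hζ)).symm

/-- the derivative is continuous -/
theorem continuousOn_fderiv {U : Set (Fin n → ℂ)} (hU : IsOpen U) {f : (Fin n → ℂ) → ℂ}
    (hf : DifferentiableOn ℂ f U) : ContinuousOn (fderiv ℂ f) U :=
  continuousOn_clm_apply.2 fun v => continuousOn_dir hU hf v

/-- **the directional derivatives of a holomorphic function are holomorphic** -/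
theorem differentiableOn_dir {U : Set (Fin n → ℂ)} (hU : IsOpen U) {f : (Fin n → ℂ) → ℂ}
    (hf : DifferentiableOn ℂ f U) (v : Fin n → ℂ) :
    DifferentiableOn ℂ (fun y => fderiv ℂ f y v) U := by
  intro y₀ hy₀
  apply DifferentiableAt.differentiableWithinAt
  obtain ⟨R, hR, hRU, r, hr, hyr⟩ := exists_radius hU hy₀ v
  have hcpt : IsCompact (closedBall y₀ (2 * R)) := isCompact_closedBall _ _
  obtain ⟨C, hC⟩ := hcpt.exists_bound_of_continuousOn ((continuousOn_fderiv hU hf).mono hRU)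
  obtain ⟨C', hC'⟩ := isCompact_uIcc.exists_bound_of_continuousOn
    (f := cc r) (s := uIcc (0 : ℝ) (2 * Real.pi)) (cc_cont hr).continuousOn
  have hin : ∀ y ∈ ball y₀ R, ∀ θ : ℝ, y + circleMap 0 r θ • v ∈ closedBall y₀ (2 * R) :=
    fun y hy θ => hyr y hy _ (circ_le hr θ)
  have hcl : ∀ y, Continuous fun θ : ℝ => y + circleMap 0 r θ • v := fun y =>
    continuous_const.add ((continuous_circleMap 0 r).smul continuous_const)
  have hcn : ∀ y ∈ ball y₀ R, Continuous fun θ : ℝ => f (y + circleMap 0 r θ • v) := by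
    intro y hy
    rw [continuous_iff_continuousAt]
    intro θ
    have h1 : ContinuousAt f (y + circleMap 0 r θ • v) :=
      hf.continuousOn.continuousAt (hU.mem_nhds (hRU (hin y hy θ)))
    exact ContinuousAt.comp (f := fun θ : ℝ => y + circleMap 0 r θ • v) h1 (hcl y).continuousAt
  have hcn' : Continuous fun θ : ℝ => fderiv ℂ f (y₀ + circleMap 0 r θ • v) := by
    rw [continuous_iff_continuousAt]
    intro θ
    have h1 : ContinuousAt (fderiv ℂ f) (y₀ + circleMap 0 r θ • v) :=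
      (continuousOn_fderiv hU hf).continuousAt (hU.mem_nhds (hRU (hin y₀ (mem_ball_self hR) θ)))
    exact ContinuousAt.comp (f := fun θ : ℝ => y₀ + circleMap 0 r θ • v) h1 (hcl y₀).continuousAt
  have key := intervalIntegral.hasFDerivAt_integral_of_dominated_of_fderiv_le
    (𝕜 := ℂ) (a := 0) (b := 2 * Real.pi) (μ := volume) (x₀ := y₀)
    (F := fun y θ => cc r θ * f (y + circleMap 0 r θ • v))
    (F' := fun y θ => cc r θ • fderiv ℂ f (y + circleMap 0 r θ • v))
    (bound := fun _ => C' * C) (s := ball y₀ R) (ball_mem_nhds y₀ hR) ?_ ?_ ?_ ?_ ?_ ?_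
  · refine key.differentiableAt.congr_of_eventuallyEq ?_
    filter_upwards [ball_mem_nhds y₀ hR] with y hy
    exact cauchy_dir hU hf hr fun ζ hζ => hRU (hyr y hy ζ hζ)
  · filter_upwards [ball_mem_nhds y₀ hR] with y hy
    exact (((cc_cont hr).mul (hcn y hy)).aestronglyMeasurable)
  · exact ((cc_cont hr).mul (hcn y₀ (mem_ball_self hR))).intervalIntegrable _ _
  · exact ((cc_cont hr).smul hcn').aestronglyMeasurable
  · filter_upwards with θ hθ y hy
    rw [norm_smul]
    exact mul_le_mul (hC' θ (uIoc_subset_uIcc hθ)) (hC _ (hin y hy θ)) (norm_nonneg _)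
      ((norm_nonneg _).trans (hC' θ (uIoc_subset_uIcc hθ)))
  · exact intervalIntegrable_const
  · filter_upwards with θ hθ y hy
    have h1 : HasFDerivAt f (fderiv ℂ f (y + circleMap 0 r θ • v)) (y + circleMap 0 r θ • v) :=
      (hf.differentiableAt (hU.mem_nhds (hRU (hin y hy θ)))).hasFDerivAt
    have h2 : HasFDerivAt (fun y : Fin n → ℂ => y + circleMap 0 r θ • v)
        (ContinuousLinearMap.id ℂ (Fin n → ℂ)) y := (hasFDerivAt_id y).add_const _
    have h3 := (h1.comp y h2).const_mul (cc r θ)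
    rw [ContinuousLinearMap.comp_id] at h3
    exact h3

end

end Pool.Agent.HCM
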