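import Pool.Agent.Lib.HCM.Cmp
import Pool.Agent.Lib.HCM.Osg

/-!
# Holomorphic maps from ball quotients to products of CM tori, and their classes (helper51)
-/

open scoped ComplexConjugate Matrix
open Complex MeasureTheory Pool.Agent.CMN

namespace Pool.Agent.HCM

noncomputable section

section lemmas

variable {n : ℕ} {k : Fin (n + 1) → ℝ} {Γ : Subgroup (SLn n)}

theorem isOpen_ball' (k : Fin (n + 1) → ℝ) : IsOpen (ball k) := by
  unfold ball
  exact isOpen_lt (by fun_prop) continuous_const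

/-- the pulled back forms are continuous on the ball -/
theorem pull_cont {E : Type} [Field E] {Φ : Set (E →+* ℂ)} (hΦ : IsCMType Φ)
    {f : (E →+* ℂ) → (Fin n → ℂ) → ℂ} {ℓ : SLn n → E} (hf : IsMap k Γ Φ f ℓ) (τ : E →+* ℂ) :
    ContinuousOn (pull Φ f τ) (ball k) := by
  have hd : ∀ τ' ∈ Φ, ∀ v : Fin n → ℂ, ContinuousOn (fun y => fderiv ℂ (f τ') y v) (ball k) := by
    intro τ' hτ' v
    exact continuousOn_dir (isOpen_ball' k) (hf.hol τ' hτ') v
  rw [continuousOn_pi]
  intro a
  by_cases hτ : τ ∈ Φ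
  · simp only [pull, if_pos hτ]
    rcases a with a | a
    · exact hd τ hτ _
    · exact continuousOn_const
  · have hτ' : cj τ ∈ Φ := (hΦ τ).2 hτ
    simp only [pull, if_neg hτ]
    rcases a with a | a
    · exact continuousOn_const
    · exact (Complex.continuous_conj.comp_continuousOn (hd _ hτ' _))

/-- linear combinations of maps -/
theorem pull_sum {E : Type} [Field E] {Φ : Set (E →+* ℂ)} (hΦ : IsCMType Φ)
    {S : Type} [Fintype S] {f : (E →+* ℂ) → (Fin n → ℂ) → ℂ}
    (c : (E →+* ℂ) → S → ℂ) (F : (E →+* ℂ) → S → (Fin n → ℂ) → ℂ)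
    (τ : E →+* ℂ) {y : Fin n → ℂ}
    (hf : ∀ τ' ∈ Φ, ∀ z, f τ' z = ∑ s, c τ' s * F τ' s z)
    (hF : ∀ τ' ∈ Φ, ∀ s, c τ' s ≠ 0 → DifferentiableAt ℂ (F τ' s) y) (P : S → Two n → ℂ)
    (hP1 : τ ∈ Φ → ∀ s, c τ s ≠ 0 →
      P s = Sum.elim (fun j => fderiv ℂ (F τ s) y (Pi.single j 1)) (0 : Fin n → ℂ))
    (hP2 : τ ∉ Φ → ∀ s, c (cj τ) s ≠ 0 →
      P s = Sum.elim (0 : Fin n → ℂ)
        (fun j => conj (fderiv ℂ (F (cj τ) s) y (Pi.single j 1)))) (d : S → ℂ)
    (hd1 : τ ∈ Φ → ∀ s, d s = c τ s) (hd2 : τ ∉ Φ → ∀ s, d s = conj (c (cj τ) s)) :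
    pull Φ f τ y = ∑ s, d s • P s := by
  classical
  have hd : ∀ τ' ∈ Φ, ∀ v : Fin n → ℂ, fderiv ℂ (f τ') y v =
      ∑ s, c τ' s * fderiv ℂ (F τ' s) y v := by
    intro τ' hτ' v
    have h1 : HasFDerivAt (f τ') (∑ s, c τ' s • fderiv ℂ (F τ' s) y) y := by
      have e : f τ' = fun z => ∑ s, c τ' s * F τ' s z := funext (hf τ' hτ')
      rw [e]
      refine HasFDerivAt.fun_sum fun s _ => ?_
      by_cases h : c τ' s = 0
      · rw [h]
        have h5 : HasFDerivAt (fun _ : Fin n → ℂ => (0 : ℂ)) (0 : (Fin n → ℂ) →L[ℂ] ℂ) y :=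
          hasFDerivAt_const 0 y
        have e1 : (fun z => 0 * F τ' s z) = fun _ => (0 : ℂ) := by funext z; exact zero_mul _
        have e2 : (0 : ℂ) • fderiv ℂ (F τ' s) y = (0 : (Fin n → ℂ) →L[ℂ] ℂ) := by
          ext v
          exact zero_mul _
        rw [e1, e2]
        exact h5
      · exact (hF τ' hτ' s h).hasFDerivAt.const_mul _
    rw [h1.fderiv, sum_apply]
    rfl
  by_cases hτ : τ ∈ Φ
  · simp only [pull, if_pos hτ]
    funext a
    rw [Finset.sum_apply]
    rcases a with a | a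
    · refine (hd τ hτ _).trans (Finset.sum_congr rfl fun s _ => ?_)
      rw [Pi.smul_apply, smul_eq_mul, hd1 hτ]
      by_cases h : c τ s = 0
      · rw [h, zero_mul, zero_mul]
      · rw [hP1 hτ s h]; rfl
    · refine Eq.symm (Finset.sum_eq_zero fun s _ => ?_)
      rw [Pi.smul_apply, smul_eq_mul, hd1 hτ]
      by_cases h : c τ s = 0
      · rw [h, zero_mul]
      · rw [hP1 hτ s h]; exact mul_zero _
  · have hτ' : cj τ ∈ Φ := (hΦ τ).2 hτ
    simp only [pull, if_neg hτ]
    funext a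
    rw [Finset.sum_apply]
    rcases a with a | a
    · refine Eq.symm (Finset.sum_eq_zero fun s _ => ?_)
      rw [Pi.smul_apply, smul_eq_mul, hd2 hτ]
      by_cases h : c (cj τ) s = 0
      · rw [h, map_zero, zero_mul]
      · rw [hP2 hτ s h]; exact mul_zero _
    · change conj (fderiv ℂ (f (cj τ)) y (Pi.single a 1)) = _
      rw [hd _ hτ', map_sum]
      refine Finset.sum_congr rfl fun s _ => ?_
      rw [Pi.smul_apply, smul_eq_mul, hd2 hτ, map_mul]
      by_cases h : c (cj τ) s = 0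
      · rw [h, map_zero, zero_mul, zero_mul]
      · rw [hP2 hτ s h]; rfl

/-- integrability against a weight -/
theorem int_wt {χ : (Fin n → ℂ) → ℝ} (hχ : IsWt k Γ χ) {g : (Fin n → ℂ) → ℂ}
    (hg : ContinuousOn g (ball k)) : Integrable (fun y => (χ y : ℂ) * g y) := by
  have hcs : HasCompactSupport (fun y => (χ y : ℂ)) :=
    hχ.comp.comp_left (g := fun r : ℝ => (r : ℂ)) rfl
  have hcs2 : HasCompactSupport (fun y => (χ y : ℂ) * g y) := hcs.mul_right
  have hsub : tsupport (fun y => (χ y : ℂ) * g y) ⊆ ball k := by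
    refine subset_trans (tsupport_mul_subset_left) ?_
    refine subset_trans ?_ hχ.supp
    apply closure_mono
    intro y hy
    simp only [Function.mem_support, ne_eq, ofReal_eq_zero] at hy ⊢
    exact hy
  have hc : ContinuousOn (fun y => (χ y : ℂ) * g y) (ball k) :=
    (Complex.continuous_ofReal.comp hχ.cont).continuousOn.mul hg
  exact (hc.continuous_of_tsupport_subset (isOpen_ball' k) hsub).integrable_of_hasCompactSupport hcs2

theorem wt_zero {χ : (Fin n → ℂ) → ℝ} (hχ : IsWt k Γ χ) {y : Fin n → ℂ} (hy : y ∉ ball k) :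
    χ y = 0 := by
  by_contra h
  exact hy (hχ.supp (subset_tsupport _ h))

/-- expansion of the integral of a determinant -/
theorem int_det_sum {χ : (Fin n → ℂ) → ℝ} (hχ : IsWt k Γ χ) {J : Two n → Type}
    [∀ a, Fintype (J a)] [∀ a, DecidableEq (J a)] (R : Two n → (Fin n → ℂ) → Two n → ℂ)
    (c : ∀ a, J a → ℂ) (v : ∀ a, J a → (Fin n → ℂ) → Two n → ℂ)
    (hR : ∀ y ∈ ball k, ∀ a, R a y = ∑ s, c a s • v a s y)
    (hv : ∀ a s, c a s ≠ 0 → ContinuousOn (v a s) (ball k)) :
    ∫ y : Fin n → ℂ, (χ y : ℂ) * Matrix.det (Matrix.of fun a => R a y) =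
      ∑ r : ∀ a, J a, (∏ a, c a (r a)) *
        ∫ y : Fin n → ℂ, (χ y : ℂ) * Matrix.det (Matrix.of fun a => v a (r a) y) := by
  have e1 : ∀ y, (χ y : ℂ) * Matrix.det (Matrix.of fun a => R a y) =
      ∑ r : ∀ a, J a, (∏ a, c a (r a)) *
        ((χ y : ℂ) * Matrix.det (Matrix.of fun a => v a (r a) y)) := by
    intro y
    by_cases hy : y ∈ ball k
    · have e2 : (Matrix.of fun a => R a y) = Matrix.of fun a => ∑ s, c a s • v a s y := by
        funext a
        exact hR y hy a
      rw [e2, det_rows_sum, Finset.mul_sum]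
      refine Finset.sum_congr rfl fun r _ => ?_
      ring
    · simp [wt_zero hχ hy]
  simp only [e1]
  rw [integral_finsetSum]
  · refine Finset.sum_congr rfl fun r _ => ?_
    rw [integral_const_mul]
  · intro r _
    by_cases h : ∏ a, c a (r a) = 0
    · simp only [h, zero_mul]
      exact integrable_zero _ _ _
    · apply Integrable.const_mul
      refine int_wt hχ ?_
      have h2 : Continuous fun M : Matrix (Two n) (Two n) ℂ => M.det :=
        Continuous.matrix_det continuous_id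
      refine h2.comp_continuousOn (s := ball k)
        (f := fun y => Matrix.of fun a => v a (r a) y) ?_
      refine continuousOn_pi.2 fun a => ?_
      exact hv a (r a) (fun h3 => h (Finset.prod_eq_zero (Finset.mem_univ a) h3))

end lemmas

end

end Pool.Agent.HCM
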