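import Pool.Agent.Lib.HCM.TateGal

/-!
# Coordinates of `ℓ`-adic classes; Galois equivariance of rational classes (helper79)
-/

open scoped TensorProduct
open Complex

namespace Pool.Agent.HCM

noncomputable section

section coord

variable {L M κ : Type} [Field L] [Algebra ℚ L] [AddCommGroup M] [Module ℚ M]

open Classical in
/-- the coordinates of `c` with respect to a basis of `L` over `ℚ` -/
def coord (b : Module.Basis κ ℚ L) (c : L ⊗[ℚ] M) : κ →₀ M :=
  TensorProduct.equivFinsuppOfBasisLeft b c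

theorem coord_sum (b : Module.Basis κ ℚ L) (c : L ⊗[ℚ] M) :
    c = ∑ k ∈ (coord b c).support, b k ⊗ₜ[ℚ] coord b c k := by
  classical
  have h := (TensorProduct.equivFinsuppOfBasisLeft (N := M) b).symm_apply_apply c
  rw [TensorProduct.equivFinsuppOfBasisLeft_symm_apply] at h
  exact h.symm

theorem coord_baseChange (b : Module.Basis κ ℚ L) (f : M →ₗ[ℚ] M) (c : L ⊗[ℚ] M) (k : κ) :
    coord b (f.baseChange L c) k = f (coord b c k) := by
  classical
  unfold coord
  induction c using TensorProduct.induction_on with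
  | zero => simp
  | tmul l u =>
    rw [LinearMap.baseChange_tmul, TensorProduct.equivFinsuppOfBasisLeft_apply_tmul_apply,
      TensorProduct.equivFinsuppOfBasisLeft_apply_tmul_apply, map_smul]
  | add c c' hc hc' =>
    simp only [map_add, Finsupp.add_apply, hc, hc']

theorem coord_smul (b : Module.Basis κ ℚ L) (q : ℚ) (c : L ⊗[ℚ] M) (k : κ) :
    coord b ((q : L) • c) k = q • coord b c k := by
  classical
  unfold coord
  have h : (q : L) • c = q • c := by
    rw [← eq_ratCast (algebraMap ℚ L) q, algebraMap_smul]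
  rw [h, map_smul, Finsupp.smul_apply]

end coord

section equivariance

variable {ι : Type} {K : ι → Type} [∀ i, Field (K i)] {n : ℕ} {E : Type} [Field E]
  [NumberField E]

/-- the index given by `i` and `h` -/
def tt (j : ∀ i, K i →+* E) (τ₀ : E →+* ℂ) (i : Two n → ι) (h : Two n → (E ≃ₐ[ℚ] E)) :
    Two n → Idx K := fun a => ⟨i a, τ₀.comp ((h a : E →+* E).comp (j (i a)))⟩

theorem exists_val (j : ∀ i, K i →+* E) (τ₀ : E →+* ℂ) {u : (Two n → Idx K) → ℂ}
    (hu : u ∈ HQ K n) :
    ∃ U : (Two n → ι) → (Two n → (E ≃ₐ[ℚ] E)) → E, (∀ i h, u (tt j τ₀ i h) = τ₀ (U i h)) ∧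
      ∀ (σ : E ≃ₐ[ℚ] E) i h, U i (fun a => σ * h a) = σ (U i h) := by
  unfold HQ at hu
  induction hu using Submodule.span_induction with
  | mem u hu =>
    obtain ⟨x, rfl⟩ := hu
    refine ⟨fun i h => Matrix.det (Matrix.of fun a b => h a (j (i a) (x b (i a)))), ?_, ?_⟩
    · intro i h
      rw [RingHom.map_det]
      rfl
    · intro σ i h
      have h1 := RingHom.map_det (σ : E →+* E)
        (Matrix.of fun a b => h a (j (i a) (x b (i a))))
      exact h1.symm
  | zero =>
    refine ⟨fun _ _ => 0, fun _ _ => (map_zero τ₀).symm, fun σ _ _ => (map_zero σ).symm⟩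
  | add u v _ _ hu hv =>
    obtain ⟨U, h1, h2⟩ := hu
    obtain ⟨V, h3, h4⟩ := hv
    refine ⟨fun i h => U i h + V i h, fun i h => ?_, fun σ i h => ?_⟩
    · rw [Pi.add_apply, h1, h3, map_add]
    · simp only [h2, h4, map_add]
  | smul q u _ hu =>
    obtain ⟨U, h1, h2⟩ := hu
    refine ⟨fun i h => (q : E) * U i h, fun i h => ?_, fun σ i h => ?_⟩
    · rw [Pi.smul_apply, h1, Rat.smul_def, map_mul, map_ratCast]
    · simp only [h2, map_mul, map_ratCast]

/-- the nonzero values of a rational class are stable under the Galois group -/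
theorem ne_zero_of_gal (j : ∀ i, K i →+* E) (τ₀ : E →+* ℂ) {u : (Two n → Idx K) → ℂ}
    (hu : u ∈ HQ K n) (σ : E ≃ₐ[ℚ] E) (i : Two n → ι) (h : Two n → (E ≃ₐ[ℚ] E))
    (h0 : u (tt j τ₀ i h) ≠ 0) : u (tt j τ₀ i fun a => σ * h a) ≠ 0 := by
  obtain ⟨U, h1, h2⟩ := exists_val j τ₀ hu
  rw [h1] at h0 ⊢
  rw [h2]
  intro h3
  apply h0
  have h4 : σ (U i h) = 0 := τ₀.injective (h3.trans (map_zero τ₀).symm)
  have h5 : U i h = 0 := σ.injective (h4.trans (map_zero σ).symm)
  rw [h5, map_zero]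

theorem exists_tt [IsGalois ℚ E] [∀ i, NumberField (K i)] (j : ∀ i, K i →+* E) (τ₀ : E →+* ℂ)
    (t : Two n → Idx K) : ∃ h : Two n → (E ≃ₐ[ℚ] E),
      (∀ a, (t a).2 = τ₀.comp ((h a : E →+* E).comp (j (t a).1))) ∧
        t = tt j τ₀ (fun a => (t a).1) h := by
  have h1 : ∀ a, ∃ g : E ≃ₐ[ℚ] E, (t a).2 = τ₀.comp ((g : E →+* E).comp (j (t a).1)) :=
    fun a => exists_aut_comp (j (t a).1) τ₀ (t a).2
  choose h hh using h1
  refine ⟨h, hh, ?_⟩
  funext a
  unfold tt
  rw [← hh]

end equivariance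

end

end Pool.Agent.HCM
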