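import Pool.Agent.Lib.HCM.TateGal

/-!
# Classes of maps from ball quotients are Hodge classes (helper16)
-/

open scoped ComplexConjugate Matrix
open Complex MeasureTheory Pool.Agent.CMN

namespace Pool.Agent.HCM

noncomputable section

variable {ι : Type} {K : ι → Type} [∀ i, Field (K i)] {n : ℕ}

theorem det_pull_eq_zero (Φ : ∀ i, Set (K i →+* ℂ)) (f : ∀ i, (K i →+* ℂ) → (Fin n → ℂ) → ℂ)
    (t : Two n → Idx K) (y : Fin n → ℂ) (h : {a | (t a).2 ∈ Φ (t a).1}.ncard ≠ n) :
    Matrix.det (Matrix.of fun a => pull (Φ (t a).1) (f (t a).1) (t a).2 y) = 0 := by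
  rw [Matrix.det_apply]
  refine Finset.sum_eq_zero fun σ _ => ?_
  by_contra hne
  apply h
  have hprod : ∀ i : Two n, pull (Φ (t (σ i)).1) (f (t (σ i)).1) (t (σ i)).2 y i ≠ 0 := by
    intro i h0
    apply hne
    have : ∏ i, (Matrix.of fun a => pull (Φ (t a).1) (f (t a).1) (t a).2 y) (σ i) i = 0 :=
      Finset.prod_eq_zero (Finset.mem_univ i) h0
    rw [this, smul_zero]
  have hset : {a | (t a).2 ∈ Φ (t a).1} = σ '' Set.range (Sum.inl : Fin n → Two n) := by
    ext a
    constructor
    · intro ha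
      have ha' : (t a).2 ∈ Φ (t a).1 := ha
      have h1 := hprod (σ.symm a)
      rw [Equiv.apply_symm_apply] at h1
      unfold pull at h1
      rw [if_pos ha'] at h1
      refine ⟨σ.symm a, ?_, by simp⟩
      rcases hs : σ.symm a with j | j
      · exact ⟨j, rfl⟩
      · rw [hs] at h1
        simp at h1
    · rintro ⟨i, ⟨j, rfl⟩, rfl⟩
      by_contra ha
      have ha' : ¬ (t (σ (Sum.inl j))).2 ∈ Φ (t (σ (Sum.inl j))).1 := ha
      have h1 := hprod (Sum.inl j)
      unfold pull at h1
      rw [if_neg ha'] at h1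
      simp at h1
  rw [hset, Set.ncard_image_of_injective _ σ.injective,
    Set.ncard_range_of_injective Sum.inl_injective, Nat.card_fin]

theorem isHodge_of_mem {Φ : ∀ i, Set (K i →+* ℂ)} {u : (Two n → Idx K) → ℂ}
    (hu : u ∈ Submodule.span ℂ (BallCl Φ)) : IsHodge Φ u := by
  intro t ht
  induction hu using Submodule.span_induction with
  | mem u hu =>
    obtain ⟨F, _, _, v₁, D, h, Γ, χ, f, ℓ, -, -, -, -, -, -, -, -, rfl⟩ := hu
    unfold cls
    simp only [det_pull_eq_zero Φ f t _ ht, mul_zero, integral_zero]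
  | zero => rfl
  | add u v _ _ hu hv => rw [Pi.add_apply, hu, hv, add_zero]
  | smul c u _ hu => rw [Pi.smul_apply, hu, smul_zero]

end

end Pool.Agent.HCM
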