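import Pool.Agent.Lib.HCM.TateDefs

/-!
# The Tate conjecture for abelian varieties of CM type: the same statement, with the tensor products
written out (helper79)
-/

open scoped TensorProduct
open Complex

namespace Pool.Agent.HCM

noncomputable section

variable {ι : Type} {K : ι → Type} [∀ i, Field (K i)] {n : ℕ}

/-- `H_{2n}(A, ℚ_p) = ℚ_p ⊗ H_{2n}(A, ℚ)`. -/
def HpT (p : ℕ) [Fact p.Prime] (K : ι → Type) [∀ i, Field (K i)] (n : ℕ) : Type :=
  ℚ_[p] ⊗[ℚ] HQ K n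

section HpT

variable (p : ℕ) [Fact p.Prime]

instance instAddCommGroupHpT : AddCommGroup (HpT p K n) :=
  inferInstanceAs (AddCommGroup (ℚ_[p] ⊗[ℚ] HQ K n))

instance instModuleHpT : Module ℚ_[p] (HpT p K n) :=
  inferInstanceAs (Module ℚ_[p] (ℚ_[p] ⊗[ℚ] HQ K n))

/-- The map `H_{2n}(A, ℚ) → H_{2n}(A, ℚ_p)`. -/
def toHpT (u : HQ K n) : HpT p K n := (1 : ℚ_[p]) ⊗ₜ[ℚ] u

/-- The action of `z ∈ ∏ i, K i` on `H_{2n}(A, ℚ_p)`. -/
def endoPT (z : ∀ i, K i) (c : HpT p K n) : HpT p K n :=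
  (endo z).baseChange ℚ_[p] c

/-- The classes in `H_{2n}(A, ℚ_p)` of the holomorphic maps to `A` from compact arithmetic quotients
of the `n`-ball (smooth projective varieties, after passing to a subgroup of finite index).  The
factor `(-2i)^n` passes from the Lebesgue measure to the form
`dy_0 ∧ … ∧ dy_(n-1) ∧ conj dy_0 ∧ … ∧ conj dy_(n-1)`. -/
def BallPT (Φ : ∀ i, Set (K i →+* ℂ)) : Set (HpT p K n) :=
  {b | ∃ u : HQ K n, (∃ v ∈ BallCl Φ, (u : (Two n → Idx K) → ℂ) = (-2 * I) ^ n • v) ∧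
    b = toHpT p u}

end HpT

section reflex

variable {E : Type} [Field E] [NumberField E]

/-- Tate classes in `H_{2n}(A, ℚ_p)`: for some `m`, the reflex norm of every `x ∈ 𝓞 E` with
`x ≡ 1 mod p^m` acts on `c` by the `n`-th power of the norm of `x` (the `n`-th power of the
cyclotomic character). -/
def IsTateT (p : ℕ) [Fact p.Prime] (Φ : ∀ i, Set (K i →+* ℂ)) (j : ∀ i, K i →+* E) (τ₀ : E →+* ℂ)
    (c : HpT p K n) : Prop :=
  ∃ m : ℕ, ∀ y : E, IsIntegral ℤ y → ∀ z : ∀ i, K i,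
    IsReflexNorm Φ j τ₀ (1 + (p : E) ^ m * y) z →
      endoPT p z c = ((Algebra.norm ℚ (1 + (p : E) ^ m * y) : ℚ) : ℚ_[p]) ^ n • c

end reflex

/-- **The Tate conjecture for abelian varieties of CM type**: for every prime `p` the Tate classes in
`H_{2n}(A, ℚ_p)`, `n ≥ 1`, are exactly the `ℚ_p`-linear combinations of the classes of holomorphic
maps to `A` from compact arithmetic quotients of the `n`-ball. -/
def TATET : Prop :=
  ∀ (p : ℕ) [Fact p.Prime] (n : ℕ) (ι : Type) [Finite ι] (K : ι → Type) [∀ i, Field (K i)]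
    [∀ i, NumberField (K i)] [∀ i, NumberField.IsCMField (K i)] (Φ : ∀ i, Set (K i →+* ℂ)),
    0 < n → (∀ i, IsCMType (Φ i)) →
    ∀ (E : Type) [Field E] [NumberField E] [IsGalois ℚ E] (j : ∀ i, K i →+* E) (τ₀ : E →+* ℂ)
      (c : HpT p K n),
      IsTateT p Φ j τ₀ c ↔ c ∈ Submodule.span ℚ_[p] (BallPT p Φ)

end

end Pool.Agent.HCM
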