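import Pool.Agent.Lib.HCM.TateD
import Pool.Agent.Lib.HCM.TateE
import Pool.Agent.Lib.HCM.TateG
import Pool.Agent.Lib.HCM.TateT
import Pool.Agent.Lib.RAT.Defs

/-!
# The Tate conjecture for abelian varieties of CM type (helper79)
-/

open scoped TensorProduct
open Complex

namespace Pool.Agent.HCM

noncomputable section

section main

variable {ι : Type} {K : ι → Type} [∀ i, Field (K i)] [∀ i, NumberField (K i)] {n : ℕ}
  {E : Type} [Field E] [NumberField E] [IsGalois ℚ E]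

open Classical in
/-- the exponent of `g` in the action of a reflex norm at the index `tt j τ₀ i h` -/
def ex (Φ : ∀ i, Set (K i →+* ℂ)) (j : ∀ i, K i →+* E) (τ₀ : E →+* ℂ) (i : Two n → ι)
    (h : Two n → (E ≃ₐ[ℚ] E)) (g : E ≃ₐ[ℚ] E) : ℕ :=
  (Finset.univ.filter fun a =>
    τ₀.comp (((g⁻¹ * h a : E ≃ₐ[ℚ] E) : E →+* E).comp (j (i a))) ∈ Φ (i a)).card

omit [∀ i, NumberField (K i)] [IsGalois ℚ E] in
theorem ex_eq (Φ : ∀ i, Set (K i →+* ℂ)) (j : ∀ i, K i →+* E) (τ₀ : E →+* ℂ) (i : Two n → ι)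
    (h : Two n → (E ≃ₐ[ℚ] E)) (g : E ≃ₐ[ℚ] E) :
    ex Φ j τ₀ i h g = {a | ((tt j τ₀ i fun a => g⁻¹ * h a) a).2 ∈
      Φ ((tt j τ₀ i fun a => g⁻¹ * h a) a).1}.ncard := by
  classical
  rw [Set.ncard_eq_toFinset_card']
  unfold ex tt
  congr 1
  ext a
  simp

theorem norm_eq (τ₀ : E →+* ℂ) (x : E) :
    ((Algebra.norm ℚ x : ℚ) : ℂ) = ∏ g : E ≃ₐ[ℚ] E, τ₀ (g x) := by
  have h := congrArg τ₀ (Algebra.norm_eq_prod_automorphisms ℚ x)
  rw [map_prod, eq_ratCast, map_ratCast] at h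
  exact h

/-- a rational Hodge class is a Tate class -/
theorem endo_of_hodge (Φ : ∀ i, Set (K i →+* ℂ)) (j : ∀ i, K i →+* E) (τ₀ : E →+* ℂ)
    (u : HQ K n) (hu : IsHodge Φ (u : (Two n → Idx K) → ℂ)) (x : E) (z : ∀ i, K i)
    (hz : IsReflexNorm Φ j τ₀ x z) : endo z u = (Algebra.norm ℚ x) ^ n • u := by
  apply Subtype.ext
  funext t
  change (∏ a, (t a).2 (z (t a).1)) * (u : (Two n → Idx K) → ℂ) t =
    ((Algebra.norm ℚ x) ^ n : ℚ) • (u : (Two n → Idx K) → ℂ) t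
  by_cases h0 : (u : (Two n → Idx K) → ℂ) t = 0
  · rw [h0, mul_zero, smul_zero]
  · obtain ⟨h, ha, hh⟩ := exists_tt j τ₀ t
    have h1 := prod_reflex Φ j τ₀ x z hz t h ha
    have h2 : ∀ g : E ≃ₐ[ℚ] E, ex Φ j τ₀ (fun a => (t a).1) h g = n := by
      intro g
      rw [ex_eq]
      by_contra h3
      rw [hh] at h0
      exact ne_zero_of_gal j τ₀ u.2 g⁻¹ _ h h0 (hu _ h3)
    have h3 : ∏ a, (t a).2 (z (t a).1) = ∏ g : E ≃ₐ[ℚ] E, τ₀ (g x) ^ n := by
      rw [h1]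
      exact Finset.prod_congr rfl fun g _ => congrArg (fun k => τ₀ (g x) ^ k) (h2 g)
    rw [h3, Finset.prod_pow, ← norm_eq, Rat.smul_def, Rat.cast_pow]

/-- a rational class on which the reflex norms act by the norm is a Hodge class -/
theorem hodge_of_endo (Φ : ∀ i, Set (K i →+* ℂ)) (j : ∀ i, K i →+* E) (τ₀ : E →+* ℂ)
    (u : HQ K n) (N : ℕ) (hN : 0 < N) (hu : ∀ y : E, IsIntegral ℤ y → ∀ z : ∀ i, K i,
      IsReflexNorm Φ j τ₀ (1 + N * y) z → endo z u = (Algebra.norm ℚ (1 + N * y)) ^ n • u) :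
    IsHodge Φ (u : (Two n → Idx K) → ℂ) := by
  intro t ht
  by_contra h0
  apply ht
  obtain ⟨h, ha, hh⟩ := exists_tt j τ₀ t
  have h1 : ex Φ j τ₀ (fun a => (t a).1) h = fun _ => n := by
    apply exp_eq τ₀ N hN
    intro y hy
    obtain ⟨z, hz⟩ := exists_reflexNorm Φ j τ₀ (1 + N * y)
    have h2 := congrArg (fun w : HQ K n => (w : (Two n → Idx K) → ℂ) t) (hu y hy z hz)
    change (∏ a, (t a).2 (z (t a).1)) * (u : (Two n → Idx K) → ℂ) t =
      ((Algebra.norm ℚ (1 + N * y)) ^ n : ℚ) • (u : (Two n → Idx K) → ℂ) t at h2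
    rw [Rat.smul_def] at h2
    have h3 := mul_right_cancel₀ h0 h2
    rw [Rat.cast_pow, norm_eq τ₀, ← Finset.prod_pow] at h3
    rw [← h3]
    symm
    exact prod_reflex Φ j τ₀ _ z hz t h ha
  have h2 := congrFun h1 1
  rw [ex_eq] at h2
  have h3 : (tt j τ₀ (fun a => (t a).1) fun a => (1 : E ≃ₐ[ℚ] E)⁻¹ * h a) = t := by
    conv_rhs => rw [hh]
    simp only [inv_one, one_mul]
  rw [h3] at h2
  exact h2

end main

section span

variable {ι : Type} {K : ι → Type} [∀ i, Field (K i)] {n : ℕ}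

theorem toHpT_add (p : ℕ) [Fact p.Prime] (u v : HQ K n) : toHpT p (u + v) = toHpT p u + toHpT p v :=
  TensorProduct.tmul_add _ _ _

theorem toHpT_zero (p : ℕ) [Fact p.Prime] : toHpT p (0 : HQ K n) = 0 :=
  TensorProduct.tmul_zero _ _

theorem tmul_cast_smul (p : ℕ) [Fact p.Prime] {M : Type*} [AddCommGroup M] [Module ℚ M] (q : ℚ)
    (u : M) : (1 : ℚ_[p]) ⊗ₜ[ℚ] (q • u) = (q : ℚ_[p]) • ((1 : ℚ_[p]) ⊗ₜ[ℚ] u) := by
  rw [TensorProduct.tmul_smul, ← eq_ratCast (algebraMap ℚ ℚ_[p]) q, algebraMap_smul]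

theorem toHpT_smul (p : ℕ) [Fact p.Prime] (q : ℚ) (u : HQ K n) :
    toHpT p (q • u) = (q : ℚ_[p]) • toHpT p u :=
  tmul_cast_smul p q u

theorem endoPT_toHpT (p : ℕ) [Fact p.Prime] (z : ∀ i, K i) (u : HQ K n) :
    endoPT p z (toHpT p u) = toHpT p (endo z u) :=
  LinearMap.baseChange_tmul ..

/-- rational combinations of ball quotient classes -/
theorem toHpT_mem (p : ℕ) [Fact p.Prime] (Φ : ∀ i, Set (K i →+* ℂ)) (w : (Two n → Idx K) → ℂ)
    (hw : w ∈ Submodule.span ℚ {w | w ∈ HQ K n ∧ ∃ v ∈ BallCl Φ, w = (-2 * I) ^ n • v}) :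
    ∃ h : w ∈ HQ K n, toHpT p ⟨w, h⟩ ∈ Submodule.span ℚ_[p] (BallPT p Φ) := by
  induction hw using Submodule.span_induction with
  | mem w hw => exact ⟨hw.1, Submodule.subset_span ⟨⟨w, hw.1⟩, hw.2, rfl⟩⟩
  | zero =>
    refine ⟨Submodule.zero_mem _, ?_⟩
    have h : toHpT p (⟨0, Submodule.zero_mem _⟩ : HQ K n) = 0 := toHpT_zero p
    rw [h]
    exact Submodule.zero_mem _
  | add u v _ _ hu hv =>
    obtain ⟨hu, hu'⟩ := hu
    obtain ⟨hv, hv'⟩ := hv
    refine ⟨Submodule.add_mem _ hu hv, ?_⟩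
    have h : toHpT p (⟨u + v, Submodule.add_mem _ hu hv⟩ : HQ K n) =
      toHpT p ⟨u, hu⟩ + toHpT p ⟨v, hv⟩ := toHpT_add p ⟨u, hu⟩ ⟨v, hv⟩
    rw [h]
    exact Submodule.add_mem _ hu' hv'
  | smul q u _ hu =>
    obtain ⟨hu, hu'⟩ := hu
    refine ⟨Submodule.smul_mem _ q hu, ?_⟩
    have h : toHpT p (⟨q • u, Submodule.smul_mem _ q hu⟩ : HQ K n) =
      (q : ℚ_[p]) • toHpT p ⟨u, hu⟩ := toHpT_smul p q ⟨u, hu⟩
    rw [h]
    exact Submodule.smul_mem _ _ hu'

end span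

/-- **The Tate conjecture for abelian varieties of CM type**, from the Hodge conjecture for them. -/
theorem tateT_of (hodge : Pool.Agent.RAT.HODGEQ) : TATET := by
  intro p _ n ι _ K _ _ _ Φ hn hΦ E _ _ _ j τ₀ c
  constructor
  · rintro ⟨m, hm⟩
    let b := Module.Basis.ofVectorSpace ℚ ℚ_[p]
    let c' : ℚ_[p] ⊗[ℚ] HQ K n := c
    have hsum : c = ∑ k ∈ (coord b c').support, b k • toHpT p (coord b c' k) := by
      have h1 := coord_sum b c'
      refine h1.trans (Finset.sum_congr rfl fun k _ => ?_)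
      change b k ⊗ₜ[ℚ] coord b c' k = b k • ((1 : ℚ_[p]) ⊗ₜ[ℚ] coord b c' k)
      rw [TensorProduct.smul_tmul', smul_eq_mul, mul_one]
    rw [hsum]
    refine Submodule.sum_mem _ fun k _ => ?_
    have h1 : IsHodge Φ ((coord b c' k : HQ K n) : (Two n → Idx K) → ℂ) := by
      apply hodge_of_endo Φ j τ₀ (coord b c' k) (p ^ m)
        (pow_pos (Nat.Prime.pos Fact.out) m)
      intro y hy z hz
      have h2 : (endo z).baseChange ℚ_[p] c' =
          ((Algebra.norm ℚ (1 + (p : E) ^ m * y) : ℚ) : ℚ_[p]) ^ n • c' :=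
        hm y hy z (by push_cast at hz; exact hz)
      have h3 := congrArg (fun w => coord b w k) h2
      simp only [coord_baseChange] at h3
      rw [h3, ← Rat.cast_pow, coord_smul]
      push_cast
      rfl
    obtain ⟨h, h2⟩ := toHpT_mem p Φ _ (hodge n ι K Φ hn hΦ _ (coord b c' k).2 h1)
    exact Submodule.smul_mem _ _ h2
  · intro hc
    refine ⟨0, fun y _ z hz => ?_⟩
    induction hc using Submodule.span_induction with
    | mem c hc =>
      obtain ⟨u, ⟨v, hv, huv⟩, rfl⟩ := hc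
      have hu : (u : (Two n → Idx K) → ℂ) ∈ Submodule.span ℂ (BallCl Φ) := by
        rw [huv]
        exact Submodule.smul_mem _ _ (Submodule.subset_span hv)
      rw [endoPT_toHpT, endo_of_hodge Φ j τ₀ u (isHodge_of_mem hu) _ z hz, toHpT_smul, Rat.cast_pow]
    | zero =>
      rw [smul_zero]
      exact map_zero ((endo z).baseChange ℚ_[p])
    | add c d _ _ hc hd =>
      rw [smul_add, ← hc, ← hd]
      exact map_add ((endo z).baseChange ℚ_[p]) c d
    | smul l c _ hc =>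
      rw [smul_comm, ← hc]
      exact map_smul ((endo z).baseChange ℚ_[p]) l c

/-- **The Tate conjecture for abelian varieties of CM type**, from the Hodge conjecture for them. -/
theorem tate_of (hodge : Pool.Agent.RAT.HODGEQ) : TATE :=
  tateT_of hodge

end

end Pool.Agent.HCM
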