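import Pool.Agent.Lib.HCM.TateGal

/-!
# Reflex norms: existence, and their images under the embeddings (helper92)
-/

set_option autoImplicit false

open scoped TensorProduct
open Complex

namespace Pool.Agent.HCM

noncomputable section

variable {ι : Type} {K : ι → Type} [∀ i, Field (K i)] {n : ℕ}
variable {E : Type} [Field E] [NumberField E]

open Classical in
/-- The image of the reflex norm of `x` under `t`, as a product over the Galois group. -/
theorem prod_reflex [IsGalois ℚ E] (Φ : ∀ i, Set (K i →+* ℂ)) (j : ∀ i, K i →+* E)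
    (τ₀ : E →+* ℂ) (x : E) (z : ∀ i, K i) (hz : IsReflexNorm Φ j τ₀ x z) (t : Two n → Idx K)
    (h : Two n → (E ≃ₐ[ℚ] E))
    (ht : ∀ a, (t a).2 = τ₀.comp ((h a : E →+* E).comp (j (t a).1))) :
    ∏ a, (t a).2 (z (t a).1) = ∏ g : E ≃ₐ[ℚ] E, τ₀ (g x) ^ (Finset.univ.filter fun a =>
      τ₀.comp (((g⁻¹ * h a : E ≃ₐ[ℚ] E) : E →+* E).comp (j (t a).1)) ∈ Φ (t a).1).card := by
  have h1 : ∀ a, (t a).2 (z (t a).1) = ∏ g : E ≃ₐ[ℚ] E,
      if τ₀.comp (((g⁻¹ * h a : E ≃ₐ[ℚ] E) : E →+* E).comp (j (t a).1)) ∈ Φ (t a).1 then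
        τ₀ (g x) else 1 := by
    intro a
    have h2 : (t a).2 (z (t a).1) = τ₀ (h a (j (t a).1 (z (t a).1))) := by
      conv_lhs => rw [ht a]
      rfl
    rw [h2, hz (t a).1, map_prod, map_prod]
    refine Fintype.prod_equiv (Equiv.mk (fun g => h a * g⁻¹) (fun g => g⁻¹ * h a) ?_ ?_) _ _ ?_
    · intro g
      simp
    · intro g
      simp
    · intro g
      simp only [Equiv.coe_fn_mk]
      have h3 : (h a * g⁻¹)⁻¹ * h a = g := by group
      rw [h3]
      split_ifs with hc
      · rfl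
      · simp
  simp only [h1]
  rw [Finset.prod_comm]
  refine Finset.prod_congr rfl fun g _ => ?_
  rw [Finset.prod_ite, Finset.prod_const, Finset.prod_const_one, mul_one]

open Classical in
/-- Reflex norms exist. -/
theorem exists_reflexNorm [IsGalois ℚ E] [∀ i, NumberField (K i)] (Φ : ∀ i, Set (K i →+* ℂ))
    (j : ∀ i, K i →+* E) (τ₀ : E →+* ℂ) (x : E) : ∃ z : ∀ i, K i, IsReflexNorm Φ j τ₀ x z := by
  have key : ∀ i, ∃ z : K i, j i z = ∏ g : E ≃ₐ[ℚ] E,
      if τ₀.comp ((g : E →+* E).comp (j i)) ∈ Φ i then g.symm x else 1 := by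
    intro i
    set w : E := ∏ g : E ≃ₐ[ℚ] E,
      if τ₀.comp ((g : E →+* E).comp (j i)) ∈ Φ i then g.symm x else 1 with hw
    let L : IntermediateField ℚ E := (j i).toRatAlgHom.fieldRange
    have hL : w ∈ L := by
      rw [← IsGalois.fixedField_fixingSubgroup L, IntermediateField.mem_fixedField_iff]
      intro s hs
      have hs' : ∀ y : K i, s (j i y) = j i y := by
        intro y
        have h1 := (IntermediateField.mem_fixingSubgroup_iff L s).1 hs (j i y) ⟨y, rfl⟩
        exact h1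
      rw [hw, map_prod]
      refine Fintype.prod_equiv (Equiv.mulRight s⁻¹) _ _ ?_
      intro g
      have h2 : τ₀.comp (((Equiv.mulRight s⁻¹ g : E ≃ₐ[ℚ] E) : E →+* E).comp (j i)) =
          τ₀.comp ((g : E →+* E).comp (j i)) := by
        ext y
        have h3 : s⁻¹ (j i y) = j i y := by
          have h4 : s⁻¹ (s (j i y)) = s⁻¹ (j i y) := congrArg (fun e => s⁻¹ e) (hs' y)
          rw [← h4]
          exact s.symm_apply_apply _
        change τ₀ (g (s⁻¹ (j i y))) = τ₀ (g (j i y))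
        rw [h3]
      rw [h2]
      split_ifs with hc
      · change s (g.symm x) = (g * s⁻¹).symm x
        rfl
      · simp
    obtain ⟨z, hz⟩ := hL
    exact ⟨z, hz⟩
  choose z hz using key
  exact ⟨z, hz⟩

end

end Pool.Agent.HCM
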