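import Pool.Agent.Lib.HCM.Stat

/-!
# The Tate conjecture for abelian varieties of CM type: statement (helper79)

`A = ∏ i, ℂ^(Φ i) / Φ i (𝓞 (K i))` as in `Pool.Agent.Lib.HCM.Stat`.  The `ℓ`-adic homology of `A`
is `H_{2n}(A, ℚ_ℓ) = ℚ_ℓ ⊗ H_{2n}(A, ℚ)`, and `A` is defined over a number field.  Let `E` be a
number field, Galois over `ℚ`, with embeddings `K i → E → ℂ`.

By the main theorem of complex multiplication (Shimura and Taniyama) there are an open subgroup of
the absolute Galois group of `E` and an `m` such that this subgroup acts on `H₁(A, ℚ_ℓ)` through the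
reflex norms of the elements `x ∈ 𝓞 E`, `x ≡ 1 mod ℓ^m` (which are dense in the image): the reflex
norm of `x` is the Frobenius endomorphism of `A` at the prime ideal `(x)`, if this is a prime ideal
of good reduction.
-/

open scoped TensorProduct
open Complex

namespace Pool.Agent.HCM

noncomputable section

variable {ι : Type} {K : ι → Type} [∀ i, Field (K i)] {n : ℕ}

/-- Multiplication of a function `u` of `t` by `∏ₐ t_a (z_(i_a))`. -/
def scale (z : ∀ i, K i) : ((Two n → Idx K) → ℂ) →ₗ[ℚ] ((Two n → Idx K) → ℂ) where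
  toFun u t := (∏ a, (t a).2 (z (t a).1)) * u t
  map_add' u v := by
    ext t
    simp only [Pi.add_apply, mul_add]
  map_smul' q u := by
    ext t
    simp only [Pi.smul_apply, mul_smul_comm, RingHom.id_apply]

theorem scale_apply (z : ∀ i, K i) (u : (Two n → Idx K) → ℂ) (t : Two n → Idx K) :
    scale z u t = (∏ a, (t a).2 (z (t a).1)) * u t := rfl

theorem scale_torusClass (z : ∀ i, K i) (x : Two n → ∀ i, K i) :
    scale z (torusClass x) = torusClass fun b i => z i * x b i := by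
  ext t
  simp only [scale_apply, torusClass, map_mul]
  rw [← Matrix.det_mul_column]
  rfl

theorem scale_mem (z : ∀ i, K i) {u : (Two n → Idx K) → ℂ} (hu : u ∈ HQ K n) :
    scale z u ∈ HQ K n := by
  unfold HQ at hu ⊢
  induction hu using Submodule.span_induction with
  | mem u hu =>
    obtain ⟨x, rfl⟩ := hu
    rw [scale_torusClass]
    exact Submodule.subset_span ⟨_, rfl⟩
  | zero =>
    rw [map_zero]
    exact Submodule.zero_mem _
  | add u v _ _ hu hv =>
    rw [map_add]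
    exact Submodule.add_mem _ hu hv
  | smul q u _ hu =>
    rw [map_smul]
    exact Submodule.smul_mem _ _ hu

/-- The action on `H_{2n}(A, ℚ)` of the endomorphism `z ∈ ∏ i, K i` of `A` (up to isogeny): it sends
the class of the torus spanned by the loops `x b` to the class of the torus spanned by the `z x b`. -/
def endo (z : ∀ i, K i) : HQ K n →ₗ[ℚ] HQ K n :=
  (scale z).restrict fun _ hu => scale_mem z hu

/-! ## Coefficients in `ℚ_p` -/

/-- `H_{2n}(A, ℚ)`, as a type. -/
def HH (K : ι → Type) [∀ i, Field (K i)] (n : ℕ) : Type := HQ K n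

/-- The function of `t` given by a class in `H_{2n}(A, ℚ)`. -/
def HH.fn (u : HH K n) : (Two n → Idx K) → ℂ := u.1

instance instAddCommGroupHH (K : ι → Type) [∀ i, Field (K i)] (n : ℕ) : AddCommGroup (HH K n) :=
  (HQ K n).addCommGroup

instance instModuleHH (K : ι → Type) [∀ i, Field (K i)] (n : ℕ) : Module ℚ (HH K n) :=
  (HQ K n).module

/-- The action on `H_{2n}(A, ℚ)` of the endomorphism `z`. -/
def endoH (z : ∀ i, K i) : HH K n →ₗ[ℚ] HH K n := endo z

/-- `H_{2n}(A, ℚ_p) = ℚ_p ⊗ H_{2n}(A, ℚ)`. -/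
def Hp (p : ℕ) [Fact p.Prime] (K : ι → Type) [∀ i, Field (K i)] (n : ℕ) : Type :=
  ℚ_[p] ⊗[ℚ] HH K n

section Hp

variable (p : ℕ) [Fact p.Prime]

instance instAddCommGroupHp : AddCommGroup (Hp p K n) :=
  inferInstanceAs (AddCommGroup (ℚ_[p] ⊗[ℚ] HH K n))

instance instModuleHp : Module ℚ_[p] (Hp p K n) :=
  inferInstanceAs (Module ℚ_[p] (ℚ_[p] ⊗[ℚ] HH K n))

/-- The map `H_{2n}(A, ℚ) → H_{2n}(A, ℚ_p)`. -/
def toHp (u : HH K n) : Hp p K n := (1 : ℚ_[p]) ⊗ₜ[ℚ] u

/-- The action of `z ∈ ∏ i, K i` on `H_{2n}(A, ℚ_p)`. -/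
def endoP (z : ∀ i, K i) : Hp p K n →ₗ[ℚ_[p]] Hp p K n := (endoH z).baseChange ℚ_[p]

/-- The classes in `H_{2n}(A, ℚ_p)` of the holomorphic maps to `A` from compact arithmetic quotients
of the `n`-ball (smooth projective varieties, after passing to a subgroup of finite index).  The
factor `(-2i)^n` passes from the Lebesgue measure to the form
`dy_0 ∧ … ∧ dy_(n-1) ∧ conj dy_0 ∧ … ∧ conj dy_(n-1)`. -/
def BallP (Φ : ∀ i, Set (K i →+* ℂ)) : Set (Hp p K n) :=
  {b | ∃ u : HH K n, (∃ v ∈ BallCl Φ, u.fn = (-2 * I) ^ n • v) ∧ b = toHp p u}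

end Hp

section reflex

variable {E : Type} [Field E] [NumberField E]

open Classical in
/-- `z ∈ ∏ i, K i` is the reflex norm of `x ∈ E`: the image of `z i` in `E` is the product of the
`g⁻¹ x`, over the `g ∈ Gal(E/ℚ)` which induce on `K i` an embedding in `Φ i`. -/
def IsReflexNorm (Φ : ∀ i, Set (K i →+* ℂ)) (j : ∀ i, K i →+* E) (τ₀ : E →+* ℂ) (x : E)
    (z : ∀ i, K i) : Prop :=
  ∀ i, j i (z i) = ∏ g : E ≃ₐ[ℚ] E,
    if τ₀.comp ((g : E →+* E).comp (j i)) ∈ Φ i then g.symm x else 1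

/-- Tate classes in `H_{2n}(A, ℚ_p)`: for some `m`, the reflex norm of every `x ∈ 𝓞 E` with
`x ≡ 1 mod p^m` acts on `c` by the `n`-th power of the norm of `x` (the `n`-th power of the
cyclotomic character). -/
def IsTate (p : ℕ) [Fact p.Prime] (Φ : ∀ i, Set (K i →+* ℂ)) (j : ∀ i, K i →+* E) (τ₀ : E →+* ℂ)
    (c : Hp p K n) : Prop :=
  ∃ m : ℕ, ∀ y : E, IsIntegral ℤ y → ∀ z : ∀ i, K i,
    IsReflexNorm Φ j τ₀ (1 + (p : E) ^ m * y) z →
      endoP p z c = ((Algebra.norm ℚ (1 + (p : E) ^ m * y) : ℚ) : ℚ_[p]) ^ n • c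

end reflex

/-- **The Tate conjecture for abelian varieties of CM type**: for every prime `p` the Tate classes in
`H_{2n}(A, ℚ_p)`, `n ≥ 1`, are exactly the `ℚ_p`-linear combinations of the classes of holomorphic
maps to `A` from compact arithmetic quotients of the `n`-ball. -/
def TATE : Prop :=
  ∀ (p : ℕ) [Fact p.Prime] (n : ℕ) (ι : Type) [Finite ι] (K : ι → Type) [∀ i, Field (K i)]
    [∀ i, NumberField (K i)] [∀ i, NumberField.IsCMField (K i)] (Φ : ∀ i, Set (K i →+* ℂ)),
    0 < n → (∀ i, IsCMType (Φ i)) →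
    ∀ (E : Type) [Field E] [NumberField E] [IsGalois ℚ E] (j : ∀ i, K i →+* E) (τ₀ : E →+* ℂ)
      (c : Hp p K n),
      IsTate p Φ j τ₀ c ↔ c ∈ Submodule.span ℚ_[p] (BallP p Φ)

end

end Pool.Agent.HCM
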