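import Pool.Agent.Lib.HCM.TateDefs

open scoped TensorProduct
open Complex

namespace Pool.Agent.HCM

noncomputable section

section gal

variable {E : Type} [Field E] [NumberField E]

/-- every embedding of a Galois field is `τ₀ ∘ g` -/
theorem exists_aut [IsGalois ℚ E] (τ₀ τ : E →+* ℂ) :
    ∃ g : E ≃ₐ[ℚ] E, τ = τ₀.comp (g : E →+* E) := by
  let _ : Algebra E ℂ := τ₀.toAlgebra
  have : IsScalarTower ℚ E ℂ := IsScalarTower.of_algebraMap_eq' (Subsingleton.elim _ _)
  let f : E →ₐ[ℚ] ℂ := τ.toRatAlgHom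
  let g : Gal(E/ℚ) := Normal.algHomEquivAut ℚ ℂ E f
  refine ⟨g, ?_⟩
  have h1 : (Normal.algHomEquivAut ℚ ℂ E).symm g = f := Equiv.symm_apply_apply _ _
  ext x
  have h2 : τ₀ (g x) = τ x := congrArg (fun k : E →ₐ[ℚ] ℂ => k x) h1
  exact h2.symm

theorem exists_aut_comp [IsGalois ℚ E] {K : Type} [Field K] [NumberField K] (j : K →+* E)
    (τ₀ : E →+* ℂ) (τ : K →+* ℂ) :
    ∃ g : E ≃ₐ[ℚ] E, τ = τ₀.comp ((g : E →+* E).comp j) := by
  let _ : Algebra K ℂ := τ.toAlgebra
  let _ : Algebra K E := j.toAlgebra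
  have : IsScalarTower ℚ K E := IsScalarTower.of_algebraMap_eq' (Subsingleton.elim _ _)
  have : Algebra.IsAlgebraic K E := Algebra.IsAlgebraic.tower_top (K := ℚ) K
  let f : E →ₐ[K] ℂ := IsAlgClosed.lift
  obtain ⟨g, hg⟩ := exists_aut τ₀ (f : E →+* ℂ)
  refine ⟨g, ?_⟩
  ext x
  have h1 : f (j x) = τ x := f.commutes x
  have h2 := congrArg (fun k : E →+* ℂ => k (j x)) hg
  simp only [RingHom.comp_apply, RingHom.coe_coe] at h2
  change f (j x) = _ at h2
  rw [← h1, h2]
  rfl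

/-- the system `∑ k, τ₀ (g b_k) z_k = w g` has a solution -/
theorem exists_sol (τ₀ : E →+* ℂ) {r : Type} [Fintype r] (b : Module.Basis r ℚ E)
    (w : (E ≃ₐ[ℚ] E) → ℂ) : ∃ z : r → ℂ, ∀ g : E ≃ₐ[ℚ] E, ∑ k, τ₀ (g (b k)) * z k = w g := by
  classical
  let M : Matrix (E ≃ₐ[ℚ] E) r ℂ := Matrix.of fun g k => τ₀ (g (b k))
  have hr : LinearMap.range M.mulVecLin = ⊤ := by
    by_contra hne
    obtain ⟨f, hf, hle⟩ := Submodule.exists_le_ker_of_lt_top _ (lt_top_iff_ne_top.2 hne)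
    apply hf
    have h1 : ∀ k, ∑ g : E ≃ₐ[ℚ] E, f (Pi.single g 1) * τ₀ (g (b k)) = 0 := by
      intro k
      have h2 : f (M.mulVecLin (Pi.single k 1)) = 0 :=
        LinearMap.mem_ker.1 (hle (LinearMap.mem_range_self _ _))
      rw [Matrix.mulVecLin_apply, Matrix.mulVec_single_one] at h2
      rw [← h2]
      conv_rhs => rw [← Finset.univ_sum_single (M.col k)]
      rw [map_sum]
      refine Finset.sum_congr rfl fun g _ => ?_
      have h3 : (Pi.single g (M.col k g) : (E ≃ₐ[ℚ] E) → ℂ) = (M.col k g) • Pi.single g (1 : ℂ) := by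
        rw [← Pi.single_smul, smul_eq_mul, mul_one]
      rw [h3, map_smul, smul_eq_mul, mul_comm]
      rfl
    have h2 : ∀ x : E, ∑ g : E ≃ₐ[ℚ] E, f (Pi.single g 1) * τ₀ (g x) = 0 := by
      intro x
      rw [← b.sum_repr x]
      simp only [map_sum, Finset.mul_sum]
      rw [Finset.sum_comm]
      refine Finset.sum_eq_zero fun k _ => ?_
      have h3 : ∀ g : E ≃ₐ[ℚ] E, f (Pi.single g 1) * τ₀ (g (b.repr x k • b k)) =
          (b.repr x k : ℂ) * (f (Pi.single g 1) * τ₀ (g (b k))) := by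
        intro g
        rw [Rat.smul_def, map_mul, map_mul, map_ratCast, map_ratCast]
        ring
      simp only [h3]
      rw [← Finset.mul_sum, h1, mul_zero]
    have h3 := (linearIndependent_monoidHom E ℂ).comp
      (fun g : E ≃ₐ[ℚ] E => ((τ₀.comp (g : E →+* E) : E →+* ℂ) : E →* ℂ)) (by
        intro g g' h
        ext x
        apply τ₀.injective
        exact DFunLike.congr_fun h x)
    rw [Fintype.linearIndependent_iff] at h3
    have h4 := h3 (fun g => f (Pi.single g 1)) (by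
      ext x
      have h5 := h2 x
      simp only [Finset.sum_apply, Pi.smul_apply, smul_eq_mul, Function.comp_apply, Pi.zero_apply]
      exact h5)
    apply LinearMap.pi_ext'
    intro g
    ext
    simp only [LinearMap.comp_apply, LinearMap.single_apply, LinearMap.zero_apply]
    exact h4 g
  have hw : w ∈ LinearMap.range M.mulVecLin := hr ▸ Submodule.mem_top
  obtain ⟨z, hz⟩ := hw
  refine ⟨z, fun g => ?_⟩
  have := congrFun hz g
  rw [Matrix.mulVecLin_apply] at this
  exact this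

/-- the characters `x ↦ ∏ σ(x)^(e σ)` are different on `1 + N 𝓞 E` -/
theorem exp_eq (τ₀ : E →+* ℂ) (N : ℕ) (hN : 0 < N) (e e' : (E ≃ₐ[ℚ] E) → ℕ)
    (h : ∀ y : E, IsIntegral ℤ y →
      ∏ g : E ≃ₐ[ℚ] E, τ₀ (g (1 + N * y)) ^ e g = ∏ g : E ≃ₐ[ℚ] E, τ₀ (g (1 + N * y)) ^ e' g) :
    e = e' := by
  classical
  let b := NumberField.integralBasis E
  let P : (E ≃ₐ[ℚ] E) → MvPolynomial _ ℂ := fun g =>
    1 + MvPolynomial.C (N : ℂ) * ∑ k, MvPolynomial.C (τ₀ (g (b k))) * MvPolynomial.X k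
  have hP : ∀ (g : E ≃ₐ[ℚ] E) (z : _ → ℂ), MvPolynomial.eval z (P g) =
      1 + N * ∑ k, τ₀ (g (b k)) * z k := by
    intro g z
    simp [P]
  have h1 : ∏ g : E ≃ₐ[ℚ] E, P g ^ e g = ∏ g : E ≃ₐ[ℚ] E, P g ^ e' g := by
    apply MvPolynomial.funext_set (fun _ => Set.range (Int.cast : ℤ → ℂ))
    · intro _
      exact Set.infinite_range_of_injective Int.cast_injective
    · intro z hz
      have hz' : ∀ k, ∃ m : ℤ, (m : ℂ) = z k := fun k => hz k trivial
      choose m hm using hz'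
      have h2 := h (∑ k, (m k : E) * b k) (by
        refine IsIntegral.sum _ fun k _ => ?_
        refine IsIntegral.mul (isIntegral_algebraMap (R := ℤ) (A := E) (x := m k)) ?_
        rw [NumberField.integralBasis_apply]
        exact NumberField.RingOfIntegers.isIntegral_coe _)
      simp only [map_prod, map_pow, hP]
      have h3 : ∀ g : E ≃ₐ[ℚ] E, τ₀ (g (1 + (N : E) * ∑ k, (m k : E) * b k)) =
          1 + N * ∑ k, τ₀ (g (b k)) * z k := by
        intro g
        simp only [map_add, map_one, map_mul, map_natCast, map_sum, map_intCast, hm]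
        congr 2
        refine Finset.sum_congr rfl fun k _ => ?_
        rw [← hm]
        ring
      simp only [h3] at h2
      exact h2
  funext g₀
  obtain ⟨z, hz⟩ := exists_sol τ₀ b fun g => if g = g₀ then (N : ℂ)⁻¹ else 0
  have h2 := congrArg (MvPolynomial.eval z) h1
  simp only [map_prod, map_pow, hP, hz] at h2
  have h3 : ∀ f : (E ≃ₐ[ℚ] E) → ℕ, ∏ g : E ≃ₐ[ℚ] E,
      (1 + (N : ℂ) * if g = g₀ then (N : ℂ)⁻¹ else 0) ^ f g = 2 ^ f g₀ := by
    intro f
    rw [Finset.prod_eq_single g₀]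
    · rw [if_pos rfl, mul_inv_cancel₀ (by exact_mod_cast hN.ne')]
      norm_num
    · intro g _ hg
      rw [if_neg hg, mul_zero, add_zero, one_pow]
    · intro hg
      exact absurd (Finset.mem_univ _) hg
  rw [h3, h3] at h2
  have h4 : (2 : ℕ) ^ e g₀ = 2 ^ e' g₀ := by exact_mod_cast h2
  exact Nat.pow_right_injective le_rfl h4

end gal

end

end Pool.Agent.HCM
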