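import Mathlib

/-!
# Characters of `1 + N 𝓞` are independent (helper92)

If `∏ σ(x)^(p σ) = ∏ σ(x)^(q σ)` for all integers `x = 1` modulo `N` of a number field, then
`p = q`.
-/

set_option autoImplicit false

open Complex NumberField

namespace Pool.Agent.HCM

noncomputable section

variable {E : Type} [Field E] [NumberField E]

theorem char_indep (N : ℕ) (hN : 0 < N) (p q : (E →+* ℂ) → ℕ)
    (h : ∀ x : E, (∃ y : E, IsIntegral ℤ y ∧ x = 1 + N * y) →
      ∏ σ : E →+* ℂ, σ x ^ p σ = ∏ σ : E →+* ℂ, σ x ^ q σ) : p = q := by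
  classical
  let I := Module.Free.ChooseBasisIndex ℤ (𝓞 E)
  let b := canonicalEmbedding.latticeBasis E
  let L : (E →+* ℂ) → MvPolynomial I ℂ := fun σ =>
    1 + MvPolynomial.C (N : ℂ) * ∑ i, MvPolynomial.X i * MvPolynomial.C (b i σ)
  have hev : ∀ (z : I → ℂ) (σ : E →+* ℂ),
      MvPolynomial.eval z (L σ) = 1 + N * ∑ i, z i * b i σ := by
    intro z σ
    simp only [L, map_add, map_one, map_mul, MvPolynomial.eval_C, map_sum, MvPolynomial.eval_X]
    rfl
  have hb : ∀ i σ, b i σ = σ (integralBasis E i) := by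
    intro i σ
    simp only [b, canonicalEmbedding.latticeBasis_apply, canonicalEmbedding.apply_at]
  have hP : ∏ σ, L σ ^ p σ = ∏ σ, L σ ^ q σ := by
    refine MvPolynomial.funext_set (fun _ => Set.range (fun k : ℤ => (k : ℂ))) (fun _ =>
      Set.infinite_range_of_injective Int.cast_injective) ?_
    intro z hz
    simp only [Set.mem_pi, Set.mem_univ, Set.mem_range, forall_const] at hz
    choose k hk using hz
    have hz' : z = fun i => (k i : ℂ) := funext fun i => (hk i).symm
    subst hz'
    simp only [map_prod, map_pow, hev]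
    have h1 := h (1 + N * ∑ i, (k i : E) * integralBasis E i) ⟨_, ?_, rfl⟩
    · have h2 : ∀ σ : E →+* ℂ, σ (1 + N * ∑ i, (k i : E) * integralBasis E i) =
          1 + N * ∑ i, (k i : ℂ) * b i σ := by
        intro σ
        simp only [hb, map_add, map_one, map_mul, map_natCast, map_sum, map_intCast]
      simp only [h2] at h1
      exact h1
    · refine IsIntegral.sum _ fun i _ => IsIntegral.mul (isIntegral_intCast (k i)) ?_
      rw [integralBasis_apply]
      exact RingOfIntegers.isIntegral_coe _
  -- arbitrary values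
  have hall : ∀ y : (E →+* ℂ) → ℂ, ∏ σ, y σ ^ p σ = ∏ σ, y σ ^ q σ := by
    intro y
    have hN' : (N : ℂ) ≠ 0 := by exact_mod_cast hN.ne'
    let z : I → ℂ := fun i => b.repr (fun σ => (y σ - 1) / N) i
    have hz : ∀ σ, MvPolynomial.eval z (L σ) = y σ := by
      intro σ
      rw [hev]
      have h1 := congrFun (b.sum_repr (fun σ => (y σ - 1) / N)) σ
      simp only [Finset.sum_apply, Pi.smul_apply, smul_eq_mul] at h1
      have h2 : ∑ i, z i * b i σ = (y σ - 1) / N := h1
      rw [h2]
      field_simp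
      ring
    have h3 := congrArg (MvPolynomial.eval z) hP
    simpa only [map_prod, map_pow, hz] using h3
  funext τ
  have h4 := hall (fun σ => if σ = τ then 2 else 1)
  have h5 : ∀ e : (E →+* ℂ) → ℕ, ∏ σ : E →+* ℂ, (if σ = τ then (2 : ℂ) else 1) ^ e σ = 2 ^ e τ := by
    intro e
    rw [Finset.prod_eq_single τ]
    · simp
    · intro σ _ hσ
      simp [hσ]
    · simp
  rw [h5, h5] at h4
  have h6 : (2 : ℕ) ^ p τ = 2 ^ q τ := by exact_mod_cast h4
  exact Nat.pow_right_injective le_rfl h6

end

end Pool.Agent.HCM
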